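import Pool.Agent.MP_9c5a49_an.H98.KDefs

/-!
Uniform Roe algebras on the concrete space and their ideals.
-/

set_option autoImplicit false

namespace Pool.Agent.MP_9c5a49_an.H98

open Filter

section NonUnital

variable (A : Type) [NonUnitalRing A] [Module ℂ A] [IsScalarTower ℂ A A] [SMulCommClass ℂ A A]
variable {A' : Type} [NonUnitalRing A'] [Module ℂ A'] [IsScalarTower ℂ A' A']
  [SMulCommClass ℂ A' A']

/-- `K₀ A` is the kernel of `K₀ (A⁺) → K₀ ℂ`. -/
abbrev K0 : Type := (K0u.map (scal A)).ker

variable {A} in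
/-- The map induced on `K₀`. -/
def K0.map (φ : A →ₙₐ[ℂ] A') : K0 A →+ K0 A' :=
  ((K0u.map (uMap φ)).comp (K0u.map (scal A)).ker.subtype).codRestrict _ fun x => by
    have h : (scal A').comp (uMap φ) = scal A := RingHom.ext fun x => uMap_fst φ x
    show K0u.map (scal A') (K0u.map (uMap φ) x) = 0
    rw [K0u.map_map, h]
    exact x.2

end NonUnital

/-! ### Uniform Roe algebras -/

/-- The Hilbert space `ℓ²(X)`. -/
abbrev L2 (X : Type) : Type := lp (fun _ : X => ℂ) 2

/-- Bounded operators on `ℓ²(X)`. -/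
abbrev BX (X : Type) : Type := L2 X →L[ℂ] L2 X

open Classical in
/-- The matrix entry `T_{xy}`. -/
noncomputable def ent {X : Type} (T : BX X) (x y : X) : ℂ := T (lp.single 2 y 1) x

open Classical in
theorem ent_mul {X : Type} (S T : BX X) (x y : X) :
    HasSum (fun z => ent S x z * ent T z y) (ent (S * T) x y) := by
  have h := ((lp.hasSum_single (by norm_num) (T (lp.single 2 y 1))).mapL S).mapL
    (lp.evalCLM ℂ (fun _ : X => ℂ) 2 x)
  have e : ∀ z, lp.evalCLM ℂ (fun _ : X => ℂ) 2 x (S (lp.single 2 z (T (lp.single 2 y 1) z))) =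
      ent S x z * ent T z y := fun z => by
    have : lp.single 2 z (T (lp.single 2 y 1) z) =
        (T (lp.single 2 y 1) z) • (lp.single 2 z 1 : L2 X) := by
      rw [← lp.single_smul, smul_eq_mul, mul_one]
    rw [this, map_smul, map_smul, smul_eq_mul, mul_comm]
    rfl
  simp only [e] at h
  exact h

variable (X : Type) [MetricSpace X]

/-- The algebraic uniform Roe algebra: bounded operators of finite propagation. -/
def finProp : NonUnitalSubalgebra ℂ (BX X) where
  carrier := {T | ∃ R : ℝ, ∀ x y, ent T x y ≠ 0 → dist x y ≤ R}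
  zero_mem' := ⟨0, fun _ _ h => (h rfl).elim⟩
  add_mem' := by
    rintro S T ⟨R, hR⟩ ⟨R', hR'⟩
    refine ⟨max R R', fun x y h => ?_⟩
    by_cases h1 : ent S x y = 0
    · refine (hR' x y fun h2 => h ?_).trans (le_max_right _ _)
      show ent S x y + ent T x y = 0
      rw [h1, h2, add_zero]
    · exact (hR x y h1).trans (le_max_left _ _)
  smul_mem' := by
    rintro c T ⟨R, hR⟩
    refine ⟨R, fun x y h => hR x y fun h2 => h ?_⟩
    show c * ent T x y = 0
    rw [h2, mul_zero]
  mul_mem' := by
    rintro S T ⟨R, hR⟩ ⟨R', hR'⟩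
    refine ⟨R + R', fun x y h => ?_⟩
    by_contra hd
    refine h ((ent_mul S T x y).unique ?_)
    convert hasSum_zero with z
    by_contra hz
    exact hd ((dist_triangle x z y).trans
      (add_le_add (hR x z (left_ne_zero_of_mul hz)) (hR' z y (right_ne_zero_of_mul hz))))

/-- The uniform Roe algebra. -/
noncomputable def Roe : NonUnitalSubalgebra ℂ (BX X) := (finProp X).topologicalClosure

variable {X}

/-- Closed two-sided ideals of the uniform Roe algebra. -/
structure IsIdeal (I : NonUnitalSubalgebra ℂ (BX X)) : Prop where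
  closed : IsClosed (I : Set (BX X))
  le : I ≤ Roe X
  left : ∀ a ∈ Roe X, ∀ t ∈ I, a * t ∈ I
  right : ∀ a ∈ Roe X, ∀ t ∈ I, t * a ∈ I

/-- The closure of the finite propagation operators in `I`. -/
noncomputable def geom (I : NonUnitalSubalgebra ℂ (BX X)) : NonUnitalSubalgebra ℂ (BX X) :=
  (I ⊓ finProp X).topologicalClosure

theorem geom_le {I : NonUnitalSubalgebra ℂ (BX X)} (hI : IsIdeal I) : geom I ≤ I :=
  NonUnitalSubalgebra.topologicalClosure_minimal inf_le_left hI.closed

/-- The inclusion of the geometric part. -/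
noncomputable def incl {I : NonUnitalSubalgebra ℂ (BX X)} (hI : IsIdeal I) : geom I →ₙₐ[ℂ] I :=
  NonUnitalSubalgebra.inclusion (geom_le hI)

theorem incl_cont {I : NonUnitalSubalgebra ℂ (BX X)} (hI : IsIdeal I) : Continuous (incl hI) :=
  continuous_inclusion (geom_le hI)

end Pool.Agent.MP_9c5a49_an.H98
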