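import Mathlib

/-!
Operator K-theory of non-unital algebras, uniform Roe algebras and their ideals.
-/

set_option autoImplicit false

namespace Pool.Agent.MP_9c5a49_an.H98

open Filter

/-- The block sum of two square matrices. -/
def dsum {R : Type} [Ring R] {m n : ℕ} (a : Matrix (Fin m) (Fin m) R)
    (b : Matrix (Fin n) (Fin n) R) : Matrix (Fin (m + n)) (Fin (m + n)) R :=
  Matrix.reindex finSumFinEquiv finSumFinEquiv (Matrix.fromBlocks a 0 0 b)

theorem dsum_mul {R : Type} [Ring R] {m n : ℕ} (a a' : Matrix (Fin m) (Fin m) R)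
    (b b' : Matrix (Fin n) (Fin n) R) : dsum a b * dsum a' b' = dsum (a * a') (b * b') := by
  simp [dsum, Matrix.fromBlocks_multiply]

theorem dsum_one {R : Type} [Ring R] {m n : ℕ} :
    dsum (1 : Matrix (Fin m) (Fin m) R) (1 : Matrix (Fin n) (Fin n) R) = 1 := by
  simp [dsum]

theorem dsum_map {R S : Type} [Ring R] [Ring S] (φ : R →+* S) {m n : ℕ}
    (a : Matrix (Fin m) (Fin m) R) (b : Matrix (Fin n) (Fin n) R) :
    (dsum a b).map φ = dsum (a.map φ) (b.map φ) := by
  ext i j
  simp only [dsum, Matrix.reindex_apply, Matrix.map_apply, Matrix.submatrix_apply]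
  rcases finSumFinEquiv.symm i with i | i <;> rcases finSumFinEquiv.symm j with j | j <;> simp

/-! ### The group `K₀` -/

/-- Idempotent square matrices over `R`. -/
structure Idem (R : Type) [Ring R] where
  n : ℕ
  e : Matrix (Fin n) (Fin n) R
  idem : e * e = e

/-- The block sum of two idempotents. -/
def Idem.add {R : Type} [Ring R] (e f : Idem R) : Idem R :=
  ⟨e.n + f.n, dsum e.e f.e, by rw [dsum_mul, e.idem, f.idem]⟩

/-- Algebraic equivalence of idempotents. -/
def Idem.Eqv {R : Type} [Ring R] (e f : Idem R) : Prop :=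
  ∃ (x : Matrix (Fin e.n) (Fin f.n) R) (y : Matrix (Fin f.n) (Fin e.n) R),
    x * y = e.e ∧ y * x = f.e

/-- The image of an idempotent under a ring homomorphism. -/
def Idem.map {R S : Type} [Ring R] [Ring S] (φ : R →+* S) (e : Idem R) : Idem S :=
  ⟨e.n, e.e.map φ, by rw [← Matrix.map_mul, e.idem]⟩

/-- The relations `[e] = [f]` for equivalent idempotents and `[e ⊕ f] = [e] + [f]`. -/
def rel0 (R : Type) [Ring R] : AddSubgroup (FreeAbelianGroup (Idem R)) :=
  AddSubgroup.closure
    ({z | ∃ e f : Idem R, e.Eqv f ∧ z = .of e - .of f} ∪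
      {z | ∃ e f : Idem R, z = .of (e.add f) - .of e - .of f})

/-- `K₀` of a unital ring: the Grothendieck group of the monoid of classes of idempotents. -/
abbrev K0u (R : Type) [Ring R] : Type := FreeAbelianGroup (Idem R) ⧸ rel0 R

theorem rel0_le {R S : Type} [Ring R] [Ring S] (φ : R →+* S) :
    rel0 R ≤ (rel0 S).comap (FreeAbelianGroup.map (Idem.map φ)) := by
  refine (AddSubgroup.closure_le _).2 ?_
  rintro _ (⟨e, f, ⟨x, y, h1, h2⟩, rfl⟩ | ⟨e, f, rfl⟩)
  · refine AddSubgroup.subset_closure (Or.inl ⟨e.map φ, f.map φ, ⟨x.map φ, y.map φ, ?_, ?_⟩, ?_⟩)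
    · exact (Matrix.map_mul ..).symm.trans (congrArg (fun a => Matrix.map a φ) h1)
    · exact (Matrix.map_mul ..).symm.trans (congrArg (fun a => Matrix.map a φ) h2)
    · simp
  · refine AddSubgroup.subset_closure (Or.inr ⟨e.map φ, f.map φ, ?_⟩)
    have : (e.add f).map φ = (e.map φ).add (f.map φ) := by
      simp only [Idem.add, Idem.map, dsum_map]
    simp [this]

/-- The map induced on `K₀` by a unital ring homomorphism. -/
def K0u.map {R S : Type} [Ring R] [Ring S] (φ : R →+* S) : K0u R →+ K0u S :=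
  QuotientAddGroup.map _ _ (FreeAbelianGroup.map (Idem.map φ)) (rel0_le φ)

theorem K0u.map_map {R S T : Type} [Ring R] [Ring S] [Ring T] (φ : R →+* S) (ψ : S →+* T)
    (x : K0u R) : K0u.map ψ (K0u.map φ x) = K0u.map (ψ.comp φ) x := by
  obtain ⟨x, rfl⟩ := QuotientAddGroup.mk_surjective x
  exact congrArg (QuotientAddGroup.mk (s := rel0 T))
    (FreeAbelianGroup.map_comp_apply (f := Idem.map φ) (g := Idem.map ψ) (x := x)).symm

section NonUnital

variable (A : Type) [NonUnitalRing A] [Module ℂ A] [IsScalarTower ℂ A A] [SMulCommClass ℂ A A]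
variable {A' : Type} [NonUnitalRing A'] [Module ℂ A'] [IsScalarTower ℂ A' A']
  [SMulCommClass ℂ A' A']

/-- The scalar part of an element of the unitization. -/
def scal : Unitization ℂ A →+* ℂ := (Unitization.fstHom ℂ A).toRingHom

variable {A} in
/-- The unital extension of a homomorphism: the scalar part is kept and `φ` acts on the other part. -/
def uMap (φ : A →ₙₐ[ℂ] A') : Unitization ℂ A →+* Unitization ℂ A' :=
  (Unitization.lift ((Unitization.inrNonUnitalAlgHom ℂ A').comp φ)).toRingHom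

variable {A} in
theorem uMap_fst (φ : A →ₙₐ[ℂ] A') (x : Unitization ℂ A) : (uMap φ x).fst = x.fst := by
  simp [uMap, Unitization.algebraMap_eq_inl]

variable {A} in
theorem uMap_snd (φ : A →ₙₐ[ℂ] A') (x : Unitization ℂ A) : (uMap φ x).snd = φ x.snd := by
  simp [uMap, Unitization.algebraMap_eq_inl]

/-- `K₀ A` is the kernel of `K₀ (A⁺) → K₀ ℂ`. -/
def KZero : Type := {x : K0u (Unitization ℂ A) // K0u.map (scal A) x = 0}

variable {A} in
/-- The map induced on `K₀`. -/
def KZero.map (φ : A →ₙₐ[ℂ] A') (x : KZero A) : KZero A' :=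
  ⟨K0u.map (uMap φ) x.1, by
    have h : (scal A').comp (uMap φ) = scal A := RingHom.ext fun x => uMap_fst φ x
    rw [K0u.map_map, h]
    exact x.2⟩

/-! ### `K₁` -/

/-- Invertible square matrices over the unitization. -/
structure Inv where
  n : ℕ
  u : Matrix (Fin n) (Fin n) (Unitization ℂ A)
  unit : IsUnit u

variable [TopologicalSpace A] [TopologicalSpace A']

variable {A} in
/-- `u` and `v` are joined by a continuous path of invertible matrices. -/
def Htpy {ι : Type} [Fintype ι] [DecidableEq ι] (u v : Matrix ι ι (Unitization ℂ A)) : Prop :=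
  ∃ γ : unitInterval → Matrix ι ι (Unitization ℂ A), γ 0 = u ∧ γ 1 = v ∧ (∀ t, IsUnit (γ t)) ∧
    ∀ i j, Continuous (fun t => (γ t i j).fst) ∧ Continuous fun t => (γ t i j).snd

/-- Homotopy, and stabilisation `u ↦ u ⊕ 1`. -/
inductive Rel1 : Inv A → Inv A → Prop
  | htpy {n : ℕ} {u v : Matrix (Fin n) (Fin n) (Unitization ℂ A)} (hu : IsUnit u) (hv : IsUnit v) :
      Htpy u v → Rel1 ⟨n, u, hu⟩ ⟨n, v, hv⟩
  | stab {n : ℕ} {u : Matrix (Fin n) (Fin n) (Unitization ℂ A)} (hu : IsUnit u)
      (hv : IsUnit (dsum u (1 : Matrix (Fin 1) (Fin 1) (Unitization ℂ A)))) :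
      Rel1 ⟨n, u, hu⟩ ⟨n + 1, dsum u 1, hv⟩

/-- `K₁ A`: invertible matrices over `A⁺` up to homotopy and stabilisation. -/
def K1 : Type := Quot (Rel1 A)

variable {A} in
/-- The map induced on `K₁` by a continuous homomorphism. -/
def K1.map (φ : A →ₙₐ[ℂ] A') (hφ : Continuous φ) : K1 A → K1 A' :=
  Quot.map (fun u => ⟨u.n, u.u.map (uMap φ), u.unit.map (uMap φ).mapMatrix⟩) (by
    rintro _ _ (⟨hu, hv, γ, h0, h1, h2, h3⟩ | @⟨n, u, hu, hv⟩)
    · refine Rel1.htpy _ _ ⟨fun t => (γ t).map (uMap φ), by simp only [h0], by simp only [h1],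
        fun t => (h2 t).map (uMap φ).mapMatrix, fun i j => ?_⟩
      simp only [Matrix.map_apply, uMap_fst, uMap_snd]
      exact ⟨(h3 i j).1, hφ.comp (h3 i j).2⟩
    · have e : (dsum u (1 : Matrix (Fin 1) (Fin 1) _)).map (uMap φ) = dsum (u.map (uMap φ)) 1 := by
        rw [dsum_map, Matrix.map_one _ (map_zero _) (map_one _)]
      simp only [e]
      exact Rel1.stab _ _)

end NonUnital

/-! ### Coarse geometry -/

/-- Closed two-sided ideals of a closed subalgebra with underlying set `A`. -/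
structure IsIdealOf {B : Type} [CStarAlgebra B] (A : Set B) (I : NonUnitalSubalgebra ℂ B) :
    Prop where
  closed : IsClosed (I : Set B)
  le : (I : Set B) ⊆ A
  left : ∀ a ∈ A, ∀ t ∈ I, a * t ∈ I
  right : ∀ a ∈ A, ∀ t ∈ I, t * a ∈ I

variable (X : Type) [MetricSpace X]

/-- Bounded geometry. -/
def BddGeom : Prop := ∀ R : ℝ, ∃ N : ℕ, ∀ x : X, (Metric.closedBall x R).encard ≤ N

/-- The inequalities of a coarse embedding, with fixed control functions, can be realised up to
every finite scale by a map to a finite-dimensional Euclidean space. -/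
def LocEmb : Prop :=
  ∃ ρm ρp : ℝ → ℝ, MonotoneOn ρm (Set.Ici 0) ∧ MonotoneOn ρp (Set.Ici 0) ∧
    Tendsto ρm atTop atTop ∧ ∀ R : ℝ, ∃ (D : ℕ) (f : X → EuclideanSpace ℝ (Fin D)),
      ∀ x y, dist x y ≤ R → ρm (dist x y) ≤ ‖f x - f y‖ ∧ ‖f x - f y‖ ≤ ρp (dist x y)

variable {X} in
/-- Bounded operators of finite propagation for an orthonormal basis indexed by `X`. -/
def FinProp {H : Type} [NormedAddCommGroup H] [InnerProductSpace ℂ H] (b : HilbertBasis X ℂ H) :
    Set (H →L[ℂ] H) :=
  {T | ∃ R : ℝ, ∀ x y, inner ℂ (b x) (T (b y)) ≠ 0 → dist x y ≤ R}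

end Pool.Agent.MP_9c5a49_an.H98
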