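import Pool.Agent.MP_9c5a49_an.H98.Spec

/-!
The C⋆-norm of matrices, matrices with entries in an ideal, matrices over the unitization.
-/

set_option autoImplicit false

namespace Pool.Agent.MP_9c5a49_an.H98

open Matrix

section Nm

variable {B : Type} [CStarAlgebra B] [PartialOrder B] [StarOrderedRing B] {ι κ : Type}
  [Fintype ι]

theorem nm_nonneg (a : Matrix ι ι B) : 0 ≤ nm a := norm_nonneg _

theorem nm_zero : nm (0 : Matrix ι ι B) = 0 := norm_zero (E := CStarMatrix ι ι B)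

theorem nm_add_le (a b : Matrix ι ι B) : nm (a + b) ≤ nm a + nm b :=
  norm_add_le (E := CStarMatrix ι ι B) a b

theorem nm_sub_le (a b : Matrix ι ι B) : nm (a - b) ≤ nm a + nm b :=
  norm_sub_le (E := CStarMatrix ι ι B) a b

theorem nm_neg (a : Matrix ι ι B) : nm (-a) = nm a := norm_neg (E := CStarMatrix ι ι B) a

theorem nm_sub_rev (a b : Matrix ι ι B) : nm (a - b) = nm (b - a) :=
  norm_sub_rev (E := CStarMatrix ι ι B) a b

theorem nm_mul_le (a b : Matrix ι ι B) : nm (a * b) ≤ nm a * nm b :=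
  norm_mul_le (α := CStarMatrix ι ι B) a b

theorem nm_mul_le' {a b : Matrix ι ι B} {x y : ℝ} (ha : nm a ≤ x) (hb : nm b ≤ y) :
    nm (a * b) ≤ x * y :=
  (nm_mul_le a b).trans (mul_le_mul ha hb (nm_nonneg _) ((nm_nonneg _).trans ha))

theorem nm_smul (c : ℂ) (a : Matrix ι ι B) : nm (c • a) = ‖c‖ * nm a :=
  norm_smul (β := CStarMatrix ι ι B) c a

theorem nm_star (a : Matrix ι ι B) : nm aᴴ = nm a := norm_star (E := CStarMatrix ι ι B) a

theorem nm_star_mul (a : Matrix ι ι B) : nm (aᴴ * a) = nm a * nm a :=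
  CStarRing.norm_star_mul_self (E := CStarMatrix ι ι B) (x := a)

theorem nm_entry (a : Matrix ι ι B) (i j : ι) : ‖a i j‖ ≤ nm a :=
  CStarMatrix.norm_entry_le_norm (M := CStarMatrix.ofMatrix a)

theorem nm_sum_le {σ : Type} (s : Finset σ) (a : σ → Matrix ι ι B) :
    nm (∑ k ∈ s, a k) ≤ ∑ k ∈ s, nm (a k) :=
  norm_sum_le (E := CStarMatrix ι ι B) s a

theorem continuous_nm : Continuous (nm : Matrix ι ι B → ℝ) :=
  continuous_norm (E := CStarMatrix ι ι B)

theorem nm_small {η : ℝ} (hη : 0 < η) :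
    ∃ δ > 0, ∀ a : Matrix ι ι B, (∀ i j, ‖a i j‖ ≤ δ) → nm a ≤ η := by
  have h : Continuous (fun a : ι → ι → B => nm (of a)) := continuous_nm
  obtain ⟨δ, hδ, h1⟩ := Metric.continuousAt_iff.1 (h.continuousAt (x := 0)) η hη
  refine ⟨δ / 2, by positivity, fun a ha => ?_⟩
  have h2 : dist (of.symm a) 0 < δ := by
    rw [dist_zero_right]
    refine lt_of_le_of_lt ((pi_norm_le_iff_of_nonneg (r := δ / 2) (by positivity)).2 fun i =>
      (pi_norm_le_iff_of_nonneg (by positivity)).2 fun j => ha i j) (by linarith)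
  have h3 := h1 h2
  rw [Real.dist_eq, show nm (of (0 : ι → ι → B)) = 0 from nm_zero, sub_zero] at h3
  exact (le_abs_self _).trans h3.le

theorem continuous_of_nm {V : ℝ → Matrix ι ι B} {K : ℝ}
    (h : ∀ τ σ, nm (V τ - V σ) ≤ K * |τ - σ|) : Continuous V := by
  have : LipschitzWith K.toNNReal fun τ => CStarMatrix.ofMatrix (V τ) :=
    LipschitzWith.of_dist_le' fun τ σ => by
      rw [dist_eq_norm, Real.dist_eq]
      exact h τ σ
  exact this.continuous

theorem nm_le_one {p : Matrix ι ι B} (h : pᴴ * p = p) : nm p ≤ 1 := by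
  have h1 := nm_star_mul p
  rw [h] at h1
  nlinarith [nm_nonneg p]

variable [DecidableEq ι]

theorem nm_one_le : nm (1 : Matrix ι ι B) ≤ 1 := nm_le_one (by simp)

theorem nm_unitary {u : Matrix ι ι B} (h : uᴴ * u = 1) : nm u ≤ 1 := by
  have h1 := nm_star_mul u
  rw [h] at h1
  nlinarith [nm_nonneg u, nm_one_le (ι := ι) (B := B)]

theorem neumann {A : NonUnitalSubalgebra ℂ B} (h1 : 1 ∈ A) (hc : IsClosed (A : Set B))
    {z : Matrix ι ι B} (hz : Ent A z) (hn : nm z < 1) :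
    ∃ y, Ent A y ∧ (1 + z) * y = 1 ∧ y * (1 + z) = 1 := by
  have hn' : ‖(-CStarMatrix.ofMatrix z : CStarMatrix ι ι B)‖ < 1 := by rwa [norm_neg]
  have hs := (summable_geometric_of_norm_lt_one hn').hasSum
  have hp : ∀ k : ℕ, Ent A ((-z) ^ k) := fun k => by
    induction k with
    | zero =>
      intro i j
      rw [pow_zero, one_apply]
      split_ifs
      exacts [h1, zero_mem _]
    | succ k ih =>
      intro i j
      rw [pow_succ, mul_apply]
      exact sum_mem fun l _ => mul_mem (ih i l) (neg_mem (hz l j))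
  refine ⟨(∑' k : ℕ, (-CStarMatrix.ofMatrix z : CStarMatrix ι ι B) ^ k :), fun i j => ?_, ?_, ?_⟩
  · have hcl : IsClosed {a : Matrix ι ι B | a i j ∈ A} :=
      hc.preimage (continuous_id.matrix_elem i j)
    refine hcl.mem_of_tendsto hs.tendsto_sum_nat (.of_forall fun n => ?_)
    show (∑ k ∈ Finset.range n, (-z) ^ k) i j ∈ A
    rw [Matrix.sum_apply]
    exact sum_mem fun k _ => hp k i j
  · have := mul_neg_geom_series _ hn'
    rwa [sub_neg_eq_add] at this
  · have := geom_series_mul_neg _ hn'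
    rwa [sub_neg_eq_add] at this

variable [Fintype κ] [DecidableEq κ]

/-- Block diagonal matrices as a star homomorphism. -/
noncomputable def bdHom : (κ → CStarMatrix ι ι B) →⋆ₙₐ[ℂ] CStarMatrix (ι × κ) (ι × κ) B where
  toFun g := CStarMatrix.ofMatrix (blockDiagonal g)
  map_smul' c g := blockDiagonal_smul c g
  map_zero' := blockDiagonal_zero
  map_add' g h := blockDiagonal_add g h
  map_mul' g h := blockDiagonal_mul g h
  map_star' g := (blockDiagonal_conjTranspose g).symm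

omit [DecidableEq ι] in
theorem nm_blockDiagonal {g : κ → Matrix ι ι B} {C : ℝ} (hC : 0 ≤ C) (h : ∀ γ, nm (g γ) ≤ C) :
    nm (blockDiagonal g) ≤ C := by
  classical
  exact (NonUnitalStarAlgHom.norm_apply_le (bdHom (ι := ι) (κ := κ) (B := B))
    fun γ => CStarMatrix.ofMatrix (g γ)).trans ((pi_norm_le_iff_of_nonneg hC).2 h)

omit [DecidableEq ι] in
theorem nm_amp (T : Matrix ι ι B) : nm (amp κ T) ≤ nm T :=
  nm_blockDiagonal (nm_nonneg T) fun _ => le_rfl

end Nm

section Alg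

variable {B : Type} [CStarAlgebra B] {ι κ σ : Type}

theorem amp_mul [Fintype ι] [Fintype κ] [DecidableEq κ] (S T : Matrix ι ι B) :
    amp κ (S * T) = amp κ S * amp κ T := blockDiagonal_mul _ _

theorem amp_add [DecidableEq κ] (S T : Matrix ι ι B) : amp κ (S + T) = amp κ S + amp κ T :=
  blockDiagonal_add (fun _ => S) fun _ => T

theorem amp_sub [DecidableEq κ] (S T : Matrix ι ι B) : amp κ (S - T) = amp κ S - amp κ T :=
  blockDiagonal_sub (fun _ => S) fun _ => T

theorem amp_one [DecidableEq ι] [DecidableEq κ] : amp κ (1 : Matrix ι ι B) = 1 :=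
  blockDiagonal_one

theorem qq_eq [DecidableEq ι] [DecidableEq κ] (ev : κ → Bool) :
    (qq ι ev : Matrix _ _ B) = blockDiagonal fun γ => if ev γ then 1 else 0 := by
  ext ⟨i, γ⟩ ⟨j, δ⟩
  by_cases h : γ = δ
  · subst h
    cases hv : ev γ <;> simp [qq, diagonal_apply, one_apply, hv]
  · simp [qq, blockDiagonal_apply, h]

theorem qq_star [DecidableEq ι] [DecidableEq κ] (ev : κ → Bool) :
    (qq ι ev : Matrix _ _ B)ᴴ = qq ι ev := by
  rw [qq, diagonal_conjTranspose]
  congr 1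
  funext p
  cases hv : ev p.2 <;> simp [hv]

variable [Fintype ι] [DecidableEq ι] [Fintype κ] [DecidableEq κ]

theorem qq_idem (ev : κ → Bool) : (qq ι ev : Matrix _ _ B) * qq ι ev = qq ι ev := by
  rw [qq, diagonal_mul_diagonal]
  congr 1
  funext p
  cases hv : ev p.2 <;> simp

theorem bd_mul_qq (ev : κ → Bool) (g : κ → Matrix ι ι B) :
    blockDiagonal g * qq ι ev = blockDiagonal fun γ => if ev γ then g γ else 0 := by
  rw [qq_eq, ← blockDiagonal_mul]
  congr 1
  funext γ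
  cases hv : ev γ <;> simp

theorem amp_qq (ev : κ → Bool) (T : Matrix ι ι B) : amp κ T * qq ι ev = qq ι ev * amp κ T := by
  rw [qq_eq, amp, ← blockDiagonal_mul, ← blockDiagonal_mul]
  congr 1
  funext γ
  cases hv : ev γ <;> simp

theorem nm_qq [PartialOrder B] [StarOrderedRing B] (ev : κ → Bool) :
    nm (qq ι ev : Matrix _ _ B) ≤ 1 := nm_le_one (by rw [qq_star, qq_idem])

theorem nm_one_sub_qq [PartialOrder B] [StarOrderedRing B] (ev : κ → Bool) :
    nm (1 - qq ι ev : Matrix _ _ B) ≤ 1 := nm_le_one (by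
  rw [conjTranspose_sub, conjTranspose_one, qq_star, sub_mul, one_mul, mul_sub, mul_one, qq_idem,
    sub_self, sub_zero])

end Alg

section Ent

variable {B : Type} [CStarAlgebra B] {ι κ σ : Type} {A I J : NonUnitalSubalgebra ℂ B}

theorem Ent.mono (h : J ≤ I) {a : Matrix ι κ B} (ha : Ent J a) : Ent I a := fun i j => h (ha i j)

theorem Ent.zero : Ent I (0 : Matrix ι κ B) := fun _ _ => zero_mem _

theorem Ent.add {a b : Matrix ι κ B} (ha : Ent I a) (hb : Ent I b) : Ent I (a + b) :=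
  fun i j => add_mem (ha i j) (hb i j)

theorem Ent.sub {a b : Matrix ι κ B} (ha : Ent I a) (hb : Ent I b) : Ent I (a - b) :=
  fun i j => sub_mem (ha i j) (hb i j)

theorem Ent.neg {a : Matrix ι κ B} (ha : Ent I a) : Ent I (-a) := fun i j => neg_mem (ha i j)

theorem Ent.smul (c : ℂ) {a : Matrix ι κ B} (ha : Ent I a) : Ent I (c • a) :=
  fun i j => I.smul_mem c (ha i j)

theorem Ent.mul_of [Fintype κ] (h : ∀ a ∈ A, ∀ t ∈ I, a * t ∈ J) {a : Matrix ι κ B}
    {b : Matrix κ σ B} (ha : Ent A a) (hb : Ent I b) : Ent J (a * b) := fun i j => by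
  rw [mul_apply]
  exact sum_mem fun l _ => h _ (ha i l) _ (hb l j)

theorem Ent.mul [Fintype κ] {a : Matrix ι κ B} {b : Matrix κ σ B} (ha : Ent A a) (hb : Ent A b) :
    Ent A (a * b) := Ent.mul_of (fun _ h1 _ h2 => mul_mem h1 h2) ha hb

theorem Tri.mulIl (h : Tri A I J) [Fintype κ] {a : Matrix ι κ B} {b : Matrix κ σ B}
    (ha : Ent A a) (hb : Ent I b) : Ent I (a * b) := Ent.mul_of h.Il ha hb

theorem Tri.mulIr (h : Tri A I J) [Fintype κ] {a : Matrix ι κ B} {b : Matrix κ σ B}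
    (ha : Ent I a) (hb : Ent A b) : Ent I (a * b) :=
  Ent.mul_of (fun _ h1 _ h2 => h.Ir _ h2 _ h1) ha hb

theorem Tri.mulJl (h : Tri A I J) [Fintype κ] {a : Matrix ι κ B} {b : Matrix κ σ B}
    (ha : Ent A a) (hb : Ent J b) : Ent J (a * b) := Ent.mul_of h.Jl ha hb

theorem Tri.mulJr (h : Tri A I J) [Fintype κ] {a : Matrix ι κ B} {b : Matrix κ σ B}
    (ha : Ent J a) (hb : Ent A b) : Ent J (a * b) :=
  Ent.mul_of (fun _ h1 _ h2 => h.Jr _ h2 _ h1) ha hb

theorem Ent.sc (h : 1 ∈ A) (s : Matrix ι κ ℂ) : Ent A (sc s : Matrix ι κ B) := fun i j => by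
  show algebraMap ℂ B (s i j) ∈ A
  rw [Algebra.algebraMap_eq_smul_one]
  exact A.smul_mem _ h

theorem Ent.diagonal [DecidableEq ι] {d : ι → B} (h : ∀ i, d i ∈ A) : Ent A (diagonal d) :=
  fun i j => by
    rw [diagonal_apply]
    split_ifs
    exacts [h i, zero_mem _]

theorem Ent.one [DecidableEq ι] (h : 1 ∈ A) : Ent A (1 : Matrix ι ι B) :=
  Ent.diagonal fun _ => h

theorem Ent.qq [DecidableEq ι] [DecidableEq κ] (h : 1 ∈ A) (ev : κ → Bool) :
    Ent A (qq ι ev : Matrix _ _ B) := Ent.diagonal fun p => by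
  split_ifs
  exacts [h, zero_mem _]

theorem Ent.blockDiagonal [DecidableEq κ] {g : κ → Matrix ι ι B} (h : ∀ γ, Ent I (g γ)) :
    Ent I (blockDiagonal g) := fun p q => by
  rw [blockDiagonal_apply]
  split_ifs
  exacts [h _ _ _, zero_mem _]

theorem Ent.amp [DecidableEq κ] {T : Matrix ι ι B} (h : Ent I T) : Ent I (amp κ T) :=
  Ent.blockDiagonal fun _ => h

theorem Ent.fromBlocks {ι' κ' : Type} {a : Matrix ι κ B} {b : Matrix ι κ' B} {c : Matrix ι' κ B}
    {d : Matrix ι' κ' B} (ha : Ent I a) (hb : Ent I b) (hc : Ent I c) (hd : Ent I d) :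
    Ent I (fromBlocks a b c d) := by
  rintro (i | i) (j | j)
  exacts [ha i j, hb i j, hc i j, hd i j]

theorem sc_mul [Fintype κ] (s : Matrix ι κ ℂ) (s' : Matrix κ σ ℂ) :
    (sc (s * s') : Matrix ι σ B) = sc s * sc s' := Matrix.map_mul

theorem sc_one [DecidableEq ι] : (sc (1 : Matrix ι ι ℂ) : Matrix ι ι B) = 1 :=
  Matrix.map_one _ (map_zero _) (map_one _)

theorem sc_zero : (sc (0 : Matrix ι κ ℂ) : Matrix ι κ B) = 0 := Matrix.map_zero _ (map_zero _)

theorem sc_add (s s' : Matrix ι κ ℂ) : (sc (s + s') : Matrix ι κ B) = sc s + sc s' :=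
  Matrix.map_add _ (map_add _) _ _

theorem sc_sub (s s' : Matrix ι κ ℂ) : (sc (s - s') : Matrix ι κ B) = sc s - sc s' :=
  Matrix.map_sub _ (map_sub _) _ _

theorem sc_amp [DecidableEq κ] (s : Matrix ι ι ℂ) :
    (sc (amp κ s) : Matrix _ _ B) = amp κ (sc s) := blockDiagonal_map _ _ (map_zero _)

theorem sc_fromBlocks {ι' κ' : Type} (a : Matrix ι κ ℂ) (b : Matrix ι κ' ℂ) (c : Matrix ι' κ ℂ)
    (d : Matrix ι' κ' ℂ) :
    (sc (fromBlocks a b c d) : Matrix _ _ B) = fromBlocks (sc a) (sc b) (sc c) (sc d) :=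
  fromBlocks_map ..

/-- The operator given by an element of the unitization. -/
noncomputable def op (J : NonUnitalSubalgebra ℂ B) : Unitization ℂ J →+* B :=
  (Unitization.lift (NonUnitalSubalgebraClass.subtype J)).toRingHom

theorem op_apply (x : Unitization ℂ J) : op J x = algebraMap ℂ B x.fst + (x.snd : B) := rfl

/-- The matrix over the unitization with scalar part `s` and ideal part `t`. -/
def mk (J : NonUnitalSubalgebra ℂ B) (s : Matrix ι κ ℂ) (t : Matrix ι κ B) (h : Ent J t) :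
    Matrix ι κ (Unitization ℂ J) := of fun i j => ⟨(s i j, ⟨t i j, h i j⟩)⟩

theorem mk_scal (s : Matrix ι κ ℂ) (t : Matrix ι κ B) (h : Ent J t) :
    (mk J s t h).map (scal J) = s := rfl

theorem mk_op (s : Matrix ι κ ℂ) (t : Matrix ι κ B) (h : Ent J t) :
    (mk J s t h).map (op J) = sc s + t := rfl

theorem ext_op {a a' : Matrix ι κ (Unitization ℂ J)} (h1 : a.map (scal J) = a'.map (scal J))
    (h2 : a.map (op J) = a'.map (op J)) : a = a' := by
  ext i j
  have e1 : (a i j).fst = (a' i j).fst := congrFun (congrFun h1 i) j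
  have e2 : op J (a i j) = op J (a' i j) := congrFun (congrFun h2 i) j
  rw [op_apply, op_apply, e1] at e2
  · exact e1
  · have e1 : (a i j).fst = (a' i j).fst := congrFun (congrFun h1 i) j
    have e2 : op J (a i j) = op J (a' i j) := congrFun (congrFun h2 i) j
    rw [op_apply, op_apply, e1] at e2
    exact add_left_cancel e2

/-- Every matrix over the unitization is of the form `mk`. -/
theorem exists_mk (a : Matrix ι κ (Unitization ℂ J)) : ∃ s t h, a = mk J s t h :=
  ⟨of fun i j => (a i j).fst, of fun i j => ((a i j).snd : B), fun i j => (a i j).snd.2, rfl⟩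

theorem mk_congr {s s' : Matrix ι κ ℂ} {t t' : Matrix ι κ B} (h : Ent J t) (h' : Ent J t')
    (e1 : s = s') (e2 : t = t') : mk J s t h = mk J s' t' h' := by
  subst e1 e2
  rfl

theorem mk_incl (hJ : J ≤ I) (s : Matrix ι κ ℂ) (t : Matrix ι κ B) (h : Ent J t) :
    (mk J s t h).map (uMap (NonUnitalSubalgebra.inclusion hJ)) = mk I s t (h.mono hJ) := by
  ext i j
  · exact uMap_fst _ _
  · exact congrArg Subtype.val (uMap_snd _ _)

theorem mk_zero (s : Matrix ι κ ℂ) :
    mk J s 0 Ent.zero = s.map (algebraMap ℂ (Unitization ℂ J)) := rfl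

theorem mk_one [DecidableEq ι] : mk J (1 : Matrix ι ι ℂ) 0 Ent.zero = 1 := by
  rw [mk_zero, Matrix.map_one _ (map_zero _) (map_one _)]

theorem mk_mul_iff [Fintype κ] {s : Matrix ι κ ℂ} {s' : Matrix κ σ ℂ} {s'' : Matrix ι σ ℂ}
    {t : Matrix ι κ B} {t' : Matrix κ σ B} {t'' : Matrix ι σ B} (h : Ent J t) (h' : Ent J t')
    (h'' : Ent J t'') : mk J s t h * mk J s' t' h' = mk J s'' t'' h'' ↔
      s * s' = s'' ∧ (sc s + t) * (sc s' + t') = sc s'' + t'' := by
  constructor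
  · intro e
    have e1 := congrArg (fun a => Matrix.map a (scal J)) e
    have e2 := congrArg (fun a => Matrix.map a (op J)) e
    simp only [Matrix.map_mul] at e1 e2
    exact ⟨e1, e2⟩
  · rintro ⟨e1, e2⟩
    refine ext_op ?_ ?_ <;> rw [Matrix.map_mul]
    exacts [e1, e2]

theorem mk_isUnit [Fintype ι] [DecidableEq ι] {t t' : Matrix ι ι B} (h : Ent J t) (h' : Ent J t')
    (e1 : (1 + t) * (1 + t') = 1) (e2 : (1 + t') * (1 + t) = 1) : IsUnit (mk J 1 t h) :=
  ⟨⟨mk J 1 t h, mk J 1 t' h',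
    ((mk_mul_iff h h' Ent.zero).2 ⟨one_mul _, by rwa [sc_one, add_zero]⟩).trans mk_one,
    ((mk_mul_iff h' h Ent.zero).2 ⟨one_mul _, by rwa [sc_one, add_zero]⟩).trans mk_one⟩, rfl⟩

theorem mk_blockDiagonal [DecidableEq σ] (s : σ → Matrix ι ι ℂ) (t : σ → Matrix ι ι B)
    (h : ∀ γ, Ent J (t γ)) : mk J (blockDiagonal s) (blockDiagonal t) (Ent.blockDiagonal h) =
      blockDiagonal fun γ => mk J (s γ) (t γ) (h γ) := by
  refine ext_op ?_ ?_
  · rw [mk_scal, blockDiagonal_map _ _ (map_zero _)]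
    rfl
  · rw [mk_op, blockDiagonal_map _ _ (map_zero _), sc, blockDiagonal_map _ _ (map_zero _),
      ← blockDiagonal_add]
    rfl

theorem mk_fromBlocks {ι' : Type} (s : Matrix ι ι ℂ) (s' : Matrix ι' ι' ℂ) {t : Matrix ι ι B}
    {t' : Matrix ι' ι' B} (h : Ent J t) (h' : Ent J t') :
    mk J (fromBlocks s 0 0 s') (fromBlocks t 0 0 t') (h.fromBlocks Ent.zero Ent.zero h') =
      fromBlocks (mk J s t h) 0 0 (mk J s' t' h') := by
  ext (i | i) (j | j) <;> rfl

theorem htpy_mk [Fintype ι] [DecidableEq ι] (s : Matrix ι ι ℂ) (t : ℝ → Matrix ι ι B)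
    (h : ∀ τ, Ent J (t τ)) (hc : Continuous t)
    (hu : ∀ τ ∈ Set.Icc (0 : ℝ) 1, IsUnit (mk J s (t τ) (h τ))) :
    Htpy (mk J s (t 0) (h 0)) (mk J s (t 1) (h 1)) :=
  ⟨fun τ => mk J s (t τ) (h τ), rfl, rfl, fun τ => hu τ τ.2, fun i j =>
    ⟨continuous_const, ((hc.comp continuous_subtype_val).matrix_elem i j).subtype_mk _⟩⟩

end Ent

end Pool.Agent.MP_9c5a49_an.H98
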