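import Pool.Agent.MP_9c5a49_an.H98.Kit1

/-!
Multiplication operators and matrix-valued multiplication operators.
-/

set_option autoImplicit false

namespace Pool.Agent.MP_9c5a49_an.H98

open Matrix
open scoped ComplexOrder ENNReal

variable {X : Type}

section Entries

open Classical in
theorem ent_ext {S T : BX X} (h : ∀ x y, ent S x y = ent T x y) : S = T := by
  refine lp.ext_continuousLinearMap (by norm_num) fun y => ?_
  refine ContinuousLinearMap.ext_ring ?_
  exact lp.ext (funext fun x => h x y)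

theorem ent_add (S T : BX X) (x y : X) : ent (S + T) x y = ent S x y + ent T x y := rfl

theorem ent_sub (S T : BX X) (x y : X) : ent (S - T) x y = ent S x y - ent T x y := rfl

theorem ent_smul (c : ℂ) (T : BX X) (x y : X) : ent (c • T) x y = c * ent T x y := rfl

theorem ent_zero (x y : X) : ent (0 : BX X) x y = 0 := rfl

theorem ent_sum {σ : Type} (s : Finset σ) (T : σ → BX X) (x y : X) :
    ent (∑ k ∈ s, T k) x y = ∑ k ∈ s, ent (T k) x y := by
  classical
  induction s using Finset.induction_on with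
  | empty => rfl
  | insert a s ha ih => rw [Finset.sum_insert ha, Finset.sum_insert ha, ent_add, ih]

open Classical in
theorem norm_ent_le (T : BX X) (x y : X) : ‖ent T x y‖ ≤ ‖T‖ := by
  refine (lp.norm_apply_le_norm (by norm_num) (T (lp.single 2 y 1)) x).trans ?_
  refine (T.le_opNorm _).trans ?_
  rw [lp.norm_single (by norm_num), norm_one, mul_one]

theorem continuous_ent (x y : X) : Continuous fun T : BX X => ent T x y := by
  have : LipschitzWith 1 fun T : BX X => ent T x y := LipschitzWith.of_dist_le_mul fun S T => by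
    rw [dist_eq_norm, dist_eq_norm, ← ent_sub, NNReal.coe_one, one_mul]
    exact norm_ent_le _ _ _
  exact this.continuous

end Entries

section Mulf

/-- Bounded functions. -/
def Bd (f : X → ℂ) : Prop := ∃ C : ℝ, 0 ≤ C ∧ ∀ x, ‖f x‖ ≤ C

theorem exists_mulf {f : X → ℂ} {C : ℝ} (hC : 0 ≤ C) (h : ∀ x, ‖f x‖ ≤ C) :
    ∃ T : BX X, (∀ (ξ : L2 X) (x : X), T ξ x = f x * ξ x) ∧ ‖T‖ ≤ C :=
  ⟨lp.mapCLM 2 (fun x => ContinuousLinearMap.mul ℂ ℂ (f x)) hC
    (fun x => (ContinuousLinearMap.opNorm_mul_apply_le ℂ ℂ _).trans (h x)), fun _ _ => rfl,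
    lp.norm_mapCLM_le ..⟩

theorem mulf_apply {f : X → ℂ} (hf : Bd f) (ξ : L2 X) (x : X) : mulf f ξ x = f x * ξ x := by
  obtain ⟨C, hC, h⟩ := hf
  obtain ⟨T, hT, -⟩ := exists_mulf hC h
  have h' : ∃ T : BX X, ∀ (ξ : L2 X) (x : X), T ξ x = f x * ξ x := ⟨T, hT⟩
  rw [mulf, dif_pos h']
  exact h'.choose_spec ξ x

theorem eq_mulf {f : X → ℂ} (hf : Bd f) {T : BX X}
    (h : ∀ (ξ : L2 X) (x : X), T ξ x = f x * ξ x) : T = mulf f :=
  ContinuousLinearMap.ext fun ξ => lp.ext (funext fun x => (h ξ x).trans (mulf_apply hf ξ x).symm)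

theorem norm_mulf_le {f : X → ℂ} {C : ℝ} (hC : 0 ≤ C) (h : ∀ x, ‖f x‖ ≤ C) : ‖mulf f‖ ≤ C := by
  obtain ⟨T, hT, h'⟩ := exists_mulf hC h
  rwa [← eq_mulf ⟨C, hC, h⟩ hT]

theorem Bd.const (c : ℂ) : Bd fun _ : X => c := ⟨‖c‖, norm_nonneg _, fun _ => le_rfl⟩

theorem Bd.add {f g : X → ℂ} (hf : Bd f) (hg : Bd g) : Bd fun x => f x + g x := by
  obtain ⟨C, hC, h⟩ := hf
  obtain ⟨D, hD, h'⟩ := hg
  exact ⟨C + D, by positivity, fun x => norm_add_le_of_le (h x) (h' x)⟩

theorem Bd.mul {f g : X → ℂ} (hf : Bd f) (hg : Bd g) : Bd fun x => f x * g x := by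
  obtain ⟨C, hC, h⟩ := hf
  obtain ⟨D, hD, h'⟩ := hg
  exact ⟨C * D, by positivity, fun x => norm_mul_le_of_le (h x) (h' x)⟩

theorem Bd.sum {σ : Type} (s : Finset σ) {f : σ → X → ℂ} (hf : ∀ k, Bd (f k)) :
    Bd fun x => ∑ k ∈ s, f k x := by
  classical
  induction s using Finset.induction_on with
  | empty => exact Bd.const 0
  | insert a s ha ih => simpa only [Finset.sum_insert ha] using (hf a).add ih

theorem Bd.star {f : X → ℂ} (hf : Bd f) : Bd fun x => star (f x) := by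
  obtain ⟨C, hC, h⟩ := hf
  exact ⟨C, hC, fun x => (norm_star _).trans_le (h x)⟩

theorem norm_indicator_le (Y : Set X) (x : X) : ‖Y.indicator (1 : X → ℂ) x‖ ≤ 1 := by
  by_cases h : x ∈ Y <;> simp [h]

theorem Bd.indicator (Y : Set X) : Bd (Y.indicator (1 : X → ℂ)) :=
  ⟨1, zero_le_one, norm_indicator_le Y⟩

theorem mulf_const (c : ℂ) : mulf (fun _ : X => c) = algebraMap ℂ (BX X) c :=
  (eq_mulf (Bd.const c) fun _ _ => rfl).symm

theorem mulf_zero : mulf (fun _ : X => 0) = 0 := by rw [mulf_const, map_zero]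

theorem mulf_one : mulf (fun _ : X => 1) = 1 := by rw [mulf_const, map_one]

theorem mulf_add {f g : X → ℂ} (hf : Bd f) (hg : Bd g) :
    mulf (fun x => f x + g x) = mulf f + mulf g :=
  (eq_mulf (hf.add hg) fun ξ x => by
    show mulf f ξ x + mulf g ξ x = _
    rw [mulf_apply hf, mulf_apply hg, add_mul]).symm

theorem mulf_mul {f g : X → ℂ} (hf : Bd f) (hg : Bd g) :
    mulf (fun x => f x * g x) = mulf f * mulf g :=
  (eq_mulf (hf.mul hg) fun ξ x => by
    show mulf f (mulf g ξ) x = _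
    rw [mulf_apply hf, mulf_apply hg, mul_assoc]).symm

theorem mulf_smul (c : ℂ) {f : X → ℂ} (hf : Bd f) : mulf (fun x => c * f x) = c • mulf f := by
  rw [mulf_mul (Bd.const c) hf, mulf_const, Algebra.smul_def]

theorem mulf_sum {σ : Type} (s : Finset σ) {f : σ → X → ℂ} (hf : ∀ k, Bd (f k)) :
    mulf (fun x => ∑ k ∈ s, f k x) = ∑ k ∈ s, mulf (f k) := by
  classical
  induction s using Finset.induction_on with
  | empty => exact mulf_zero
  | insert a s ha ih =>
    simp only [Finset.sum_insert ha]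
    rw [mulf_add (hf a) (Bd.sum s hf), ih]

theorem mulf_star {f : X → ℂ} (hf : Bd f) : mulf (fun x => star (f x)) = star (mulf f) := by
  rw [ContinuousLinearMap.star_eq_adjoint, ContinuousLinearMap.eq_adjoint_iff]
  intro ξ ζ
  rw [lp.inner_eq_tsum, lp.inner_eq_tsum]
  refine tsum_congr fun x => ?_
  rw [mulf_apply hf.star, mulf_apply hf]
  simp only [RCLike.inner_apply, map_mul, RCLike.star_def, Complex.conj_conj]
  ring

theorem ent_mulf_mul {f : X → ℂ} (hf : Bd f) (T : BX X) (x y : X) :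
    ent (mulf f * T) x y = f x * ent T x y := mulf_apply hf _ _

open Classical in
theorem ent_mul_mulf {f : X → ℂ} (hf : Bd f) (T : BX X) (x y : X) :
    ent (T * mulf f) x y = ent T x y * f y := by
  have : mulf f (lp.single 2 y 1) = f y • (lp.single 2 y 1 : L2 X) := by
    refine lp.ext (funext fun z => ?_)
    show mulf f (lp.single 2 y 1) z = f y * (lp.single 2 y 1 : L2 X) z
    rw [mulf_apply hf]
    by_cases h : z = y
    · rw [h]
    · rw [lp.single_apply_ne _ _ _ h, mul_zero, mul_zero]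
  show T (mulf f (lp.single 2 y 1)) x = _
  rw [this, map_smul, mul_comm]
  rfl

open Classical in
theorem ent_mulf_ne (f : X → ℂ) {x y : X} (h : x ≠ y) : ent (mulf f) x y = 0 := by
  unfold mulf
  split_ifs with h'
  · show h'.choose _ x = 0
    rw [h'.choose_spec, lp.single_apply_ne _ _ _ h, mul_zero]
  · rfl

theorem mulf_mem [MetricSpace X] (f : X → ℂ) : mulf f ∈ finProp X :=
  ⟨0, fun x y h => by
    by_cases e : x = y
    · rw [e, dist_self]
    · exact (h (ent_mulf_ne f e)).elim⟩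

theorem finProp_le_Roe [MetricSpace X] : finProp X ≤ Roe X :=
  NonUnitalSubalgebra.le_topologicalClosure _

theorem mulf_mem_Roe [MetricSpace X] (f : X → ℂ) : mulf f ∈ Roe X := finProp_le_Roe (mulf_mem f)

end Mulf

section Dg

variable {ι κ : Type} [Fintype κ]

/-- Bounded matrix-valued functions. -/
def BdM (M : X → Matrix κ κ ℂ) : Prop := ∃ C : ℝ, 0 ≤ C ∧ ∀ x, nm (M x) ≤ C

theorem BdM.entry {M : X → Matrix κ κ ℂ} (h : BdM M) (β γ : κ) : Bd fun x => M x β γ := by
  obtain ⟨C, hC, h⟩ := h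
  exact ⟨C, hC, fun x => (nm_entry _ _ _).trans (h x)⟩

theorem BdM.const (m : Matrix κ κ ℂ) : BdM fun _ : X => m := ⟨nm m, nm_nonneg _, fun _ => le_rfl⟩

theorem BdM.add {M N : X → Matrix κ κ ℂ} (hM : BdM M) (hN : BdM N) : BdM fun x => M x + N x := by
  obtain ⟨C, hC, h⟩ := hM
  obtain ⟨D, hD, h'⟩ := hN
  exact ⟨C + D, by positivity, fun x => (nm_add_le _ _).trans (add_le_add (h x) (h' x))⟩

theorem BdM.sub {M N : X → Matrix κ κ ℂ} (hM : BdM M) (hN : BdM N) : BdM fun x => M x - N x := by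
  obtain ⟨C, hC, h⟩ := hM
  obtain ⟨D, hD, h'⟩ := hN
  exact ⟨C + D, by positivity, fun x => (nm_sub_le _ _).trans (add_le_add (h x) (h' x))⟩

theorem BdM.mul {M N : X → Matrix κ κ ℂ} (hM : BdM M) (hN : BdM N) : BdM fun x => M x * N x := by
  obtain ⟨C, hC, h⟩ := hM
  obtain ⟨D, hD, h'⟩ := hN
  exact ⟨C * D, by positivity, fun x => nm_mul_le' (h x) (h' x)⟩

theorem BdM.star {M : X → Matrix κ κ ℂ} (hM : BdM M) : BdM fun x => (M x)ᴴ := by
  obtain ⟨C, hC, h⟩ := hM
  exact ⟨C, hC, fun x => (nm_star _).trans_le (h x)⟩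

variable [DecidableEq ι]

theorem dg_add {M N : X → Matrix κ κ ℂ} (hM : BdM M) (hN : BdM N) :
    dg ι (fun x => M x + N x) = dg ι M + dg ι N := by
  ext1 p q
  simp only [dg, of_apply, Matrix.add_apply]
  split_ifs
  · exact mulf_add (hM.entry _ _) (hN.entry _ _)
  · rw [add_zero]

theorem dg_sub {M N : X → Matrix κ κ ℂ} (hM : BdM M) (hN : BdM N) :
    dg ι (fun x => M x - N x) = dg ι M - dg ι N := by
  rw [eq_sub_iff_add_eq, ← dg_add (hM.sub hN) hN]
  simp only [sub_add_cancel]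

theorem dg_smul (c : ℂ) {M : X → Matrix κ κ ℂ} (hM : BdM M) :
    dg ι (fun x => c • M x) = c • dg ι M := by
  ext1 p q
  simp only [dg, of_apply, Matrix.smul_apply]
  split_ifs
  · exact mulf_smul c (hM.entry _ _)
  · rw [smul_zero]

theorem dg_star {M : X → Matrix κ κ ℂ} (hM : BdM M) : dg ι (fun x => (M x)ᴴ) = (dg ι M)ᴴ := by
  ext1 p q
  simp only [dg, of_apply, conjTranspose_apply]
  by_cases h : p.1 = q.1
  · rw [if_pos h, if_pos h.symm]
    exact mulf_star (hM.entry _ _)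
  · rw [if_neg h, if_neg (Ne.symm h), star_zero]

theorem dg_mul [Fintype ι] {M N : X → Matrix κ κ ℂ} (hM : BdM M) (hN : BdM N) :
    dg ι (fun x => M x * N x) = dg ι M * dg ι N := by
  ext1 ⟨i, β⟩ ⟨j, γ⟩
  simp only [dg, of_apply, mul_apply, Fintype.sum_prod_type, ite_mul, zero_mul]
  rw [Finset.sum_comm]
  simp only [Finset.sum_ite_eq, Finset.mem_univ, if_true]
  split_ifs
  · rw [mulf_sum _ fun k => (hM.entry β k).mul (hN.entry k γ)]
    exact Finset.sum_congr rfl fun k _ => mulf_mul (hM.entry _ _) (hN.entry _ _)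
  · simp

omit [Fintype κ] in
theorem dg_diagonal [DecidableEq κ] (d : X → κ → ℂ) :
    dg ι (fun x => diagonal (d x)) = diagonal fun p => mulf fun x => d x p.2 := by
  ext1 ⟨i, β⟩ ⟨j, γ⟩
  simp only [dg, of_apply, diagonal_apply, Prod.mk.injEq]
  by_cases h : i = j <;> by_cases h' : β = γ <;> simp [h, h', mulf_zero]

omit [Fintype κ] in
theorem dg_one [DecidableEq κ] : dg ι (fun _ : X => (1 : Matrix κ κ ℂ)) = 1 := by
  have := dg_diagonal (ι := ι) fun (_ : X) (_ : κ) => (1 : ℂ)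
  simpa only [mulf_one, diagonal_one] using this

omit [Fintype κ] in
theorem dg_qe [DecidableEq κ] (ev : κ → Bool) : dg ι (fun _ : X => qe ev) = qq ι ev := by
  rw [qe, dg_diagonal, qq]
  congr 1
  funext p
  cases ev p.2 <;> simp [mulf_zero, mulf_one]

omit [Fintype κ] in
theorem dg_ent [MetricSpace X] (M : X → Matrix κ κ ℂ) : Ent (finProp X) (dg ι M) := fun p q => by
  simp only [dg, of_apply]
  split_ifs
  exacts [mulf_mem _, zero_mem _]

theorem BdM.of_lp (M : lp (fun _ : X => CStarMatrix κ κ ℂ) ∞) :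
    BdM (κ := κ) fun x => M x :=
  ⟨‖M‖, norm_nonneg _, fun x => lp.norm_apply_le_norm (by simp) M x⟩

variable [Fintype ι]

/-- Matrix-valued multiplication operators as a star homomorphism. -/
noncomputable def dgHom : lp (fun _ : X => CStarMatrix κ κ ℂ) ∞ →⋆ₙₐ[ℂ]
    CStarMatrix (ι × κ) (ι × κ) (BX X) where
  toFun M := CStarMatrix.ofMatrix (dg ι fun x => M x)
  map_smul' c M := dg_smul c (BdM.of_lp M)
  map_zero' := by
    have := dg_smul (ι := ι) 0 (BdM.const (X := X) (0 : Matrix κ κ ℂ))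
    rw [zero_smul, zero_smul] at this
    exact this
  map_add' M N := dg_add (BdM.of_lp M) (BdM.of_lp N)
  map_mul' M N := dg_mul (BdM.of_lp M) (BdM.of_lp N)
  map_star' M := dg_star (BdM.of_lp M)

theorem nm_dg {M : X → Matrix κ κ ℂ} {C : ℝ} (hC : 0 ≤ C) (h : ∀ x, nm (M x) ≤ C) :
    nm (dg ι M) ≤ C := by
  classical
  let m : lp (fun _ : X => CStarMatrix κ κ ℂ) ∞ := ⟨fun x => CStarMatrix.ofMatrix (M x),
    memℓp_infty ⟨C, by rintro _ ⟨x, rfl⟩; exact h x⟩⟩
  exact (NonUnitalStarAlgHom.norm_apply_le (dgHom (X := X) (ι := ι) (κ := κ)) m).trans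
    (lp.norm_le_of_forall_le hC h)

variable [DecidableEq κ]

theorem ent_dg_mul_amp {M : X → Matrix κ κ ℂ} (hM : BdM M) (T : Matrix ι ι (BX X))
    (p q : ι × κ) (x y : X) :
    ent ((dg ι M * amp κ T) p q) x y = M x p.2 q.2 * ent (T p.1 q.1) x y := by
  have : (dg ι M * amp κ T) p q = mulf (fun x => M x p.2 q.2) * T p.1 q.1 := by
    rw [mul_apply, Finset.sum_eq_single (p.1, q.2)]
    · simp [dg, amp, blockDiagonal_apply]
    · rintro ⟨i, β⟩ - h
      by_cases h1 : p.1 = i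
      · have : β ≠ q.2 := fun e => h (by rw [h1, e])
        simp [amp, blockDiagonal_apply, this]
      · simp [dg, h1]
    · simp
  rw [this, ent_mulf_mul (hM.entry _ _)]

theorem ent_amp_mul_dg {M : X → Matrix κ κ ℂ} (hM : BdM M) (T : Matrix ι ι (BX X))
    (p q : ι × κ) (x y : X) :
    ent ((amp κ T * dg ι M) p q) x y = ent (T p.1 q.1) x y * M y p.2 q.2 := by
  have : (amp κ T * dg ι M) p q = T p.1 q.1 * mulf (fun x => M x p.2 q.2) := by
    rw [mul_apply, Finset.sum_eq_single (q.1, p.2)]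
    · simp [dg, amp, blockDiagonal_apply]
    · rintro ⟨i, β⟩ - h
      by_cases h1 : i = q.1
      · have : p.2 ≠ β := fun e => h (by rw [h1, e])
        simp [amp, blockDiagonal_apply, this]
      · simp [dg, h1]
    · simp
  rw [this, ent_mul_mulf (hM.entry _ _)]

theorem dg_comm_sc {M : X → Matrix κ κ ℂ} (hM : BdM M) (s : Matrix ι ι ℂ) :
    dg ι M * amp κ (sc s) = amp κ (sc s) * dg ι M := by
  ext1 p q
  refine ent_ext fun x y => ?_
  rw [ent_dg_mul_amp hM, ent_amp_mul_dg hM]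
  by_cases h : x = y
  · rw [h, mul_comm]
  · have : ent ((sc s : Matrix ι ι (BX X)) p.1 q.1) x y = 0 := by
      show ent (algebraMap ℂ (BX X) _) x y = 0
      rw [← mulf_const, ent_mulf_ne _ h]
    rw [this, mul_zero, zero_mul]

end Dg

end Pool.Agent.MP_9c5a49_an.H98
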