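import Pool.Agent.MP_9c5a49_an.H98.Spec

/-!
Graded tensor products of the one-dimensional Bott data.
-/

set_option autoImplicit false

namespace Pool.Agent.MP_9c5a49_an.H98

open Matrix
open scoped ComplexOrder Kronecker

namespace BlockX

variable {ι κ : Type} [Fintype ι] [DecidableEq ι] [Fintype κ] [DecidableEq κ]

/-- The grading operator. -/
def gr (ev : ι → Bool) : Matrix ι ι ℂ := diagonal fun β => if ev β then 1 else -1

/-- The graded sum. -/
def gs (ev : ι → Bool) (x : Matrix ι ι ℂ) (y : Matrix κ κ ℂ) : Matrix (ι × κ) (ι × κ) ℂ :=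
  x ⊗ₖ 1 + gr ev ⊗ₖ y

theorem gr_gr (ev : ι → Bool) : gr ev * gr ev = 1 := by
  rw [gr, diagonal_mul_diagonal, ← diagonal_one]
  congr 1
  funext β
  split_ifs <;> simp

theorem gr_anti {ev : ι → Bool} {x : Matrix ι ι ℂ} (h : ∀ β β', ev β = ev β' → x β β' = 0) :
    x * gr ev + gr ev * x = 0 := by
  ext β β'
  rw [gr, Matrix.add_apply, mul_diagonal, diagonal_mul]
  by_cases e : ev β = ev β'
  · simp [h β β' e]
  · cases h1 : ev β <;> cases h2 : ev β' <;> simp_all

theorem gs_sq {ev : ι → Bool} {x : Matrix ι ι ℂ} (h : ∀ β β', ev β = ev β' → x β β' = 0)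
    (y : Matrix κ κ ℂ) : gs ev x y * gs ev x y = (x * x) ⊗ₖ 1 + 1 ⊗ₖ (y * y) := by
  have e : (x * gr ev) ⊗ₖ y + (gr ev * x) ⊗ₖ y = 0 := by
    rw [← add_kronecker, gr_anti h, zero_kronecker]
  simp only [gs, add_mul, mul_add, ← mul_kronecker_mul, mul_one, one_mul, gr_gr]
  rw [eq_neg_of_add_eq_zero_left e]
  abel

omit [Fintype ι] [Fintype κ] in
theorem gs_sub (ev : ι → Bool) (x x' : Matrix ι ι ℂ) (y y' : Matrix κ κ ℂ) :
    gs ev x y - gs ev x' y' = gs ev (x - x') (y - y') := by
  ext ⟨a, b⟩ ⟨a', b'⟩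
  simp only [gs, Matrix.sub_apply, Matrix.add_apply, kroneckerMap_apply]
  ring

theorem psd {x : Matrix ι ι ℂ} {y : Matrix κ κ ℂ} (hx : x.PosSemidef) (hy : y.PosSemidef) :
    (x ⊗ₖ (1 : Matrix κ κ ℂ) + (1 : Matrix ι ι ℂ) ⊗ₖ y).PosSemidef :=
  (hx.kronecker PosSemidef.one).add (PosSemidef.one.kronecker hy)

end BlockX

open BlockX

theorem rBlock : ROne → RBlock := by
  intro h D M η hη
  induction D with
  | zero =>
    exact ⟨Unit, inferInstance, inferInstance, fun _ => true, fun _ => 0, fun _ => 0, by simp [Sd],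
      fun _ => ⟨isHermitian_zero, fun _ _ _ => rfl⟩, fun _ _ => by simpa using PosSemidef.zero,
      fun _ _ => by simpa using PosSemidef.zero⟩
  | succ D ih =>
    obtain ⟨ι, _, _, ev, v, b, a1, a2, a3, a4⟩ := h M η hη
    obtain ⟨κ, _, _, ev', v', b', c1, c2, c3, c4⟩ := ih
    refine ⟨ι × κ, inferInstance, inferInstance, fun β => ev β.1 == ev' β.2,
      fun β => Fin.cons (v β.1) (v' β.2), fun p => gs ev (b (p 0)) (b' (Fin.tail p)), ?_,
      fun p => ⟨?_, fun β β' e => ?_⟩, fun p q => ?_, fun p hp => ?_⟩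
    · rw [Sd] at a1 c1 ⊢
      have := Finset.sum_mul_sum Finset.univ Finset.univ (fun x => if ev x then (1 : ℤ) else -1)
        (fun y => if ev' y then (1 : ℤ) else -1)
      rw [a1, c1, mul_one] at this
      rw [Fintype.sum_prod_type]
      refine Eq.trans ?_ this.symm
      refine Finset.sum_congr rfl fun x _ => Finset.sum_congr rfl fun y _ => ?_
      cases ev x <;> cases ev' y <;> simp
    · beta_reduce
      rw [IsHermitian, gs, conjTranspose_add, conjTranspose_kronecker, conjTranspose_kronecker,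
        (a2 _).1.eq, (c2 _).1.eq, conjTranspose_one, gr, diagonal_conjTranspose]
      congr 3
      funext β
      rw [Pi.star_apply]
      split_ifs <;> simp
    · obtain ⟨x, y⟩ := β
      obtain ⟨x', y'⟩ := β'
      simp only [gs, gr, Matrix.add_apply, kroneckerMap_apply, Matrix.one_apply, diagonal_apply]
      by_cases h1 : y = y'
      · subst h1
        rw [(a2 _).2 x x' (by revert e; simp only; cases ev x <;> cases ev x' <;> cases ev' y <;> simp),
          (c2 _).2 y y rfl]
        simp
      · by_cases h2 : x = x'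
        · subst h2
          rw [(c2 _).2 y y' (by
            revert e; simp only; cases ev x <;> cases ev' y <;> cases ev' y' <;> simp)]
          simp [h1]
        · simp [h1, h2]
    · have := psd (a3 (p 0) (q 0)) (c3 (Fin.tail p) (Fin.tail q))
      rw [gs_sub, gs_sq fun β β' e => by rw [Matrix.sub_apply, (a2 _).2 β β' e, (a2 _).2 β β' e, sub_self]]
      refine (congrArg PosSemidef ?_).mp this
      ext ⟨x, y⟩ ⟨x', y'⟩
      simp only [Fin.sum_univ_succ, Fin.tail, Matrix.sub_apply, Matrix.add_apply, Matrix.smul_apply, kroneckerMap_apply,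
        Matrix.one_apply, Prod.mk.injEq, Complex.ofReal_add, smul_eq_mul]
      by_cases h1 : x = x' <;> by_cases h2 : y = y' <;> simp only [h1, h2, if_true, if_false,
        and_self, and_false, false_and] <;> ring
    · have := psd (a4 (p 0) (hp 0)) (c4 (Fin.tail p) fun c => hp c.succ)
      rw [gs_sq (a2 _).2]
      refine (congrArg PosSemidef ?_).mp this
      ext ⟨x, y⟩ ⟨x', y'⟩
      simp only [Fin.sum_univ_succ, Fin.tail, Matrix.sub_apply, Matrix.add_apply, Matrix.smul_apply, kroneckerMap_apply,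
        Matrix.one_apply, diagonal_apply, Prod.mk.injEq, Complex.ofReal_add, smul_eq_mul, Fin.cons_zero,
        Fin.cons_succ, Nat.cast_succ, add_mul, one_mul]
      by_cases h1 : x = x' <;> by_cases h2 : y = y' <;> simp only [h1, h2, if_true, if_false,
        and_self, and_false, false_and] <;> ring

end Pool.Agent.MP_9c5a49_an.H98
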