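import Pool.Agent.MP_9c5a49_an.H98.Spec

/-!
The Bott data: a Lipschitz family of unitary matrices.
-/

set_option autoImplicit false

namespace Pool.Agent.MP_9c5a49_an.H98

open Matrix
open scoped ComplexOrder

namespace BottX

variable {κ : Type} [Fintype κ] [DecidableEq κ]

/-- A matrix seen as an element of the C⋆-algebra of matrices. -/
def cs (a : Matrix κ κ ℂ) : CStarMatrix κ κ ℂ := CStarMatrix.ofMatrix a

theorem exists_sq {a : Matrix κ κ ℂ} (h : a.PosSemidef) : ∃ c : Matrix κ κ ℂ, a = cᴴ * c := by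
  open scoped MatrixOrder in
  exact CStarAlgebra.nonneg_iff_eq_star_mul_self.1 h.nonneg

theorem nonneg {a : Matrix κ κ ℂ} (h : a.PosSemidef) : 0 ≤ cs a := by
  obtain ⟨c, rfl⟩ := exists_sq h
  exact star_mul_self_nonneg (cs c)

theorem norm_le {E : Type} [CStarAlgebra E] [PartialOrder E] [StarOrderedRing E] {x : E}
    (hx : IsSelfAdjoint x) {ε : ℝ} (hε : 0 ≤ ε) (h : x * x ≤ algebraMap ℝ E (ε ^ 2)) :
    ‖x‖ ≤ ε := by
  have h0 : 0 ≤ x * x := by simpa only [hx.star_eq] using star_mul_self_nonneg x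
  have h1 := (CStarAlgebra.norm_le_iff_le_algebraMap _ (sq_nonneg ε) h0).2 h
  have h2 := CStarRing.norm_star_mul_self (x := x)
  rw [hx.star_eq] at h2
  rw [h2, ← sq] at h1
  exact (pow_le_pow_iff_left₀ (norm_nonneg x) hε two_ne_zero).1 h1

theorem norm_rsmul (t : ℝ) (x : CStarMatrix κ κ ℂ) : ‖t • x‖ = |t| * ‖x‖ := by
  have e : t • x = (t : ℂ) • x := by
    ext i j
    exact Complex.real_smul
  rw [e, norm_smul, Complex.norm_real, Real.norm_eq_abs]

theorem lip {x : Matrix κ κ ℂ} (hx : x.IsHermitian) {t ε : ℝ} (hε : 0 ≤ ε) (ht : t ≤ ε ^ 2)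
    (h : ((t : ℂ) • (1 : Matrix κ κ ℂ) - x * x).PosSemidef) : ‖cs x‖ ≤ ε := by
  refine norm_le (x := cs x) hx hε (sub_nonneg.1 ?_)
  have h1 : (((ε ^ 2 - t : ℝ) : ℂ) • (1 : Matrix κ κ ℂ)).PosSemidef :=
    PosSemidef.one.smul (Complex.zero_le_real.2 (sub_nonneg.2 ht))
  have h2 := nonneg (h1.add h)
  refine h2.trans_eq ?_
  rw [Algebra.algebraMap_eq_smul_one]
  show ((ε ^ 2 - t : ℝ) : ℂ) • (1 : Matrix κ κ ℂ) + ((t : ℂ) • (1 : Matrix κ κ ℂ) - x * x) =
    (ε ^ 2 : ℝ) • (1 : Matrix κ κ ℂ) - x * x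
  rw [← add_sub_assoc, ← add_smul, ← Complex.ofReal_add, sub_add_cancel, Complex.coe_smul]

theorem proj (P : κ → Prop) [DecidablePred P] :
    IsStarProjection (cs (diagonal fun β => if P β then (1 : ℂ) else 0)) := by
  constructor
  · refine (diagonal_mul_diagonal _ _).trans ?_
    refine congrArg diagonal ?_
    funext β
    split_ifs <;> simp
  · show (diagonal _)ᴴ = diagonal _
    rw [diagonal_conjTranspose]
    congr 1
    funext β
    simp only [Pi.star_apply]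
    split_ifs <;> simp

theorem odd {ev : κ → Bool} {b : Matrix κ κ ℂ} (h : ∀ β β', ev β = ev β' → b β β' = 0) :
    qe ev * b = b * (1 - qe ev) := by
  ext β β'
  rw [Matrix.mul_sub, Matrix.mul_one, qe, diagonal_mul, Matrix.sub_apply, mul_diagonal]
  have := h β β'
  cases h1 : ev β <;> cases h2 : ev β' <;> simp_all

theorem gap {D : ℕ} {v : κ → Fin D → ℝ} {p : Fin D → ℝ} {b : Matrix κ κ ℂ} {t : ℝ} (ht : t ≤ 1)
    (h : (b * b + (t : ℂ) • (1 : Matrix κ κ ℂ) -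
      diagonal fun β => ((∑ c, (v β c - p c) ^ 2 : ℝ) : ℂ)).PosSemidef) (r : ℝ) :
    r ^ 2 • (1 - cs (chi v r p)) ≤ 1 + cs b * cs b := by
  have h1 : (diagonal fun β => (((∑ c, (v β c - p c) ^ 2) + (1 - t) -
      r ^ 2 * (1 - if ∑ c, (v β c - p c) ^ 2 ≤ r ^ 2 then 1 else 0) : ℝ) : ℂ)).PosSemidef := by
    refine PosSemidef.diagonal fun β => Complex.zero_le_real.2 ?_
    have h0 : 0 ≤ ∑ c, (v β c - p c) ^ 2 := Finset.sum_nonneg fun c _ => sq_nonneg _
    split_ifs with h2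
    · linarith
    · linarith
  refine sub_nonneg.1 ((nonneg (h.add h1)).trans_eq ?_)
  show _ = (1 + b * b - r ^ 2 • (1 - chi v r p) : Matrix κ κ ℂ)
  unfold cs
  ext β β'
  by_cases e : β = β'
  · subst e
    simp only [CStarMatrix.ofMatrix_apply, Matrix.add_apply, Matrix.sub_apply, Matrix.smul_apply,
      one_apply_eq,
      diagonal_apply_eq, chi, smul_eq_mul, Complex.real_smul]
    split_ifs <;> push_cast <;> ring
  · simp only [CStarMatrix.ofMatrix_apply, Matrix.add_apply, Matrix.sub_apply, Matrix.smul_apply,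
      one_apply_ne e,
      diagonal_apply_ne _ e, chi, smul_zero, sub_zero, add_zero, zero_add]

end BottX

open BottX in
theorem rBott : RPol → RBlock → RBott := by
  intro hP hB D M
  obtain ⟨κ, i1, i2, ev, v, b, hs, h1, h2, h3⟩ := hB D M (1 / (D + 1)) (by positivity)
  obtain ⟨U, u0, u1, u2⟩ := hP (CStarMatrix κ κ ℂ) (cs (qe ev)) (proj _)
  have sa : ∀ (τ : ℝ) p, IsSelfAdjoint (τ • cs (b p)) := fun τ p =>
    (IsSelfAdjoint.all τ).smul (show IsSelfAdjoint (cs (b p)) from (h1 p).1)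
  have od : ∀ (τ : ℝ) p, cs (qe ev) * (τ • cs (b p)) = (τ • cs (b p)) * (1 - cs (qe ev)) := by
    intro τ p
    rw [mul_smul_comm, smul_mul_assoc]
    exact congrArg _ (odd (h1 p).2)
  have lp : ∀ (p q : Fin D → ℝ) (ε : ℝ), 0 ≤ ε → ∑ c, (p c - q c) ^ 2 ≤ ε ^ 2 →
      ‖cs (b p) - cs (b q)‖ ≤ ε := fun p q ε e0 e1 =>
    lip ((h1 p).1.sub (h1 q).1) e0 e1 (h2 p q)
  refine ⟨κ, i1, i2, ev, v, fun τ p => CStarMatrix.ofMatrix.symm (U (τ • cs (b p))),
    ‖cs (b 0)‖ + (D + 1) * |M|, hs, fun p hp => ⟨fun τ => ?_, ?_, fun τ σ => ?_, fun q ε e0 e1 => ?_,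
      fun r hr => ?_⟩⟩
  · have := (u1 _ (sa τ p) (od τ p)).1
    exact ⟨Unitary.mul_star_self_of_mem this, Unitary.star_mul_self_of_mem this⟩
  · show U ((0 : ℝ) • cs (b p)) = 1
    rw [zero_smul, u0]
  · refine (u2 _ _ (sa τ p) (od τ p) (sa σ p) (od σ p)).trans ?_
    rw [← sub_smul, norm_rsmul, mul_comm]
    refine mul_le_mul_of_nonneg_right ?_ (abs_nonneg _)
    have a1 : ∑ c, (p c - (0 : Fin D → ℝ) c) ^ 2 ≤ ((D + 1) * |M|) ^ 2 := by
      have a2 : ∑ c, (p c - (0 : Fin D → ℝ) c) ^ 2 ≤ ∑ _c : Fin D, |M| ^ 2 :=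
        Finset.sum_le_sum fun c _ => by
          rw [Pi.zero_apply, sub_zero, ← sq_abs]
          exact pow_le_pow_left₀ (abs_nonneg _) ((hp c).trans (le_abs_self M)) 2
      rw [Finset.sum_const, Finset.card_univ, Fintype.card_fin, nsmul_eq_mul] at a2
      have a3 : (0 : ℝ) ≤ D := Nat.cast_nonneg D
      nlinarith [sq_nonneg |M|, mul_nonneg (mul_nonneg a3 a3) (sq_nonneg |M|),
        mul_nonneg a3 (sq_nonneg |M|)]
    have a4 := lp p 0 _ (by positivity) a1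
    have a5 := norm_le_norm_add_norm_sub' (cs (b p)) (cs (b 0))
    linarith
  · refine (u2 _ _ (sa 1 p) (od 1 p) (sa 1 q) (od 1 q)).trans ?_
    rw [one_smul, one_smul]
    exact lp p q ε e0 e1
  · refine (u1 _ (sa 1 p) (od 1 p)).2 (cs (chi v r p)) r (proj _) hr ?_
    rw [one_smul]
    refine gap ?_ (h3 p hp) r
    rw [mul_one_div, div_le_one (by positivity)]
    linarith

end Pool.Agent.MP_9c5a49_an.H98
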