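import Pool.Agent.MP_9c5a49_an.H98.Spec

/-! Colourings and the folding of a local embedding into a bounded set. -/

set_option autoImplicit false

namespace Pool.Agent.MP_9c5a49_an.H98

open Filter

theorem rColor : RColor := by
  intro X _ h R
  obtain ⟨N, hN⟩ := h R
  have step : ∀ (x : X) (g : (y : X) → WellOrderingRel y x → Fin (N + 1)), ∃ a : Fin (N + 1),
      ∀ y (hy : WellOrderingRel y x), dist y x ≤ R → g y hy ≠ a := by
    intro x g
    by_contra hc
    push Not at hc
    choose y hy hd hg using hc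
    have hinj : Function.Injective y := by
      intro a b hab
      rw [← hg a, ← hg b]
      congr 1
    have h1 : (Set.range y).encard ≤ N :=
      (Set.encard_le_encard (by rintro _ ⟨a, rfl⟩; exact hd a)).trans (hN x)
    rw [← Set.image_univ, hinj.encard_image, Set.encard_univ, ENat.card_eq_coe_fintype_card,
      Fintype.card_fin, Nat.cast_le] at h1
    omega
  choose F hF using step
  have wf : WellFounded (WellOrderingRel : X → X → Prop) := IsWellFounded.wf
  have hc : ∀ x, wf.fix F x = F x fun y _ => wf.fix F y := wf.fix_eq F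
  have key : ∀ x y, WellOrderingRel y x → dist y x ≤ R → wf.fix F y ≠ wf.fix F x := by
    intro x y h1 h2
    rw [hc x]
    exact hF x (fun y _ => wf.fix F y) y h1 h2
  refine ⟨N + 1, wf.fix F, fun x y h1 h2 => ?_⟩
  rcases trichotomous_of (WellOrderingRel : X → X → Prop) x y with h3 | h3 | h3
  · exact absurd h1 (key y x h3 h2)
  · exact h3
  · exact absurd h1.symm (key x y h3 (by rwa [dist_comm]))

namespace FoldX

theorem chord (M a b : ℝ) :
    (M * Real.cos a - M * Real.cos b) ^ 2 + (M * Real.sin a - M * Real.sin b) ^ 2 =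
      2 * M ^ 2 * (1 - Real.cos (a - b)) := by
  rw [Real.cos_sub]
  linear_combination M ^ 2 * Real.cos_sq_add_sin_sq a + M ^ 2 * Real.cos_sq_add_sin_sq b

theorem up (M a b : ℝ) (hM : 0 < M) :
    (M * Real.cos (a / M) - M * Real.cos (b / M)) ^ 2 +
      (M * Real.sin (a / M) - M * Real.sin (b / M)) ^ 2 ≤ (a - b) ^ 2 := by
  rw [chord, ← sub_div]
  have h := Real.one_sub_sq_div_two_le_cos (x := (a - b) / M)
  have e : (a - b) ^ 2 = 2 * M ^ 2 * (((a - b) / M) ^ 2 / 2) := by field_simp
  rw [e]
  exact mul_le_mul_of_nonneg_left (by linarith) (by positivity)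

theorem low (M a b : ℝ) (hM : 0 < M) (h : |a - b| ≤ M) :
    (a - b) ^ 2 / 4 ≤ (M * Real.cos (a / M) - M * Real.cos (b / M)) ^ 2 +
      (M * Real.sin (a / M) - M * Real.sin (b / M)) ^ 2 := by
  rw [chord, ← sub_div]
  have h1 : |(a - b) / M| ≤ Real.pi := by
    rw [abs_div, abs_of_pos hM]
    exact ((div_le_one hM).mpr h).trans (by linarith [Real.pi_gt_three])
  have h2 := Real.cos_le_one_sub_mul_cos_sq h1
  have e : (a - b) ^ 2 / 4 = 2 * M ^ 2 * (1 / 8 * ((a - b) / M) ^ 2) := by field_simp; ring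
  rw [e]
  refine mul_le_mul_of_nonneg_left ?_ (by positivity)
  have h3 : 1 / 8 ≤ 2 / Real.pi ^ 2 := by
    rw [div_le_div_iff₀ (by norm_num) (by positivity)]
    nlinarith [Real.pi_le_four, Real.pi_pos]
  have := mul_le_mul_of_nonneg_right h3 (sq_nonneg ((a - b) / M))
  linarith

end FoldX

theorem rFold : RFold := by
  rintro X _ ⟨rm, rp, -, hp, ht, hf⟩ R ε r hε
  set A : ℝ := |rp (max R 0)| + 1 with hA
  have hA0 : 0 < A := by positivity
  set l : ℝ := ε / A with hl
  have hl0 : 0 < l := by positivity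
  obtain ⟨S0, hS0⟩ := eventually_atTop.mp (ht.eventually_gt_atTop (4 * |r| / l))
  set S : ℝ := max (max R 1) S0 with hS
  have hRS : R ≤ S := (le_max_left _ _).trans (le_max_left _ _)
  have h1S : 1 ≤ S := (le_max_right _ _).trans (le_max_left _ _)
  obtain ⟨D, f, hf⟩ := hf (3 * S)
  set M : ℝ := l * |rp (3 * S)| + 1 with hM
  have hM0 : 0 < M := by positivity
  have hn : ∀ x y, ∑ c, (l * f x c - l * f y c) ^ 2 = (l * ‖f x - f y‖) ^ 2 := by
    intro x y
    rw [mul_pow, EuclideanSpace.norm_sq_eq, Finset.mul_sum]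
    refine Finset.sum_congr rfl fun c _ => ?_
    rw [Real.norm_eq_abs, sq_abs, PiLp.sub_apply]
    ring
  refine ⟨S, D + D, M, fun x => Fin.append (fun c => M * Real.cos (l * f x c / M))
    fun c => M * Real.sin (l * f x c / M), hRS, by linarith, fun x c => ?_, fun x y h => ?_,
    fun x y h1 h2 => ?_⟩
  · beta_reduce
    refine Fin.addCases (fun c => ?_) (fun c => ?_) c
    · rw [Fin.append_left, abs_mul, abs_of_pos hM0]
      exact mul_le_of_le_one_right hM0.le (Real.abs_cos_le_one _)
    · rw [Fin.append_right, abs_mul, abs_of_pos hM0]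
      exact mul_le_of_le_one_right hM0.le (Real.abs_sin_le_one _)
  · simp only [Fin.sum_univ_add, Fin.append_left, Fin.append_right]
    rw [← Finset.sum_add_distrib]
    refine (Finset.sum_le_sum fun c _ => FoldX.up M _ _ hM0).trans ?_
    rw [hn]
    refine pow_le_pow_left₀ (by positivity) ?_ 2
    have h2 := (hf x y (by linarith)).2
    have h3 : rp (dist x y) ≤ rp (max R 0) :=
      hp dist_nonneg (le_max_right R 0) (h.trans (le_max_left _ _))
    have h4 : ‖f x - f y‖ ≤ A := by linarith [le_abs_self (rp (max R 0))]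
    calc l * ‖f x - f y‖ ≤ l * A := mul_le_mul_of_nonneg_left h4 hl0.le
      _ = ε := by rw [hl]; field_simp
  · simp only [Fin.sum_univ_add, Fin.append_left, Fin.append_right]
    rw [← Finset.sum_add_distrib]
    obtain ⟨h3, h4⟩ := hf x y h2
    have h5 : rp (dist x y) ≤ rp (3 * S) :=
      hp dist_nonneg (show (0 : ℝ) ≤ 3 * S by linarith) h2
    refine lt_of_lt_of_le ?_ (Finset.sum_le_sum fun c _ => FoldX.low M _ _ hM0 ?_)
    · rw [← Finset.sum_div, hn]
      have h6 := (hS0 _ ((le_max_right _ _).trans h1)).trans_le h3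
      rw [div_lt_iff₀ hl0, mul_comm _ l] at h6
      have h7 := pow_lt_pow_left₀ h6 (by positivity) two_ne_zero
      rw [mul_pow, sq_abs] at h7
      linarith
    · have h6 : |f x c - f y c| ≤ ‖f x - f y‖ := by
        simpa using PiLp.norm_apply_le (f x - f y) c
      rw [← mul_sub, abs_mul, abs_of_pos hl0]
      have h7 : |f x c - f y c| ≤ |rp (3 * S)| := by linarith [le_abs_self (rp (3 * S))]
      linarith [mul_le_mul_of_nonneg_left h7 hl0.le]

end Pool.Agent.MP_9c5a49_an.H98
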