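import Pool.Agent.MP_9c5a49_an.H98.Spec

/-!
The basic properties of the classes of idempotent matrices in `K₀`.
-/

set_option autoImplicit false

namespace Pool.Agent.MP_9c5a49_an.H98

open Matrix

namespace K0X

variable {R ι κ : Type} [Ring R] [Fintype ι] [DecidableEq ι] [Fintype κ] [DecidableEq κ]

/-- The class of an idempotent. -/
def cl (e : Idem R) : K0u R := QuotientAddGroup.mk (.of e)

theorem cl_eqv {e f : Idem R} (h : e.Eqv f) : cl e = cl f :=
  QuotientAddGroup.eq_iff_sub_mem.2 (AddSubgroup.subset_closure (Or.inl ⟨e, f, h, rfl⟩))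

theorem cl_add (e f : Idem R) : cl (e.add f) = cl e + cl f := by
  rw [cl, cl, cl, ← QuotientAddGroup.mk_add, QuotientAddGroup.eq_iff_sub_mem, ← sub_sub]
  exact AddSubgroup.subset_closure (Or.inr ⟨e, f, rfl⟩)

/-- The idempotent indexed by an interval of integers. -/
noncomputable def idm (e : Matrix ι ι R) (h : e * e = e) : Idem R :=
  ⟨Fintype.card ι, e.submatrix (Fintype.equivFin ι).symm (Fintype.equivFin ι).symm, by simp [h]⟩

theorem k0_eq {e : Matrix ι ι R} (h : e * e = e) : k0 e = cl (idm e h) := dif_pos h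

theorem eqv (x : Matrix ι κ R) (y : Matrix κ ι R) (e : Matrix ι ι R) (f : Matrix κ κ R)
    (he : e * e = e) (hf : f * f = f) (h1 : x * y = e) (h2 : y * x = f) : k0 e = k0 f := by
  rw [k0_eq he, k0_eq hf]
  refine cl_eqv ⟨x.submatrix (Fintype.equivFin ι).symm (Fintype.equivFin κ).symm,
    y.submatrix (Fintype.equivFin κ).symm (Fintype.equivFin ι).symm, ?_, ?_⟩
  · exact (submatrix_mul_equiv x y _ _ _).trans (by rw [h1]; rfl)
  · exact (submatrix_mul_equiv y x _ _ _).trans (by rw [h2]; rfl)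

theorem k0_sub {a : Matrix ι ι R} (h : a * a = a) (σ : κ ≃ ι) : k0 (a.submatrix σ σ) = k0 a :=
  eqv (a.submatrix σ (Equiv.refl ι)) (a.submatrix (Equiv.refl ι) σ) _ _
    (by rw [submatrix_mul_equiv, h]) h (by rw [submatrix_mul_equiv, h])
    (by rw [submatrix_mul_equiv, h]; rfl)

theorem k0_fin (e : Idem R) : k0 e.e = cl e := by
  rw [k0_eq e.idem]
  refine cl_eqv ⟨e.e.submatrix (Fintype.equivFin (Fin e.n)).symm (Equiv.refl _),
    e.e.submatrix (Equiv.refl _) (Fintype.equivFin (Fin e.n)).symm, ?_, ?_⟩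
  · exact (submatrix_mul_equiv e.e e.e _ _ _).trans (by rw [e.idem]; rfl)
  · exact (submatrix_mul_equiv e.e e.e _ _ _).trans (by rw [e.idem]; rfl)

theorem blocks (e : Matrix ι ι R) (f : Matrix κ κ R) (he : e * e = e) (hf : f * f = f) :
    k0 (fromBlocks e 0 0 f) = k0 e + k0 f := by
  have h : fromBlocks e 0 0 f * fromBlocks e 0 0 f = fromBlocks e 0 0 f := by
    simp [fromBlocks_multiply, he, hf]
  rw [k0_eq he, k0_eq hf, ← cl_add, ← k0_fin, ← k0_sub h (finSumFinEquiv.symm.trans
    (Equiv.sumCongr (Fintype.equivFin ι).symm (Fintype.equivFin κ).symm))]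
  congr 1
  ext i j
  simp only [Idem.add, idm, dsum, reindex_apply, submatrix_apply, Equiv.trans_apply]
  rcases finSumFinEquiv.symm i with i | i <;> rcases finSumFinEquiv.symm j with j | j <;> simp

theorem map {S : Type} [Ring S] (φ : R →+* S) (e : Matrix ι ι R) (he : e * e = e) :
    K0u.map φ (k0 e) = k0 (e.map φ) := by
  rw [k0_eq he, k0_eq (e := e.map φ) (by rw [← Matrix.map_mul, he])]
  rfl

theorem orth {a b : Matrix ι ι R} (ha : a * a = a) (hb : b * b = b) (hab : a * b = 0)
    (hba : b * a = 0) : k0 (a + b) = k0 a + k0 b := by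
  rw [← blocks a b ha hb]
  refine eqv (fromCols a b) (fromRows a b) _ _ ?_ ?_ ?_ ?_
  · simp [add_mul, mul_add, ha, hb, hab, hba]
  · simp [fromBlocks_multiply, ha, hb]
  · rw [fromCols_mul_fromRows, ha, hb]
  · rw [fromRows_mul_fromCols, ha, hb, hab, hba]

theorem k0_zero : k0 (0 : Matrix ι ι R) = 0 := by
  have h := orth (a := (0 : Matrix ι ι R)) (b := 0) (by simp) (by simp) (by simp) (by simp)
  rw [add_zero] at h
  exact left_eq_add.1 h

/-- The part of a block diagonal matrix over a finite set of blocks. -/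
def pt (e : κ → Matrix ι ι R) (s : Finset κ) : Matrix (ι × κ) (ι × κ) R :=
  blockDiagonal fun γ => if γ ∈ s then e γ else 0

theorem pt_mul {e : κ → Matrix ι ι R} (he : ∀ γ, e γ * e γ = e γ) (s t : Finset κ) :
    pt e s * pt e t = pt e (s ∩ t) := by
  rw [pt, pt, pt, ← blockDiagonal_mul]
  congr 1
  funext γ
  by_cases h1 : γ ∈ s <;> by_cases h2 : γ ∈ t <;> simp [h1, h2, he]

omit [Fintype ι] [DecidableEq ι] [Fintype κ] in
theorem pt_empty (e : κ → Matrix ι ι R) : pt e ∅ = 0 := by
  simp [pt, ← Pi.zero_def]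

theorem pt_single {e : κ → Matrix ι ι R} (he : ∀ γ, e γ * e γ = e γ) (γ : κ) :
    k0 (pt e {γ}) = k0 (e γ) := by
  refine eqv (of fun p j => if p.2 = γ then e γ p.1 j else 0)
    (of fun i q => if q.2 = γ then e γ i q.1 else 0) _ _
    (by rw [pt_mul he, Finset.inter_self]) (he γ) ?_ ?_
  · ext ⟨i, a⟩ ⟨j, b⟩
    have h := congrFun (congrFun (he γ) i) j
    rw [mul_apply] at h
    by_cases h1 : a = γ <;> by_cases h2 : b = γ
    · simp [pt, mul_apply, h1, h2, h]
    · simp [pt, mul_apply, h1, h2, blockDiagonal_apply, Ne.symm h2]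
    · simp [pt, mul_apply, h1, h2, blockDiagonal_apply]
    · simp [pt, mul_apply, h1, h2, blockDiagonal_apply]
  · ext i j
    have h := congrFun (congrFun (he γ) i) j
    rw [mul_apply] at h
    simp [mul_apply, Fintype.sum_prod_type, h]

theorem pt_sum {e : κ → Matrix ι ι R} (he : ∀ γ, e γ * e γ = e γ) (s : Finset κ) :
    k0 (pt e s) = ∑ γ ∈ s, k0 (e γ) := by
  induction s using Finset.induction_on with
  | empty => rw [pt_empty, k0_zero, Finset.sum_empty]
  | insert γ s hγ ih =>
    have h : pt e (insert γ s) = pt e {γ} + pt e s := by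
      rw [pt, pt, pt, ← blockDiagonal_add]
      congr 1
      funext δ
      by_cases h1 : δ = γ
      · simp [h1, hγ]
      · simp [h1]
    rw [h, orth (by rw [pt_mul he, Finset.inter_self]) (by rw [pt_mul he, Finset.inter_self])
      (by rw [pt_mul he, Finset.singleton_inter_of_notMem hγ, pt_empty])
      (by rw [pt_mul he, Finset.inter_singleton_of_notMem hγ, pt_empty]), pt_single he, ih,
      Finset.sum_insert hγ]

theorem diag (e : κ → Matrix ι ι R) (he : ∀ γ, e γ * e γ = e γ) :
    k0 (blockDiagonal e) = ∑ γ, k0 (e γ) := by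
  rw [← pt_sum he]
  simp [pt]

theorem gen (H : AddSubgroup (K0u R))
    (h : ∀ (n : ℕ) (e : Matrix (Fin n) (Fin n) R), e * e = e → k0 e ∈ H) : H = ⊤ := by
  refine eq_top_iff.2 fun x _ => ?_
  obtain ⟨z, rfl⟩ := QuotientAddGroup.mk_surjective x
  induction z using FreeAbelianGroup.induction_on with
  | zero => exact H.zero_mem
  | of e => exact (k0_fin e ▸ h e.n e.e e.idem : cl e ∈ H)
  | neg e ih => exact H.neg_mem (ih trivial)
  | add x y hx hy => exact H.add_mem (hx trivial) (hy trivial)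

end K0X

theorem rK0 : SK0 :=
  { eqv := K0X.eqv
    blocks := K0X.blocks
    map := K0X.map
    diag := K0X.diag
    gen := K0X.gen }

end Pool.Agent.MP_9c5a49_an.H98
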