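import Pool.Agent.MP_9c5a49_an.H98.Spec

/-!
The basic properties of the class in `K₁` of an invertible matrix.
-/

set_option autoImplicit false

namespace Pool.Agent.MP_9c5a49_an.H98

open Matrix

namespace K1X

/-- An invertible scalar matrix is joined to the identity by invertible matrices. -/
theorem path_unit {ι : Type} [Fintype ι] [DecidableEq ι] (s : Matrix ι ι ℂ) (hs : IsUnit s) :
    ∃ p : unitInterval → Matrix ι ι ℂ, Continuous p ∧ p 0 = s ∧ p 1 = 1 ∧ ∀ t, IsUnit (p t) := by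
  have hf : {z : ℂ | ¬ IsUnit (1 + z • (s - 1))}.Finite := by
    refine ((Matrix.finite_spectrum (1 - s)).image fun z => z⁻¹).subset fun z hz => ?_
    have hz0 : z ≠ 0 := by
      rintro rfl
      exact hz (by simp)
    refine ⟨z⁻¹, fun h => hz ?_, inv_inv z⟩
    have e : 1 + z • (s - 1) =
        algebraMap ℂ _ z * (algebraMap ℂ (Matrix ι ι ℂ) z⁻¹ - (1 - s)) := by
      rw [mul_sub, ← map_mul, mul_inv_cancel₀ hz0, map_one, ← Algebra.smul_def,
        sub_eq_add_neg 1 (z • _), ← smul_neg, neg_sub]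
    rw [e]
    exact ((isUnit_iff_ne_zero.2 hz0).map _).mul h
  have hp := hf.countable.isPathConnected_compl_of_one_lt_rank
    (by rw [Complex.rank_real_complex]; norm_num)
  have hj := hp.joinedIn 1 (by simpa using hs) 0 (by simp)
  refine ⟨fun t => 1 + hj.somePath t • (s - 1), by fun_prop, by simp, by simp, fun t => ?_⟩
  exact not_not.1 (hj.somePath_mem t)

variable {A : Type} [NonUnitalRing A] [Module ℂ A] [IsScalarTower ℂ A A] [SMulCommClass ℂ A A]
  [TopologicalSpace A]

/-- Continuity of a path in the unitization. -/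
def Ct (f : unitInterval → Unitization ℂ A) : Prop :=
  Continuous (fun t => (f t).fst) ∧ Continuous fun t => (f t).snd

/-- A scalar matrix seen over the unitization. -/
noncomputable abbrev sm (A : Type) [NonUnitalRing A] [Module ℂ A] [IsScalarTower ℂ A A]
    [SMulCommClass ℂ A A] {ι : Type} (g : Matrix ι ι ℂ) : Matrix ι ι (Unitization ℂ A) :=
  g.map (algebraMap ℂ (Unitization ℂ A))

section Index

variable {ι κ μ : Type} [Fintype ι] [DecidableEq ι] [Fintype κ] [DecidableEq κ] [Fintype μ]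
  [DecidableEq μ]

omit [TopologicalSpace A] in
theorem sm_unit {g : Matrix ι ι ℂ} (hg : IsUnit g) : IsUnit (sm A g) :=
  hg.map (algebraMap ℂ (Unitization ℂ A)).mapMatrix

omit [TopologicalSpace A] [Fintype ι] in
theorem sm_one : sm A (1 : Matrix ι ι ℂ) = 1 := Matrix.map_one _ (map_zero _) (map_one _)

omit [TopologicalSpace A] in
theorem unit_sub (e : κ ≃ ι) {u : Matrix ι ι (Unitization ℂ A)} (hu : IsUnit u) :
    IsUnit (u.submatrix e e) := hu.map (reindexAlgEquiv ℂ _ e.symm)

omit [TopologicalSpace A] in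
theorem unit_blocks {a : Matrix ι ι (Unitization ℂ A)} (ha : IsUnit a) :
    IsUnit (fromBlocks a 0 0 (1 : Matrix κ κ (Unitization ℂ A))) := by
  obtain ⟨b, h1, h2⟩ := isUnit_iff_exists.1 ha
  exact isUnit_iff_exists.2 ⟨fromBlocks b 0 0 1, by simp [fromBlocks_multiply, h1], by
    simp [fromBlocks_multiply, h2]⟩

omit [TopologicalSpace A] in
theorem unit_diag {f : κ → Matrix ι ι (Unitization ℂ A)} (hf : ∀ γ, IsUnit (f γ)) :
    IsUnit (blockDiagonal f) := (Pi.isUnit_iff.2 hf).map (blockDiagonalRingHom ι κ _)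

theorem k1_pos {u : Matrix ι ι (Unitization ℂ A)} (hu : IsUnit u) :
    k1 u = Quot.mk (Rel1 A) ⟨Fintype.card ι,
      u.submatrix (Fintype.equivFin ι).symm (Fintype.equivFin ι).symm, unit_sub _ hu⟩ :=
  dif_pos hu

theorem htpy_left {u v : Matrix ι ι (Unitization ℂ A)} (h : Htpy u v) : IsUnit u := by
  obtain ⟨γ, h0, -, h2, -⟩ := h
  exact h0 ▸ h2 0

theorem htpy_right {u v : Matrix ι ι (Unitization ℂ A)} (h : Htpy u v) : IsUnit v := by
  obtain ⟨γ, -, h1, h2, -⟩ := h
  exact h1 ▸ h2 1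

theorem k1_htpy {u v : Matrix ι ι (Unitization ℂ A)} (h : Htpy u v) : k1 u = k1 v := by
  rw [k1_pos (htpy_left h), k1_pos (htpy_right h)]
  obtain ⟨γ, h0, h1, h2, h3⟩ := h
  exact Quot.sound (Rel1.htpy _ _
    ⟨fun t => (γ t).submatrix (Fintype.equivFin ι).symm (Fintype.equivFin ι).symm,
    by simp only [h0], by simp only [h1], fun t => unit_sub _ (h2 t), fun i j => h3 _ _⟩)

variable [IsTopologicalRing A] [ContinuousSMul ℂ A]

omit [IsTopologicalRing A] [ContinuousSMul ℂ A] [NonUnitalRing A] [Module ℂ A]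
  [IsScalarTower ℂ A A] [SMulCommClass ℂ A A] in
theorem ct_const (x : Unitization ℂ A) : Ct fun _ => x := ⟨continuous_const, continuous_const⟩

omit [IsScalarTower ℂ A A] [SMulCommClass ℂ A A] in
theorem ct_mul {α β : unitInterval → Matrix ι ι (Unitization ℂ A)}
    (hα : ∀ i j, Ct fun t => α t i j) (hβ : ∀ i j, Ct fun t => β t i j) (i j : ι) :
    Ct fun t => (α t * β t) i j := by
  have hs : ∀ (s : Finset ι), Ct fun t => ∑ k ∈ s, α t i k * β t k j := fun s => by
    induction s using Finset.induction_on with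
    | empty => simpa using ct_const (0 : Unitization ℂ A)
    | insert k s hk ih =>
      simp only [Finset.sum_insert hk, Ct, Unitization.fst_add, Unitization.snd_add,
        Unitization.fst_mul, Unitization.snd_mul]
      exact ⟨((hα i k).1.mul (hβ k j).1).add ih.1,
        ((((hα i k).1.smul (hβ k j).2).add ((hβ k j).1.smul (hα i k).2)).add
          ((hα i k).2.mul (hβ k j).2)).add ih.2⟩
  simpa only [Matrix.mul_apply] using hs Finset.univ

omit [Fintype ι] [DecidableEq ι] [IsTopologicalRing A] [ContinuousSMul ℂ A] in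
theorem ct_sm {p : unitInterval → Matrix ι ι ℂ} (hp : Continuous p) (i j : ι) :
    Ct fun t => sm A (p t) i j := by
  simp only [Ct, sm, Matrix.map_apply, Unitization.algebraMap_eq_inl, Unitization.fst_inl,
    Unitization.snd_inl]
  exact ⟨hp.matrix_elem i j, continuous_const⟩

theorem htpy_mid {a b : Matrix ι ι (Unitization ℂ A)} (ha : IsUnit a) (hb : IsUnit b)
    {g h : Matrix ι ι ℂ} (hg : IsUnit g) (hh : IsUnit h) :
    Htpy (a * (sm A g * b * sm A h)) (a * b) := by
  obtain ⟨p, p0, p1, p2, p3⟩ := path_unit g hg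
  obtain ⟨q, q0, q1, q2, q3⟩ := path_unit h hh
  refine ⟨fun t => a * (sm A (p t) * b * sm A (q t)), by simp only [p1, q1],
    by simp only [p2, q2, sm_one, one_mul, mul_one],
    fun t => ha.mul (((sm_unit (p3 t)).mul hb).mul (sm_unit (q3 t))), ?_⟩
  exact ct_mul (fun _ _ => ct_const _)
    (ct_mul (ct_mul (ct_sm p0) fun _ _ => ct_const _) (ct_sm q0))

theorem htpy_perm {a b : Matrix ι ι (Unitization ℂ A)} (ha : IsUnit a) (hb : IsUnit b)
    (σ : ι ≃ ι) : Htpy (a * b.submatrix σ σ) (a * b) := by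
  have h1 : (1 : Matrix ι ι ℂ).submatrix σ (Equiv.refl ι) *
      (1 : Matrix ι ι ℂ).submatrix (Equiv.refl ι) σ = 1 := by
    rw [submatrix_mul_equiv, one_mul, submatrix_one_equiv]
  have h := htpy_mid ha hb (IsUnit.of_mul_eq_one _ h1) (IsUnit.of_mul_eq_one_right _ h1)
  simp only [sm, ← submatrix_map] at h
  rw [show (1 : Matrix ι ι ℂ).map (algebraMap ℂ (Unitization ℂ A)) = 1 from sm_one,
    one_submatrix_mul, mul_submatrix_one] at h
  exact h

theorem mk_sub {n m : ℕ} (e : Fin n ≃ Fin m) (u : Matrix (Fin m) (Fin m) (Unitization ℂ A))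
    (hu : IsUnit u) (hv : IsUnit (u.submatrix e e)) :
    Quot.mk (Rel1 A) ⟨n, u.submatrix e e, hv⟩ = Quot.mk (Rel1 A) ⟨m, u, hu⟩ := by
  obtain rfl : n = m := by simpa using Fintype.card_congr e
  exact Quot.sound (Rel1.htpy _ _ (by simpa only [one_mul] using htpy_perm isUnit_one hu e))

theorem k1_mk {n : ℕ} (u : Matrix (Fin n) (Fin n) (Unitization ℂ A)) (hu : IsUnit u) :
    k1 u = Quot.mk (Rel1 A) ⟨n, u, hu⟩ := by
  rw [k1_pos hu]
  exact mk_sub (Fintype.equivFin (Fin n)).symm u hu _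

theorem k1_sub (e : κ ≃ ι) {u : Matrix ι ι (Unitization ℂ A)} (hu : IsUnit u) :
    k1 (u.submatrix e e) = k1 u := by
  rw [k1_pos hu, k1_pos (unit_sub e hu)]
  refine Eq.trans ?_ (mk_sub (((Fintype.equivFin κ).symm.trans e).trans (Fintype.equivFin ι)) _ _
    (unit_sub _ (unit_sub _ hu)))
  congr 2
  ext i j : 1
  simp

theorem k1_stab1 {a : Matrix ι ι (Unitization ℂ A)} (ha : IsUnit a) :
    k1 (fromBlocks a 0 0 (1 : Matrix (Fin 1) (Fin 1) (Unitization ℂ A))) = k1 a := by
  set e := (Fintype.equivFin ι).symm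
  have hb := unit_sub e ha
  have hd : IsUnit (dsum (a.submatrix e e) (1 : Matrix (Fin 1) (Fin 1) (Unitization ℂ A))) :=
    unit_sub _ (unit_blocks hb)
  rw [← k1_sub e ha, k1_mk _ hb, Quot.sound (Rel1.stab hb hd), ← k1_mk _ hd,
    ← k1_sub (e.sumCongr (Equiv.refl _)) (unit_blocks ha)]
  refine Eq.trans ?_ (k1_sub finSumFinEquiv.symm (unit_blocks hb)).symm
  congr 1
  ext (i | i) (j | j) : 1 <;> rfl

theorem k1_blocks_equiv (e : κ ≃ μ) {a : Matrix ι ι (Unitization ℂ A)} (ha : IsUnit a) :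
    k1 (fromBlocks a 0 0 (1 : Matrix κ κ (Unitization ℂ A))) =
      k1 (fromBlocks a 0 0 (1 : Matrix μ μ (Unitization ℂ A))) := by
  rw [← k1_sub ((Equiv.refl ι).sumCongr e) (unit_blocks ha)]
  congr 1
  ext (i | i) (j | j) : 1 <;> simp [one_apply]

theorem k1_stab {a : Matrix ι ι (Unitization ℂ A)} (ha : IsUnit a) :
    k1 (fromBlocks a 0 0 (1 : Matrix κ κ (Unitization ℂ A))) = k1 a := by
  rw [k1_blocks_equiv (Fintype.equivFin κ) ha]
  induction Fintype.card κ with
  | zero =>
    rw [← k1_sub (Equiv.sumEmpty ι (Fin 0)) ha]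
    congr 1
    ext (i | i) (j | j) : 1
    · rfl
    all_goals first | exact j.elim0 | exact i.elim0
  | succ n ih =>
    rw [← ih, ← k1_stab1 (unit_blocks (κ := Fin n) ha), ← k1_blocks_equiv finSumFinEquiv ha,
      ← k1_sub (Equiv.sumAssoc ι (Fin n) (Fin 1)) (unit_blocks ha)]
    congr 1
    ext ((i | i) | i) ((j | j) | j) : 1 <;> simp [one_apply]

theorem k1_single (c : κ) {u : Matrix ι ι (Unitization ℂ A)} (hu : IsUnit u) :
    k1 (blockDiagonal fun γ => if γ = c then u else 1) = k1 u := by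
  let e : ι ⊕ (ι × {γ // γ ≠ c}) ≃ ι × κ :=
    { toFun := Sum.elim (fun i => (i, c)) fun p => (p.1, p.2.1)
      invFun := fun p => if h : p.2 = c then .inl p.1 else .inr (p.1, ⟨p.2, h⟩)
      left_inv := by
        rintro (i | ⟨i, γ, h⟩)
        · simp
        · simp [h]
      right_inv := by
        rintro ⟨i, γ⟩
        by_cases h : γ = c <;> simp [h] }
  have hd : IsUnit (blockDiagonal fun γ => if γ = c then u else 1) :=
    unit_diag fun γ => by split_ifs; exacts [hu, isUnit_one]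
  rw [← k1_sub e hd, ← k1_stab (κ := ι × {γ // γ ≠ c}) hu]
  congr 1
  ext (i | ⟨i, γ, h⟩) (j | ⟨j, δ, h'⟩) : 1
  · simp [e, blockDiagonal_apply]
  · simp [e, blockDiagonal_apply, h'.symm]
  · simp [e, blockDiagonal_apply, h]
  · by_cases hh : γ = δ <;> simp [e, blockDiagonal_apply, h', hh, one_apply]

omit [DecidableEq κ] in
theorem exists_perm {ev : κ → Bool} (h : Sd ev) :
    ∃ (c : κ) (σ : κ ≃ κ), ev c = true ∧ ∀ γ, ev (σ γ) = false ↔ (ev γ = true ∧ γ ≠ c) := by
  classical
  rw [Sd, Finset.sum_ite] at h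
  simp only [Finset.sum_const, nsmul_eq_mul, mul_one, mul_neg] at h
  obtain ⟨c, hc⟩ : (Finset.univ.filter fun γ => ev γ = true).Nonempty :=
    Finset.card_pos.1 (by omega)
  have hcard : Fintype.card {γ // ev γ = true ∧ γ ≠ c} = Fintype.card {γ // ¬ ev γ = true} := by
    rw [Fintype.card_subtype, Fintype.card_subtype]
    have e : (Finset.univ.filter fun γ => ev γ = true ∧ γ ≠ c) =
        (Finset.univ.filter fun γ => ev γ = true).erase c := by
      ext γ
      simp [and_comm]
    rw [e, Finset.card_erase_of_mem hc]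
    omega
  refine ⟨c, (Fintype.equivOfCardEq hcard).extendSubtype, (Finset.mem_filter.1 hc).2,
    fun γ => ⟨fun h1 => ?_, fun h1 => ?_⟩⟩
  · by_contra h2
    exact Equiv.extendSubtype_not_mem (Fintype.equivOfCardEq hcard) γ h2 (by simp [h1])
  · simpa using Equiv.extendSubtype_mem (Fintype.equivOfCardEq hcard) γ h1

theorem k1_diag {ev : κ → Bool} (h : Sd ev) {u u' : Matrix ι ι (Unitization ℂ A)}
    (h1 : u * u' = 1) (h2 : u' * u = 1) :
    k1 (blockDiagonal fun γ => if ev γ then u else u') = k1 u := by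
  obtain ⟨c, σ, hc, hσ⟩ := exists_perm h
  have hu : IsUnit u := ⟨⟨u, u', h1, h2⟩, rfl⟩
  have hu' : IsUnit u' := ⟨⟨u', u, h2, h1⟩, rfl⟩
  have ha : IsUnit (blockDiagonal fun γ => if ev γ then u else 1) :=
    unit_diag fun γ => by split_ifs; exacts [hu, isUnit_one]
  have hb : IsUnit (blockDiagonal fun γ => if ev γ then 1 else u') :=
    unit_diag fun γ => by split_ifs; exacts [isUnit_one, hu']
  have e : (blockDiagonal fun γ => if ev γ then 1 else u').submatrix
      ((Equiv.refl ι).prodCongr σ) ((Equiv.refl ι).prodCongr σ) =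
      blockDiagonal fun γ => if ev (σ γ) then 1 else u' := by
    ext ⟨i, γ⟩ ⟨j, δ⟩ : 1
    simp [blockDiagonal_apply]
  have k := k1_htpy (htpy_perm ha hb ((Equiv.refl ι).prodCongr σ))
  rw [e, ← blockDiagonal_mul, ← blockDiagonal_mul] at k
  rw [← k1_single c hu]
  refine Eq.trans ?_ (k.symm.trans ?_) <;> refine congrArg (fun f => k1 (blockDiagonal f)) ?_ <;>
    funext γ
  · split_ifs <;> simp
  · have := hσ γ
    by_cases h3 : γ = c
    · subst h3
      simp_all
    · cases h4 : ev γ <;> simp_all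

end Index

end K1X

open K1X in
theorem rK1 : RK1 := fun A _ _ _ _ _ _ _ =>
  { htpy := fun _ _ h => k1_htpy h
    map := fun φ hφ u hu => by
      rw [k1_pos hu, k1_pos (u := u.map (uMap φ)) (hu.map (uMap φ).mapMatrix)]
      rfl
    gen := fun x => by
      obtain ⟨n, u, hu⟩ := x
      exact ⟨n, u, hu, (k1_mk u hu).symm⟩
    scal := fun s u hs hu => by
      simpa only [sm_one, one_mul, mul_one] using
        k1_htpy (htpy_mid isUnit_one hu hs isUnit_one)
    diag := fun _ _ _ h h1 h2 => k1_diag h h1 h2 }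

end Pool.Agent.MP_9c5a49_an.H98
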