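import Pool.Agent.MP_9c5a49_an.H98.Spec

/-!
The one-dimensional block: a tridiagonal matrix with zero diagonal on a path with an odd number
of nodes.
-/

set_option autoImplicit false

namespace Pool.Agent.MP_9c5a49_an.H98

open Matrix
open scoped ComplexOrder

namespace OneX

/-- The tridiagonal matrix with zero diagonal and weights `c`. -/
def J (N : ℕ) (c : ℕ → ℝ) : Matrix (Fin N) (Fin N) ℂ :=
  of fun i j => if i.val + 1 = j.val then (c j.val : ℂ) else
    if j.val + 1 = i.val then (c i.val : ℂ) else 0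

/-- Extension by zero, shifted by one. -/
def ex {N : ℕ} (x : Fin N → ℂ) (k : ℕ) : ℂ := ∑ j : Fin N, if j.val + 1 = k then x j else 0

theorem ex_zero {N : ℕ} (x : Fin N → ℂ) : ex x 0 = 0 := by simp [ex]

theorem ex_last {N : ℕ} (x : Fin N → ℂ) : ex x (N + 1) = 0 := by
  refine Finset.sum_eq_zero fun j _ => if_neg ?_
  have := j.2
  omega

theorem ex_succ {N : ℕ} (x : Fin N → ℂ) (n : Fin N) : ex x (n.val + 1) = x n := by
  unfold ex
  rw [Finset.sum_eq_single n]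
  · simp
  · intro j _ hj
    exact if_neg fun h => hj (Fin.ext (by omega))
  · simp

theorem J_herm (N : ℕ) (c : ℕ → ℝ) : (J N c).IsHermitian := by
  ext i j
  simp only [J, conjTranspose_apply, of_apply]
  split_ifs <;> first | omega | simp

theorem J_mulVec {N : ℕ} (c : ℕ → ℝ) (x : Fin N → ℂ) (n : Fin N) :
    (J N c *ᵥ x) n = c n * ex x n + c (n + 1) * ex x (n + 2) := by
  simp only [mulVec, dotProduct, ex, Finset.mul_sum, ← Finset.sum_add_distrib, J, of_apply]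
  refine Finset.sum_congr rfl fun j _ => ?_
  split_ifs with h1 h2 h3 h4 h5 h6 h7 <;> first | omega | simp [← h1] | simp

theorem J_sub (N : ℕ) (c c' : ℕ → ℝ) : J N c - J N c' = J N (c - c') := by
  ext i j
  simp only [J, Matrix.sub_apply, of_apply, Pi.sub_apply]
  split_ifs <;> simp

theorem quad_sq {N : ℕ} (c : ℕ → ℝ) (x : Fin N → ℂ) :
    star x ⬝ᵥ (J N c * J N c) *ᵥ x =
      ((∑ n ∈ Finset.range N, ‖c n * ex x n + c (n + 1) * ex x (n + 2)‖ ^ 2 : ℝ) : ℂ) := by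
  have h : star x ⬝ᵥ (J N c * J N c) *ᵥ x = star (J N c *ᵥ x) ⬝ᵥ (J N c *ᵥ x) := by
    rw [star_mulVec, (J_herm N c).eq, ← mulVec_mulVec, dotProduct_mulVec]
  rw [h, ← Fin.sum_univ_eq_sum_range
    (fun n => ‖(c n : ℂ) * ex x n + c (n + 1) * ex x (n + 2)‖ ^ 2)]
  simp only [dotProduct, Pi.star_apply, J_mulVec, Complex.ofReal_sum]
  refine Finset.sum_congr rfl fun n _ => ?_
  rw [Complex.star_def, Complex.conj_mul']
  push_cast
  rfl

theorem quad_diag {N : ℕ} (d : ℕ → ℝ) (x : Fin N → ℂ) :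
    star x ⬝ᵥ (diagonal fun n : Fin N => (d n : ℂ)) *ᵥ x =
      ((∑ n ∈ Finset.range N, d n * ‖ex x (n + 1)‖ ^ 2 : ℝ) : ℂ) := by
  rw [← Fin.sum_univ_eq_sum_range (fun n => d n * ‖ex x (n + 1)‖ ^ 2)]
  simp only [dotProduct, Pi.star_apply, mulVec_diagonal, Complex.ofReal_sum, ex_succ]
  refine Finset.sum_congr rfl fun n _ => ?_
  rw [mul_left_comm, Complex.star_def, Complex.conj_mul']
  push_cast
  rfl

theorem herm_sq (N : ℕ) (c : ℕ → ℝ) : (J N c * J N c).IsHermitian := by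
  have := isHermitian_conjTranspose_mul_self (J N c)
  rwa [(J_herm N c).eq] at this

theorem herm_diag (N : ℕ) (d : ℕ → ℝ) : (diagonal fun n : Fin N => (d n : ℂ)).IsHermitian := by
  refine isHermitian_diagonal_of_self_adjoint _ ?_
  ext n
  simp

theorem lower {N : ℕ} (c d : ℕ → ℝ) (h : ∀ X : ℕ → ℂ, X 0 = 0 → X (N + 1) = 0 →
    ∑ n ∈ Finset.range N, d n * ‖X (n + 1)‖ ^ 2 ≤
      ∑ n ∈ Finset.range N, ‖c n * X n + c (n + 1) * X (n + 2)‖ ^ 2) :
    (J N c * J N c - diagonal fun n : Fin N => (d n : ℂ)).PosSemidef := by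
  refine .of_dotProduct_mulVec_nonneg ((herm_sq N c).sub (herm_diag N d)) fun x => ?_
  rw [sub_mulVec, dotProduct_sub, quad_sq, quad_diag, ← Complex.ofReal_sub]
  exact Complex.zero_le_real.2 (sub_nonneg.2 (h _ (ex_zero x) (ex_last x)))

theorem upper {N : ℕ} (c d : ℕ → ℝ) (h : ∀ X : ℕ → ℂ, X 0 = 0 → X (N + 1) = 0 →
    ∑ n ∈ Finset.range N, ‖c n * X n + c (n + 1) * X (n + 2)‖ ^ 2 ≤
      ∑ n ∈ Finset.range N, d n * ‖X (n + 1)‖ ^ 2) :
    ((diagonal fun n : Fin N => (d n : ℂ)) - J N c * J N c).PosSemidef := by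
  refine .of_dotProduct_mulVec_nonneg ((herm_diag N d).sub (herm_sq N c)) fun x => ?_
  rw [sub_mulVec, dotProduct_sub, quad_sq, quad_diag, ← Complex.ofReal_sub]
  exact Complex.zero_le_real.2 (sub_nonneg.2 (h _ (ex_zero x) (ex_last x)))

theorem norm_id (a b : ℝ) (x y : ℂ) : ‖a * x + b * y‖ ^ 2 =
    a * (a + b) * ‖x‖ ^ 2 + b * (a + b) * ‖y‖ ^ 2 - a * b * ‖x - y‖ ^ 2 := by
  simp only [Complex.sq_norm, Complex.normSq_apply, Complex.add_re, Complex.add_im,
    Complex.mul_re, Complex.mul_im, Complex.ofReal_re, Complex.ofReal_im, Complex.sub_re,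
    Complex.sub_im]
  ring

theorem lip (N : ℕ) (t : ℝ) (X : ℕ → ℂ) (h0 : X 0 = 0) (h1 : X (N + 1) = 0) :
    ∑ n ∈ Finset.range N, ‖(t : ℂ) * X n + t * X (n + 2)‖ ^ 2 ≤
      ∑ n ∈ Finset.range N, (2 * t) ^ 2 * ‖X (n + 1)‖ ^ 2 := by
  have e1 := Finset.sum_range_succ (fun n => ‖X n‖ ^ 2) N
  have e2 := Finset.sum_range_succ' (fun n => ‖X n‖ ^ 2) N
  have e3 := Finset.sum_range_succ (fun n => ‖X (n + 1)‖ ^ 2) N
  have e4 := Finset.sum_range_succ' (fun n => ‖X (n + 1)‖ ^ 2) N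
  simp only [h0, h1, norm_zero, add_assoc, zero_add, one_add_one_eq_two] at e1 e2 e3 e4
  have h2 : ∑ n ∈ Finset.range N, ‖(t : ℂ) * X n + t * X (n + 2)‖ ^ 2 ≤
      ∑ n ∈ Finset.range N, (2 * t ^ 2 * ‖X n‖ ^ 2 + 2 * t ^ 2 * ‖X (n + 2)‖ ^ 2) := by
    refine Finset.sum_le_sum fun n _ => ?_
    rw [norm_id]
    nlinarith [mul_nonneg (sq_nonneg t) (sq_nonneg ‖X n - X (n + 2)‖)]
  rw [Finset.sum_add_distrib, ← Finset.mul_sum, ← Finset.mul_sum] at h2
  rw [← Finset.mul_sum]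
  have h3 : ∑ n ∈ Finset.range N, ‖X n‖ ^ 2 ≤ ∑ n ∈ Finset.range N, ‖X (n + 1)‖ ^ 2 := by
    nlinarith [sq_nonneg ‖X N‖]
  have h4 : ∑ n ∈ Finset.range N, ‖X (n + 2)‖ ^ 2 ≤ ∑ n ∈ Finset.range N, ‖X (n + 1)‖ ^ 2 := by
    nlinarith [sq_nonneg ‖X 1‖]
  nlinarith [mul_le_mul_of_nonneg_left h3 (sq_nonneg t), mul_le_mul_of_nonneg_left h4 (sq_nonneg t)]

theorem low (N : ℕ) (c y : ℕ → ℝ) (η : ℝ) (hy : ∀ n, y (n + 1) = c n + c (n + 1))
    (hs : ∀ n < N, c n * c (n + 1) ≤ 0) (ha : c 0 * y 0 ≤ 0) (hb : c N * y (N + 1) ≤ 0)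
    (hd : ∀ n, y (n + 1) ^ 2 - η ≤ c (n + 1) * y (n + 2) + c n * y n)
    (X : ℕ → ℂ) (h0 : X 0 = 0) (h1 : X (N + 1) = 0) :
    ∑ n ∈ Finset.range N, (y (n + 1) ^ 2 - η) * ‖X (n + 1)‖ ^ 2 ≤
      ∑ n ∈ Finset.range N, ‖(c n : ℂ) * X n + c (n + 1) * X (n + 2)‖ ^ 2 := by
  have e1 := Finset.sum_range_succ (fun n => c n * y (n + 1) * ‖X n‖ ^ 2) N
  have e2 := Finset.sum_range_succ' (fun n => c n * y (n + 1) * ‖X n‖ ^ 2) N
  have e3 := Finset.sum_range_succ (fun n => c n * y n * ‖X (n + 1)‖ ^ 2) N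
  have e4 := Finset.sum_range_succ' (fun n => c n * y n * ‖X (n + 1)‖ ^ 2) N
  simp only [h0, h1, norm_zero, add_assoc, zero_add, one_add_one_eq_two] at e1 e2 e3 e4
  have h2 : ∑ n ∈ Finset.range N, (c n * y (n + 1) * ‖X n‖ ^ 2 +
      c (n + 1) * y (n + 1) * ‖X (n + 2)‖ ^ 2) ≤
      ∑ n ∈ Finset.range N, ‖(c n : ℂ) * X n + c (n + 1) * X (n + 2)‖ ^ 2 := by
    refine Finset.sum_le_sum fun n hn => ?_
    rw [norm_id, hy]
    nlinarith [mul_nonneg (neg_nonneg.2 (hs n (Finset.mem_range.1 hn)))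
      (sq_nonneg ‖X n - X (n + 2)‖)]
  have h3 : ∑ n ∈ Finset.range N, (y (n + 1) ^ 2 - η) * ‖X (n + 1)‖ ^ 2 ≤
      ∑ n ∈ Finset.range N, (c (n + 1) * y (n + 2) * ‖X (n + 1)‖ ^ 2 +
        c n * y n * ‖X (n + 1)‖ ^ 2) := by
    refine Finset.sum_le_sum fun n _ => ?_
    rw [← add_mul]
    exact mul_le_mul_of_nonneg_right (hd n) (sq_nonneg _)
  rw [Finset.sum_add_distrib] at h2 h3
  nlinarith [mul_nonneg (neg_nonneg.2 ha) (sq_nonneg ‖X 1‖),
    mul_nonneg (neg_nonneg.2 hb) (sq_nonneg ‖X N‖)]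

theorem sd (m : ℕ) : Sd fun β : Fin (2 * m + 1) => decide (Even β.val) := by
  unfold Sd
  simp only [decide_eq_true_eq]
  rw [Fin.sum_univ_eq_sum_range (fun n => if Even n then (1 : ℤ) else -1)]
  induction m with
  | zero => simp
  | succ m ih =>
    rw [show 2 * (m + 1) + 1 = 2 * m + 1 + 1 + 1 by ring, Finset.sum_range_succ,
      Finset.sum_range_succ, ih, if_neg (by simp [parity_simps]), if_pos (by simp [parity_simps])]
    simp

end OneX

open OneX in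
theorem rOne : ROne := by
  intro M η hη
  obtain ⟨L, hL⟩ : ∃ L : ℝ, L = 2 * |M| + 1 := ⟨_, rfl⟩
  have hM := abs_nonneg M
  have hL0 : 0 < L := by linarith
  obtain ⟨m, hm⟩ := exists_nat_gt (L ^ 2 / η)
  obtain ⟨δ, hδ⟩ : ∃ δ : ℝ, δ = L / (2 * m + 2) := ⟨_, rfl⟩
  have hm0 : (0 : ℝ) < 2 * m + 2 := by positivity
  have hδ0 : 0 < δ := hδ ▸ div_pos hL0 hm0
  have hδL : δ * (2 * m + 2) = L := by rw [hδ]; field_simp
  have hη' : 2 * L * δ ≤ η := by
    rw [div_lt_iff₀ hη] at hm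
    refine le_of_mul_le_mul_right ?_ hm0
    rw [mul_assoc, hδL]
    nlinarith
  let c : ℝ → ℕ → ℝ := fun p n => (-1) ^ n * L + (-|M| + n * δ + δ / 2 - p) / 2
  refine ⟨Fin (2 * m + 1), inferInstance, inferInstance, fun β => decide (Even β.val),
    fun β => -|M| + (β.val + 1) * δ, fun p => OneX.J _ (c p), sd m, fun p => ⟨J_herm _ _, ?_⟩,
    fun p q => ?_, fun p hp => ?_⟩
  · intro β β' h
    simp only [decide_eq_decide, Nat.even_iff] at h
    simp only [OneX.J, of_apply]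
    rw [if_neg (by omega), if_neg (by omega)]
  · have hc : c p - c q = fun _ => (q - p) / 2 := by
      ext n
      simp only [c, Pi.sub_apply]
      ring
    have := upper (N := 2 * m + 1) (fun _ => (q - p) / 2) (fun _ => (2 * ((q - p) / 2)) ^ 2)
      (lip _ _)
    rw [J_sub, hc]
    convert this using 2
    rw [show (2 * ((q - p) / 2)) ^ 2 = (p - q) ^ 2 by ring]
    ext i j
    simp [diagonal_apply, one_apply]
  · have hp' := abs_le.1 (hp.trans (le_abs_self M))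
    have hb : ∀ n ≤ 2 * m + 1, -L ≤ (-|M| + n * δ + δ / 2 - p) / 2 ∧
        (-|M| + n * δ + δ / 2 - p) / 2 ≤ L := by
      intro n hn
      have h1 : (n : ℝ) ≤ 2 * m + 1 := by exact_mod_cast hn
      have h2 : (0 : ℝ) ≤ n * δ := by positivity
      have h3 := mul_le_mul_of_nonneg_right h1 hδ0.le
      constructor <;> nlinarith
    have := lower (N := 2 * m + 1) (c p) (fun n => (-|M| + ((n + 1 : ℕ) : ℝ) * δ - p) ^ 2 - η)
      (low _ (c p) (fun n => -|M| + n * δ - p) η ?_ ?_ ?_ ?_ ?_)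
    · convert this using 1
      ext i j
      simp only [Matrix.sub_apply, Matrix.add_apply, diagonal_apply, Matrix.smul_apply, one_apply]
      split_ifs <;> push_cast <;> simp
      ring
    · intro n
      simp only [c]
      push_cast
      ring
    · intro n hn
      have h1 := hb n (by omega)
      have h2 := hb (n + 1) (by omega)
      simp only [c]
      rcases neg_one_pow_eq_or ℝ n with h | h <;> rw [pow_succ, h]
      · exact mul_nonpos_of_nonneg_of_nonpos (by linarith [h1.1]) (by linarith [h2.2])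
      · exact mul_nonpos_of_nonpos_of_nonneg (by linarith [h1.2]) (by linarith [h2.1])
    · have h1 := hb 0 (by omega)
      simp only [c]
      refine mul_nonpos_of_nonneg_of_nonpos (by rw [pow_zero]; linarith [h1.1]) ?_
      push_cast
      linarith [hp'.1]
    · have h1 := hb (2 * m + 1) le_rfl
      simp only [c]
      refine mul_nonpos_of_nonpos_of_nonneg ?_ ?_
      · rw [pow_succ, pow_mul, neg_one_sq, one_pow]
        linarith [h1.2]
      · push_cast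
        nlinarith [hp'.2]
    · intro n
      simp only [c]
      push_cast
      rcases neg_one_pow_eq_or ℝ n with h | h <;> rw [pow_succ (-1 : ℝ) n, h] <;>
        nlinarith [sq_nonneg δ, mul_pos hL0 hδ0]

end Pool.Agent.MP_9c5a49_an.H98
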