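import Pool.Agent.MP_9c5a49_an.H98.Spec

/-! The unitary part of `1 + b (2 q - 1)`. -/

set_option autoImplicit false

namespace Pool.Agent.MP_9c5a49_an.H98

namespace PolX

variable {E : Type} [CStarAlgebra E] [PartialOrder E] [StarOrderedRing E]

/-- The square root. -/
noncomputable def HH (a : E) : E := cfc (fun t : ℝ => √(max t 1)) a

/-- The inverse of the square root. -/
noncomputable def CC (a : E) : E := cfc (fun t : ℝ => (√(max t 1))⁻¹) a

theorem one_le_rt (t : ℝ) : 1 ≤ √(max t 1) := Real.one_le_sqrt.2 (le_max_right _ _)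

theorem cont1 : Continuous fun t : ℝ => √(max t 1) := by fun_prop

theorem cont2 : Continuous fun t : ℝ => (√(max t 1))⁻¹ :=
  cont1.inv₀ fun t => (zero_lt_one.trans_le (one_le_rt t)).ne'

structure Rt (a H C : E) : Prop where
  sq : H * H = a
  hc : H * C = 1
  ch : C * H = 1
  le : 1 ≤ H
  sH : star H = H
  sC : star C = C
  cm : ∀ x, Commute a x → Commute C x

theorem rt {a : E} (ha : IsSelfAdjoint a) (h1 : 1 ≤ a) : Rt a (HH a) (CC a) := by
  have hs := (CFC.one_le_iff (R := ℝ) a ha).1 h1
  have hne : ∀ t : ℝ, √(max t 1) ≠ 0 := fun t => (zero_lt_one.trans_le (one_le_rt t)).ne'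
  refine ⟨?_, ?_, ?_, ?_, ?_, ?_, fun x hx => hx.cfc_real _⟩
  · unfold HH
    rw [← cfc_mul _ _ a cont1.continuousOn cont1.continuousOn]
    conv_rhs => rw [← cfc_id' ℝ a]
    refine cfc_congr fun t ht => ?_
    have := hs t ht
    simp only [max_eq_left this]
    exact Real.mul_self_sqrt (by linarith)
  · unfold HH CC
    rw [← cfc_mul _ _ a cont1.continuousOn cont2.continuousOn]
    simp only [mul_inv_cancel₀ (hne _)]
    exact cfc_const_one ℝ a
  · unfold HH CC
    rw [← cfc_mul _ _ a cont2.continuousOn cont1.continuousOn]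
    simp only [inv_mul_cancel₀ (hne _)]
    exact cfc_const_one ℝ a
  · exact one_le_cfc _ a (fun t _ => one_le_rt t) cont1.continuousOn ha
  · exact (cfc_predicate (R := ℝ) _ a : IsSelfAdjoint (HH a)).star_eq
  · exact (cfc_predicate (R := ℝ) _ a : IsSelfAdjoint (CC a)).star_eq

theorem rt' {b : E} (hb : IsSelfAdjoint b) : Rt (1 + b * b) (HH (1 + b * b)) (CC (1 + b * b)) := by
  have h : 0 ≤ b * b := by simpa [hb.star_eq] using star_mul_self_nonneg b
  exact rt ((IsSelfAdjoint.one E).add (IsSelfAdjoint.of_nonneg h)) (le_add_of_nonneg_right h)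

theorem sylv {H H' : E} (h : 1 ≤ H) (h' : 1 ≤ H') (Y : E) : 2 * ‖Y‖ ≤ ‖H * Y + Y * H'‖ := by
  set c : ℝ := ‖H‖ + ‖H'‖ + 1 with hc
  have key : ∀ K : E, 1 ≤ K → ‖K‖ ≤ c - 1 → ‖algebraMap ℝ E c - K‖ ≤ c - 1 := by
    intro K hK hn
    have hK0 : 0 ≤ K := zero_le_one.trans hK
    have h1 : K ≤ algebraMap ℝ E c :=
      (CStarAlgebra.norm_le_iff_le_algebraMap K (by positivity) hK0).1 (by linarith)
    refine (CStarAlgebra.norm_le_iff_le_algebraMap _ ((norm_nonneg _).trans hn)
      (sub_nonneg.2 h1)).2 ?_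
    rw [map_sub, map_one]
    exact sub_le_sub_left hK _
  have k1 := key H h (by linarith [norm_nonneg H'])
  have k2 := key H' h' (by linarith [norm_nonneg H])
  have e : (2 * c) • Y = (H * Y + Y * H') + (algebraMap ℝ E c - H) * Y +
      Y * (algebraMap ℝ E c - H') := by
    rw [sub_mul, mul_sub, ← Algebra.commutes c Y, ← Algebra.smul_def, mul_smul, two_smul]
    abel
  have n1 : ‖(2 * c) • Y‖ = 2 * c * ‖Y‖ := by
    rw [norm_smul, Real.norm_of_nonneg (by positivity)]
  have n2 := norm_add₃_le (a := H * Y + Y * H') (b := (algebraMap ℝ E c - H) * Y)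
    (c := Y * (algebraMap ℝ E c - H'))
  have n3 := (norm_mul_le (algebraMap ℝ E c - H) Y).trans
    (mul_le_mul_of_nonneg_right k1 (norm_nonneg Y))
  have n4 := (norm_mul_le Y (algebraMap ℝ E c - H')).trans
    (mul_le_mul_of_nonneg_left k2 (norm_nonneg Y))
  rw [← e, n1] at n2
  nlinarith

section Alg

variable {q b H C : E}

set_option linter.unusedSimpArgs false in
omit [PartialOrder E] [StarOrderedRing E] in
theorem alg (hq : IsStarProjection q) (hb : IsSelfAdjoint b) (h : q * b = b * (1 - q)) :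
    star (1 + b * (2 * q - 1)) = 1 - b * (2 * q - 1) ∧
    (1 - b * (2 * q - 1)) * (1 + b * (2 * q - 1)) = 1 + b * b ∧
    (1 + b * (2 * q - 1)) * (1 - b * (2 * q - 1)) = 1 + b * b ∧
    (1 + b * b) * q - (1 + b * (2 * q - 1)) * (1 - q) * (1 - b * (2 * q - 1)) = 2 * q - 1 + b ∧
    (2 * q - 1 + b) * (2 * q - 1 + b) = 1 + b * b ∧ Commute (1 + b * b) q := by
  have hqq : q * q = q := hq.isIdempotentElem
  have h1 : q * b = b - b * q := by rw [h, mul_sub, mul_one]
  have hqq' : ∀ x, q * (q * x) = q * x := fun x => by rw [← mul_assoc, hqq]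
  have h1' : ∀ x, q * (b * x) = b * x - b * (q * x) := fun x => by
    rw [← mul_assoc, h1, sub_mul, mul_assoc]
  refine ⟨?_, ?_, ?_, ?_, ?_, ?_⟩
  · simp only [two_mul, star_add, star_mul, star_sub, star_one, hq.isSelfAdjoint.star_eq,
      hb.star_eq, add_mul, sub_mul, mul_add, mul_sub, one_mul, mul_one, h1]
    abel
  · simp only [two_mul, add_mul, sub_mul, mul_add, mul_sub, one_mul, mul_one, mul_assoc, h1, h1',
      hqq, hqq']
    abel
  · simp only [two_mul, add_mul, sub_mul, mul_add, mul_sub, one_mul, mul_one, mul_assoc, h1, h1',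
      hqq, hqq']
    abel
  · simp only [two_mul, add_mul, sub_mul, mul_add, mul_sub, one_mul, mul_one, mul_assoc, h1, h1',
      hqq, hqq']
    abel
  · simp only [two_mul, add_mul, sub_mul, mul_add, mul_sub, one_mul, mul_one, mul_assoc, h1, h1',
      hqq, hqq']
    abel
  · change _ = _
    simp only [add_mul, mul_add, mul_sub, one_mul, mul_one, mul_assoc, h1, h1']
    abel

theorem uni (hq : IsStarProjection q) (hb : IsSelfAdjoint b) (h : q * b = b * (1 - q))
    (R : Rt (1 + b * b) H C) : (1 + b * (2 * q - 1)) * C ∈ unitary E ∧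
    q - (1 + b * (2 * q - 1)) * C * (1 - q) * star ((1 + b * (2 * q - 1)) * C) =
      C * C * (2 * q - 1 + b) ∧ Commute C (2 * q - 1 + b) ∧ C * C * (1 + b * b) = 1 := by
  obtain ⟨a1, a2, a3, a4, -, a6⟩ := alg hq hb h
  have cq : Commute C q := R.cm q a6
  have cb : Commute C b :=
    R.cm b ((Commute.one_left b).add_left ((Commute.refl b).mul_left (Commute.refl b)))
  have cG : Commute C (2 * q - 1) :=
    (((Commute.ofNat_right C 2).mul_right cq)).sub_right (Commute.one_right C)
  have cL : Commute C (1 + b * (2 * q - 1)) := (Commute.one_right C).add_right (cb.mul_right cG)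
  have cp : Commute C (1 - q) := (Commute.one_right C).sub_right cq
  have hCC : C * C * (1 + b * b) = 1 := by
    rw [← R.sq, mul_assoc, ← mul_assoc C H, R.ch, one_mul, R.ch]
  set L := 1 + b * (2 * q - 1)
  set L' := 1 - b * (2 * q - 1)
  refine ⟨⟨?_, ?_⟩, ?_, cG.add_right cb, hCC⟩
  · rw [star_mul, R.sC, a1, mul_assoc, ← mul_assoc L', a2, ← R.sq, mul_assoc, R.hc, mul_one, R.ch]
  · rw [star_mul, R.sC, a1, ← cL.eq, mul_assoc, ← mul_assoc L, ← cL.eq, mul_assoc, a3,
      ← mul_assoc, hCC]
  · rw [star_mul, R.sC, a1, ← a4, mul_sub (C * C), ← mul_assoc (C * C), hCC, one_mul]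
    congr 1
    have : L * C * (1 - q) * C = C * C * (L * (1 - q)) := by
      rw [← cL.eq, mul_assoc C L, mul_assoc C, ← (cL.mul_right cp).eq, ← mul_assoc]
    rw [← mul_assoc, this, mul_assoc (C * C)]

end Alg

end PolX

open PolX in
theorem rPol : RPol := by
  intro E _ _ _ q hq
  refine ⟨fun b => (1 + b * (2 * q - 1)) * CC (1 + b * b), ?_, fun b hb h => ?_,
    fun b b' hb h hb' h' => ?_⟩
  · simp [CC]
  · have R := rt' hb
    obtain ⟨u1, u2, u3, u4⟩ := uni hq hb h R
    refine ⟨u1, fun χ r hχ hr hle => ?_⟩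
    obtain ⟨-, -, -, -, a5, -⟩ := alg hq hb h
    set C := CC (1 + b * b)
    have hp := hχ.one_sub
    have sp : star (1 - χ) = 1 - χ := hp.isSelfAdjoint.star_eq
    have pp : (1 - χ) * (1 - χ) = 1 - χ := hp.isIdempotentElem
    have sG : star (2 * q - 1 + b) = 2 * q - 1 + b := by
      simp [two_mul, hq.isSelfAdjoint.star_eq, hb.star_eq]
    simp only
    rw [u2]
    set g := 2 * q - 1 + b
    have e1 : (1 - χ) * (C * C * g) * star ((1 - χ) * (C * C * g)) =
        (1 - χ) * C * star ((1 - χ) * C) := by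
      simp only [star_mul, R.sC, sG, sp]
      calc _ = (1 - χ) * (C * C * (g * g)) * (C * C * (1 - χ)) := by simp only [mul_assoc]
        _ = _ := by rw [a5, u4]; simp only [mul_assoc, mul_one]
    have e2 : star ((1 - χ) * C) * ((1 - χ) * C) = star C * (1 - χ) * C := by
      rw [star_mul, sp, mul_assoc, ← mul_assoc (1 - χ), pp, mul_assoc]
    have e3 := star_left_conjugate_le_conjugate hle C
    have e4 : star C * (1 + b * b) * C = 1 := by
      rw [R.sC, ← R.sq, ← mul_assoc, R.ch, one_mul, R.hc]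
    rw [e4, mul_smul_comm, smul_mul_assoc, ← e2] at e3
    have e5 := (CStarAlgebra.norm_le_one_iff_of_nonneg _
      (smul_nonneg (sq_nonneg r) (star_mul_self_nonneg _))).2 e3
    rw [norm_smul, CStarRing.norm_star_mul_self, ← CStarRing.norm_self_mul_star, ← e1,
      CStarRing.norm_self_mul_star, Real.norm_of_nonneg (sq_nonneg r)] at e5
    rw [inv_eq_one_div, le_div_iff₀ hr]
    exact abs_le_one_iff_mul_self_le_one.2 (by nlinarith) |> (le_abs_self _).trans
  · have R := rt' hb
    have R' := rt' hb'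
    have u := (uni hq hb h R).1
    have u' := (uni hq hb' h' R').1
    simp only
    set U := (1 + b * (2 * q - 1)) * CC (1 + b * b) with hU
    set U' := (1 + b' * (2 * q - 1)) * CC (1 + b' * b') with hU'
    set H := HH (1 + b * b)
    set H' := HH (1 + b' * b')
    have l1 : U * H = 1 + b * (2 * q - 1) := by rw [hU, mul_assoc, R.ch, mul_one]
    have l2 : U' * H' = 1 + b' * (2 * q - 1) := by rw [hU', mul_assoc, R'.ch, mul_one]
    have hG : 2 * q - 1 ∈ unitary E := by
      have hqq : q * q = q := hq.isIdempotentElem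
      constructor <;>
        simp only [two_mul, star_add, star_sub, star_one, hq.isSelfAdjoint.star_eq, add_mul,
          sub_mul, mul_add, mul_sub, one_mul, mul_one, hqq] <;> abel
    have n1 : ‖U * H - U' * H'‖ = ‖b - b'‖ := by
      rw [l1, l2, add_sub_add_left_eq_sub, ← sub_mul, CStarRing.norm_mul_mem_unitary _ hG]
    have e : H * (star U * U' - 1) + (star U * U' - 1) * H' =
        star (U * H - U' * H') * U' - star U * (U * H - U' * H') := by
      simp only [star_sub, star_mul, R.sH, R'.sH, mul_sub, sub_mul, mul_one, one_mul, mul_assoc,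
        u'.1]
      rw [← mul_assoc (star U) U, u.1, one_mul]
      abel
    have n2 := sylv R.le R'.le (star U * U' - 1)
    have n3 := norm_sub_le (star (U * H - U' * H') * U') (star U * (U * H - U' * H'))
    rw [CStarRing.norm_mul_mem_unitary _ u', norm_star,
      CStarRing.norm_mem_unitary_mul _ (Unitary.star_mem u), n1, ← e] at n3
    have n4 : ‖star U * U' - 1‖ = ‖U - U'‖ := by
      rw [← u.1, ← mul_sub, CStarRing.norm_mem_unitary_mul _ (Unitary.star_mem u), norm_sub_rev]
    linarith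

end Pool.Agent.MP_9c5a49_an.H98
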