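import Pool.Agent.MP_9c5a49_an.H98.Kit1

/-!
The surjectivity on `K₀` from the analytic input.
-/

set_option autoImplicit false

namespace Pool.Agent.MP_9c5a49_an.H98

open Matrix

namespace Step0X

variable {B : Type} [CStarAlgebra B] {A I J : NonUnitalSubalgebra ℂ B} {ι : Type} [Fintype ι]
  [DecidableEq ι]

omit [DecidableEq ι] in
theorem idem_mk {s : Matrix ι ι ℂ} {t : Matrix ι ι B} (ht : Ent I t) (hs : s * s = s)
    (he : (sc s + t) * (sc s + t) = sc s + t) : mk I s t ht * mk I s t ht = mk I s t ht :=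
  (mk_mul_iff ht ht ht).2 ⟨hs, he⟩

theorem conj_ring (hK : SK0) {R : Type} [Ring R] {e f z y : Matrix ι ι R} (he : e * e = e)
    (h1 : z * y = 1) (h2 : y * z = 1) (h : e * z = z * f) : f * f = f ∧ k0 e = k0 f := by
  have hf : f = y * e * z := by rw [mul_assoc, h, ← mul_assoc, h2, one_mul]
  have hff : f * f = f := by
    rw [hf]
    calc y * e * z * (y * e * z) = y * e * (z * y) * e * z := by simp only [mul_assoc]
      _ = y * e * z := by rw [h1, mul_one, mul_assoc y e e, he]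
  refine ⟨hff, hK.eqv (e * z) (y * e) e f he hff ?_ ?_⟩
  · calc e * z * (y * e) = e * (z * y) * e := by simp only [mul_assoc]
      _ = e := by rw [h1, mul_one, he]
  · calc y * e * (e * z) = y * (e * e) * z := by simp only [mul_assoc]
      _ = f := by rw [he, hf]

theorem shift [PartialOrder B] [StarOrderedRing B] (hK : SK0) (h : Tri A I J) {s : Matrix ι ι ℂ}
    {t t2 g : Matrix ι ι B} (ht : Ent I t) (ht2 : Ent I t2) (hg : Ent J g) (hs : s * s = s)
    (he : (sc s + t) * (sc s + t) = sc s + t) (hf : (sc s + t2) * (sc s + t2) = sc s + t2)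
    (hn : nm ((t - t2 - g) * ((sc s + t2) + (sc s + t2) - 1)) < 1) :
    ∃ (j : Matrix ι ι B) (hj : Ent J j), (sc s + (t2 + j)) * (sc s + (t2 + j)) = sc s + (t2 + j) ∧
      k0 (mk I s t ht) = k0 (mk I s (t2 + j) (ht2.add (hj.mono h.JI))) := by
  set E : Matrix ι ι B := sc s + t with hE
  set F : Matrix ι ι B := sc s + t2 with hF
  have hEA : Ent A E := (Ent.sc h.one s).add (ht.mono h.IA)
  have hFA : Ent A F := (Ent.sc h.one s).add (ht2.mono h.IA)
  have hS : Ent A (F + F - 1) := (hFA.add hFA).sub (Ent.one h.one)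
  have hd : Ent I (t - t2 - g) := (ht.sub ht2).sub (hg.mono h.JI)
  have hu : Ent I ((t - t2 - g) * (F + F - 1)) := h.mulIr hd hS
  set u : Matrix ι ι B := (t - t2 - g) * (F + F - 1) with hudef
  obtain ⟨y, hy, h1, h2⟩ := neumann h.one h.closed (hu.mono h.IA) hn
  have hy' : Ent I (-(y * u)) := (h.mulIl hy hu).neg
  have ey : y = 1 + -(y * u) := by
    rw [mul_add, mul_one] at h2
    rw [← h2]
    abel
  have hj : Ent J (y * (g * F - E * g * (F + F - 1))) :=
    h.mulJl hy ((h.mulJr hg hFA).sub (h.mulJr (h.mulJl hEA hg) hS))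
  have key : E * (1 + u) = (1 + u) * (sc s + (t2 + y * (g * F - E * g * (F + F - 1)))) := by
    rw [← add_assoc, ← hF, mul_add (1 + u) F, ← mul_assoc (1 + u) y, h1, one_mul, hudef]
    have e1 : t - t2 - g = E - F - g := by rw [hE, hF]; abel
    rw [e1]
    have e2 : E * (1 + (E - F - g) * (F + F - 1)) =
        E + ((E * E) * F + (E * E) * F - E * E - E * (F * F) - E * (F * F) + E * F) -
          E * g * (F + F - 1) := by noncomm_ring
    have e3 : (1 + (E - F - g) * (F + F - 1)) * F =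
        F + (E - F - g) * (F * F + F * F - F) := by noncomm_ring
    rw [e2, e3, he, hf]
    have e4 : (E - F - g) * (F + F - F) = E * F - F * F - g * F := by noncomm_ring
    rw [e4, hf]
    abel
  have := conj_ring hK (e := mk I s t ht)
    (f := mk I s (t2 + y * (g * F - E * g * (F + F - 1))) (ht2.add (hj.mono h.JI)))
    (z := mk I 1 u hu) (y := mk I 1 (-(y * u)) hy') (idem_mk ht hs he)
    (((mk_mul_iff hu hy' Ent.zero).2 ⟨one_mul _, by rw [sc_one, add_zero, ← ey, h1]⟩).trans mk_one)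
    (((mk_mul_iff hy' hu Ent.zero).2 ⟨one_mul _, by rw [sc_one, add_zero, ← ey, h2]⟩).trans mk_one)
    (ext_op (by simp only [Matrix.map_mul, mk_scal, mul_one, one_mul])
      (by simp only [Matrix.map_mul, mk_op, sc_one]; exact key))
  exact ⟨_, hj, ((mk_mul_iff _ _ _).1 this.1).2, this.2⟩

theorem tri_bot (h : Tri A I J) : Tri A I ⊥ :=
  ⟨h.one, h.closed, bot_le, h.IA, h.Il, h.Ir,
    fun a _ t ht => by
      rw [NonUnitalAlgebra.mem_bot] at ht ⊢
      rw [ht, mul_zero],
    fun a _ t ht => by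
      rw [NonUnitalAlgebra.mem_bot] at ht ⊢
      rw [ht, zero_mul]⟩

theorem close [PartialOrder B] [StarOrderedRing B] (hK : SK0) (h : Tri A I J) {s : Matrix ι ι ℂ}
    {t t2 : Matrix ι ι B} (ht : Ent I t) (ht2 : Ent I t2) (hs : s * s = s)
    (he : (sc s + t) * (sc s + t) = sc s + t) (hf : (sc s + t2) * (sc s + t2) = sc s + t2)
    (hn : nm ((t - t2) * ((sc s + t2) + (sc s + t2) - 1)) < 1) :
    k0 (mk I s t ht) = k0 (mk I s t2 ht2) := by
  obtain ⟨j, hj, -, e⟩ := shift hK (tri_bot h) ht ht2 Ent.zero hs he hf (by rwa [sub_zero])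
  have hj0 : j = 0 := by
    ext a b
    exact NonUnitalAlgebra.mem_bot.1 (hj a b)
  rw [e]
  exact congrArg k0 (mk_congr _ _ rfl (by rw [hj0, add_zero]))

theorem path [PartialOrder B] [StarOrderedRing B] (hK : SK0) (h : Tri A I J) {s : Matrix ι ι ℂ}
    {t : ℝ → Matrix ι ι B} (ht : ∀ τ, Ent I (t τ)) (hc : Continuous t) (hs : s * s = s)
    (he : ∀ τ, (sc s + t τ) * (sc s + t τ) = sc s + t τ) :
    k0 (mk I s (t 0) (ht 0)) = k0 (mk I s (t 1) (ht 1)) := by
  have hl : IsLocallyConstant fun τ => k0 (mk I s (t τ) (ht τ)) := by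
    refine (IsLocallyConstant.iff_eventually_eq _).2 fun σ => ?_
    have h1 : Continuous fun τ => nm ((t τ - t σ) * ((sc s + t σ) + (sc s + t σ) - 1)) :=
      continuous_nm.comp ((hc.sub continuous_const).matrix_mul continuous_const)
    have h2 : ∀ᶠ τ in nhds σ, nm ((t τ - t σ) * ((sc s + t σ) + (sc s + t σ) - 1)) < 1 :=
      h1.continuousAt.eventually_lt continuousAt_const (by
        show nm _ < 1
        rw [sub_self, zero_mul, nm_zero]
        exact one_pos)
    exact h2.mono fun τ hτ => close hK h (ht τ) (ht σ) hs (he τ) (he σ) hτ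
  exact hl.apply_eq_of_preconnectedSpace 0 1

theorem mem_range (hK : SK0) (hJ : J ≤ I) {s : Matrix ι ι ℂ} {j : Matrix ι ι B} (hj : Ent J j)
    (hs : s * s = s) (he : (sc s + j) * (sc s + j) = sc s + j) :
    k0 (mk I s j (hj.mono hJ)) ∈ (K0u.map (uMap (NonUnitalSubalgebra.inclusion hJ))).range :=
  ⟨k0 (mk J s j hj), by rw [hK.map _ _ (idem_mk hj hs he), mk_incl]⟩

theorem exc_ring (hK : SK0) {R : Type} [Ring R] {e f : Matrix ι ι R} (he : e * e = e)
    (hf : f * f = f) :
    let w := fromBlocks f (1 - f) (1 - f) f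
    let e1 := fromBlocks 1 0 0 0 + w * fromBlocks (e - f) 0 0 0 * w
    e1 * e1 = e1 ∧ k0 e - k0 f = k0 e1 - k0 (fromBlocks (1 : Matrix ι ι R) 0 0 (0 : Matrix ι ι R)) := by
  intro w e1
  have h1 : f * (1 - f) = 0 := by rw [mul_sub, mul_one, hf, sub_self]
  have h2 : (1 - f) * f = 0 := by rw [sub_mul, one_mul, hf, sub_self]
  have h3 : (1 - f) * (1 - f) = 1 - f := by rw [sub_mul, one_mul, h1, sub_zero]
  have hw : w * w = 1 := by
    simp only [w, fromBlocks_multiply, h1, h2, h3, hf, add_sub_cancel, sub_add_cancel, add_zero,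
      fromBlocks_one]
  have h0 : fromBlocks f 0 0 (1 - f) * w = w * fromBlocks 1 0 0 0 + fromBlocks 0 0 0 0 := by
    simp only [w, fromBlocks_multiply, h1, h2, h3, hf, fromBlocks_add, Matrix.mul_zero,
      Matrix.zero_mul, add_zero, zero_add, Matrix.mul_one]
  rw [fromBlocks_zero, add_zero] at h0
  have h4 : fromBlocks e 0 0 (1 - f) * w = w * e1 := by
    have : fromBlocks e 0 0 (1 - f) = fromBlocks f 0 0 (1 - f) + fromBlocks (e - f) 0 0 0 := by
      simp only [fromBlocks_add, add_zero, add_sub_cancel]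
    rw [this, add_mul, h0, mul_add, ← mul_assoc, ← mul_assoc, hw, one_mul]
  have ha := conj_ring hK (e := fromBlocks e 0 0 (1 - f)) (by
    simp only [fromBlocks_multiply, he, h3, Matrix.mul_zero, Matrix.zero_mul, add_zero, zero_add])
    hw hw h4
  have hb := conj_ring hK (e := fromBlocks f 0 0 (1 - f)) (by
    simp only [fromBlocks_multiply, hf, h3, Matrix.mul_zero, Matrix.zero_mul, add_zero, zero_add])
    hw hw h0
  refine ⟨ha.1, ?_⟩
  rw [← ha.2, ← hb.2, hK.blocks _ _ he h3, hK.blocks _ _ hf h3]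
  abel

theorem exc (hK : SK0) (h : Tri A I J) {s : Matrix ι ι ℂ} {t j : Matrix ι ι B} (ht : Ent I t)
    (hj : Ent J j) (hs : s * s = s) (he : (sc s + (t + j)) * (sc s + (t + j)) = sc s + (t + j))
    (hf : (sc s + t) * (sc s + t) = sc s + t) :
    k0 (mk I s (t + j) (ht.add (hj.mono h.JI))) - k0 (mk I s t ht) ∈
      (K0u.map (uMap (NonUnitalSubalgebra.inclusion h.JI))).range := by
  obtain ⟨h1, h2⟩ := exc_ring hK (idem_mk (ht.add (hj.mono h.JI)) hs he) (idem_mk ht hs hf)
  set F : Matrix ι ι B := sc s + t with hF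
  have hFA : Ent A F := (Ent.sc h.one s).add (ht.mono h.IA)
  have hFA' : Ent A (1 - F) := (Ent.one h.one).sub hFA
  have hW : Ent A (fromBlocks F (1 - F) (1 - F) F) := hFA.fromBlocks hFA' hFA' hFA
  have hj1 : Ent J (fromBlocks F (1 - F) (1 - F) F * fromBlocks j 0 0 0 *
      fromBlocks F (1 - F) (1 - F) F) :=
    h.mulJr (h.mulJl hW (hj.fromBlocks Ent.zero Ent.zero Ent.zero)) hW
  have hs0 : (fromBlocks 1 0 0 0 : Matrix (ι ⊕ ι) (ι ⊕ ι) ℂ) * fromBlocks 1 0 0 0 =
      fromBlocks 1 0 0 0 := by simp [fromBlocks_multiply]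
  have e0 : (fromBlocks 1 0 0 0 : Matrix (ι ⊕ ι) (ι ⊕ ι) (Unitization ℂ I)) =
      mk I (fromBlocks 1 0 0 0) 0 Ent.zero := by
    rw [mk_zero, fromBlocks_map, Matrix.map_one _ (map_zero _) (map_one _),
      Matrix.map_zero _ (map_zero _)]
  have m1 : ∀ {S : Type} [Ring S] (φ : Unitization ℂ I →+* S) (a b : Matrix ι ι (Unitization ℂ I)),
      (fromBlocks 1 0 0 0 + fromBlocks b (1 - b) (1 - b) b * fromBlocks (a - b) 0 0 0 *
        fromBlocks b (1 - b) (1 - b) b).map φ =
      fromBlocks 1 0 0 0 + fromBlocks (b.map φ) (1 - b.map φ) (1 - b.map φ) (b.map φ) *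
        fromBlocks (a.map φ - b.map φ) 0 0 0 *
        fromBlocks (b.map φ) (1 - b.map φ) (1 - b.map φ) (b.map φ) := fun φ a b => by
    rw [Matrix.map_add _ (map_add φ), Matrix.map_mul, Matrix.map_mul]
    simp only [fromBlocks_map, Matrix.map_sub _ (map_sub φ),
      Matrix.map_one _ (map_zero φ) (map_one φ), Matrix.map_zero _ (map_zero φ)]
  have e1 : fromBlocks 1 0 0 0 + fromBlocks (mk I s t ht) (1 - mk I s t ht) (1 - mk I s t ht)
      (mk I s t ht) * fromBlocks (mk I s (t + j) (ht.add (hj.mono h.JI)) - mk I s t ht) 0 0 0 *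
      fromBlocks (mk I s t ht) (1 - mk I s t ht) (1 - mk I s t ht) (mk I s t ht) =
      mk I (fromBlocks 1 0 0 0) _ (hj1.mono h.JI) := by
    refine ext_op ?_ ?_
    · rw [m1, mk_scal, mk_scal, mk_scal, sub_self, fromBlocks_zero, Matrix.mul_zero,
        Matrix.zero_mul, add_zero]
    · rw [m1, mk_op, mk_op, mk_op, sc_fromBlocks, sc_one, sc_zero, ← hF, ← add_assoc, ← hF,
        add_sub_cancel_left]
  rw [e1] at h1 h2
  rw [h2, e0]
  exact sub_mem (mem_range hK h.JI hj1 hs0 ((mk_mul_iff _ _ _).1 h1).2)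
    (mem_range hK h.JI Ent.zero hs0 (by
      rw [add_zero]
      exact (sc_mul _ _).symm.trans (congrArg sc hs0)))

theorem main [PartialOrder B] [StarOrderedRing B] (hK : SK0) (h : Tri A I J) (hC : Core A I J)
    {s : Matrix ι ι ℂ} {T : Matrix ι ι B} (hT : Ent I T) (hs : s * s = s)
    (hp : (sc s + T) * (sc s + T) = sc s + T) :
    k0 (mk I s T hT) ∈ (K0u.map (uMap (NonUnitalSubalgebra.inclusion h.JI))).range := by
  set M : ℝ := nm (sc s : Matrix ι ι B) + nm T with hM
  have hM0 : 0 ≤ M := add_nonneg (nm_nonneg _) (nm_nonneg _)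
  obtain ⟨κ, _, _, ev, V, V', hSd, hV, hV', hVV, hV0, hn1, hn2, hη⟩ :=
    hC ι T T hT hT (1 / (4 * (2 * M + 1))) (by positivity)
  obtain ⟨hc, g, hg, hgn⟩ := hη T (Or.inl rfl)
  have hs0 : (sc s + 0 : Matrix ι ι B) * (sc s + 0) = sc s + 0 := by
    rw [add_zero]
    exact (sc_mul _ _).symm.trans (congrArg sc hs)
  have hp0 := mem_range hK h.JI (Ent.zero (I := J)) hs hs0
  -- block diagonal idempotents
  have blk : ∀ ev' : κ → Bool, ∃ h' : Ent I (amp κ T * qq ι ev'),
      (sc (amp κ s) + amp κ T * qq ι ev') * (sc (amp κ s) + amp κ T * qq ι ev') =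
        sc (amp κ s) + amp κ T * qq ι ev' ∧
      k0 (mk I (blockDiagonal fun _ : κ => s) _ h') =
        ∑ γ, if ev' γ then k0 (mk I s T hT) else k0 (mk I s 0 Ent.zero) := fun ev' => by
    have hγ : ∀ γ, Ent I (if ev' γ then T else 0) := fun γ => by
      split_ifs
      exacts [hT, Ent.zero]
    have hid : ∀ γ, mk I s _ (hγ γ) * mk I s _ (hγ γ) = mk I s _ (hγ γ) := fun γ =>
      idem_mk _ hs (by
        split_ifs
        exacts [hp, hs0])
    have e := bd_mul_qq ev' fun _ : κ => T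
    have h' : Ent I (amp κ T * qq ι ev') := h.mulIr hT.amp (Ent.qq h.one ev')
    have e' : mk I (blockDiagonal fun _ : κ => s) _ h' =
        blockDiagonal fun γ => mk I s _ (hγ γ) := by
      rw [← mk_blockDiagonal]
      exact mk_congr _ _ rfl e
    refine ⟨h', ?_, ?_⟩
    · refine ((mk_mul_iff h' h' h').1 ?_).2
      show mk I (blockDiagonal fun _ : κ => s) _ h' * mk I (blockDiagonal fun _ : κ => s) _ h' =
        mk I (blockDiagonal fun _ : κ => s) _ h'
      rw [e', ← blockDiagonal_mul]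
      exact congrArg blockDiagonal (funext hid)
    · rw [e', hK.diag _ hid]
      refine Finset.sum_congr rfl fun γ _ => ?_
      split_ifs with hγ'
      · exact congrArg k0 (mk_congr _ _ rfl (if_pos hγ'))
      · exact congrArg k0 (mk_congr _ _ rfl (if_neg hγ'))
  have hq : (1 - qq ι ev : Matrix (ι × κ) (ι × κ) B) = qq ι fun γ => !ev γ := by
    rw [qq, qq, ← diagonal_one, diagonal_sub]
    congr 1
    funext p
    cases hv : ev p.2 <;> simp
  obtain ⟨h0, i0, k0e⟩ := blk ev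
  obtain ⟨h1, i1, k1e⟩ := blk fun γ => !ev γ
  rw [← hq] at i1
  have hsa : amp κ s * amp κ s = amp κ s := by rw [← amp_mul, hs]
  have h1' : Ent I (amp κ T * (1 - qq ι ev)) := hq ▸ h1
  have ht : ∀ τ, Ent I (V τ * (amp κ T * (1 - qq ι ev)) * V' τ) := fun τ =>
    h.mulIr (h.mulIl (hVV τ).2.2.1 h1') (hVV τ).2.2.2.1
  have hop : ∀ τ, sc (amp κ s) + V τ * (amp κ T * (1 - qq ι ev)) * V' τ =
      V τ * (sc (amp κ s) + amp κ T * (1 - qq ι ev)) * V' τ := fun τ => by
    rw [mul_add, add_mul, sc_amp, (hVV τ).2.2.2.2 s, mul_assoc (amp κ (sc s)), (hVV τ).1, mul_one]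
  have hid : ∀ τ, (sc (amp κ s) + V τ * (amp κ T * (1 - qq ι ev)) * V' τ) *
      (sc (amp κ s) + V τ * (amp κ T * (1 - qq ι ev)) * V' τ) =
      sc (amp κ s) + V τ * (amp κ T * (1 - qq ι ev)) * V' τ := fun τ => by
    rw [hop]
    set X := sc (amp κ s) + amp κ T * (1 - qq ι ev)
    calc V τ * X * V' τ * (V τ * X * V' τ) = V τ * X * (V' τ * V τ) * X * V' τ := by
          simp only [mul_assoc]
      _ = V τ * X * V' τ := by rw [(hVV τ).2.1, mul_one, mul_assoc (V τ) X X, i1]
  have hpath := path hK h ht ((hV.matrix_mul continuous_const).matrix_mul hV') hsa hid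
  have hV0' : V' 0 = 1 := by simpa [hV0] using (hVV 0).1
  have e0 : mk I (amp κ s) _ (ht 0) = mk I (blockDiagonal fun _ : κ => s) _ h1 :=
    mk_congr _ _ rfl (by rw [hV0, hV0', one_mul, mul_one, hq])
  have hF : nm (sc (amp κ s) + V 1 * (amp κ T * (1 - qq ι ev)) * V' 1 : Matrix _ _ B) ≤ M := by
    refine (nm_add_le _ _).trans (add_le_add ?_ ?_)
    · rw [sc_amp]
      exact nm_amp _
    · simpa using nm_mul_le' (nm_mul_le' hn1 (nm_mul_le' (nm_amp T) (nm_one_sub_qq ev))) hn2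
  have hd : nm (amp κ T * qq ι ev - V 1 * (amp κ T * (1 - qq ι ev)) * V' 1 - g) ≤
      1 / (4 * (2 * M + 1)) + 1 / (4 * (2 * M + 1)) := by
    have e : amp κ T * qq ι ev - V 1 * (amp κ T * (1 - qq ι ev)) * V' 1 - g =
        (amp κ T * (qq ι ev - V 1 * (1 - qq ι ev) * V' 1) - g) -
          (V 1 * amp κ T - amp κ T * V 1) * (1 - qq ι ev) * V' 1 := by noncomm_ring
    rw [e]
    refine (nm_sub_le _ _).trans (add_le_add hgn ?_)
    simpa using nm_mul_le' (nm_mul_le' hc (nm_one_sub_qq ev)) hn2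
  obtain ⟨j, hj, ij, kj⟩ := shift hK h h0 (ht 1) hg hsa i0 (hid 1) (by
    refine lt_of_le_of_lt (nm_mul_le' hd ((nm_sub_le _ _).trans
      (add_le_add ((nm_add_le _ _).trans (add_le_add hF hF)) nm_one_le))) ?_
    have : (1 / (4 * (2 * M + 1)) + 1 / (4 * (2 * M + 1))) * (M + M + 1) = 1 / 2 := by
      field_simp
      ring
    rw [this]
    norm_num)
  have hx := exc hK h (ht 1) hj hsa ij (hid 1)
  rw [← kj, ← hpath, e0, k1e] at hx
  have hx' : (∑ γ, if ev γ then k0 (mk I s T hT) else k0 (mk I s 0 Ent.zero)) -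
      (∑ γ, if (!ev γ) then k0 (mk I s T hT) else k0 (mk I s 0 Ent.zero)) ∈
      (K0u.map (uMap (NonUnitalSubalgebra.inclusion h.JI))).range := by
    rw [← k0e]
    exact hx
  have e : (∑ γ, if ev γ then k0 (mk I s T hT) else k0 (mk I s 0 Ent.zero)) -
      (∑ γ, if (!ev γ) then k0 (mk I s T hT) else k0 (mk I s 0 Ent.zero)) =
      k0 (mk I s T hT) - k0 (mk I s 0 Ent.zero) := by
    rw [← Finset.sum_sub_distrib, ← one_zsmul (k0 (mk I s T hT) - k0 (mk I s 0 Ent.zero)), ← hSd,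
      Finset.sum_smul]
    refine Finset.sum_congr rfl fun γ _ => ?_
    cases ev γ <;> simp
  rw [e] at hx'
  simpa using add_mem hx' hp0

end Step0X

theorem rStep0 : SK0 → RStep0 := by
  intro hK B _ _ _ A I J h hC x
  have htop := hK.gen (K0u.map (uMap (NonUnitalSubalgebra.inclusion h.JI))).range fun n e he => by
    obtain ⟨s, t, ht, rfl⟩ := exists_mk e
    obtain ⟨hs, hp⟩ := (mk_mul_iff ht ht ht).1 he
    exact Step0X.main hK h hC ht hs hp
  obtain ⟨y, hy⟩ : x.1 ∈ (K0u.map (uMap (NonUnitalSubalgebra.inclusion h.JI))).range :=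
    htop ▸ AddSubgroup.mem_top _
  have e : (scal I).comp (uMap (NonUnitalSubalgebra.inclusion h.JI)) = scal J :=
    RingHom.ext fun z => uMap_fst _ z
  refine ⟨⟨y, ?_⟩, Subtype.ext hy⟩
  show K0u.map (scal J) y = 0
  rw [← e, ← K0u.map_map, hy]
  exact x.2

end Pool.Agent.MP_9c5a49_an.H98
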