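import Pool.Agent.MP_9c5a49_an.H98.Kit1

/-!
Surjectivity on `K₁`.
-/

set_option autoImplicit false

namespace Pool.Agent.MP_9c5a49_an.H98

open Matrix

namespace Step1X

section Ring

variable {R : Type} [Ring R]

theorem cut {a b q : R} (h : (1 + a) * (1 + b) = 1) (hq : q * q = q) (hb : b * q = q * b) :
    (1 + a * q) * (1 + b * q) = 1 := by
  have e1 : q * (b * q) = b * q := by rw [← mul_assoc, ← hb, mul_assoc, hq]
  have e2 : (1 + a * q) * (1 + b * q) = 1 + (a * q + b * q + a * (q * (b * q))) := by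
    noncomm_ring
  have e3 : a * q + b * q + a * (b * q) = ((1 + a) * (1 + b) - 1) * q := by noncomm_ring
  rw [e2, e1, e3, h, sub_self, zero_mul, add_zero]

theorem conj {x y v v' : R} (h : (1 + x) * (1 + y) = 1) (h2 : v' * v = 1) :
    (1 + v * x * v') * (1 + v * y * v') = 1 := by
  have e2 : (1 + v * x * v') * (1 + v * y * v') =
      1 + (v * x * v' + v * y * v' + v * x * (v' * v) * y * v') := by noncomm_ring
  have e3 : v * x * v' + v * y * v' + v * x * 1 * y * v' = v * ((1 + x) * (1 + y) - 1) * v' := by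
    noncomm_ring
  rw [e2, h2, e3, h, sub_self, mul_zero, zero_mul, add_zero]

theorem prod_inv {x y x' y' : R} (h1 : x * x' = 1) (h2 : y * y' = 1) : x * y * (y' * x') = 1 := by
  rw [mul_assoc, ← mul_assoc y, h2, one_mul, h1]

theorem compl_idem {q : R} (hq : q * q = q) : (1 - q) * (1 - q) = 1 - q := by
  rw [sub_mul, one_mul, mul_sub, mul_one, hq, sub_self, sub_zero]

theorem compl_comm {b q : R} (hb : b * q = q * b) : b * (1 - q) = (1 - q) * b := by
  rw [mul_sub, sub_mul, hb, mul_one, one_mul]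

theorem start {a b q : R} (hq : q * q = q) (hb : b * q = q * b) :
    a * q + (1 + a * q) * (1 * (b * (1 - q)) * 1) = a * q + b * (1 - q) := by
  have e1 : q * (b * q) = q * b := by rw [hb, ← mul_assoc, hq]
  have e2 : a * q + (1 + a * q) * (1 * (b * (1 - q)) * 1) =
      a * q + b * (1 - q) + a * (q * b - q * (b * q)) := by noncomm_ring
  rw [e2, e1, sub_self, mul_zero, add_zero]

theorem key {a b q v v' g g' : R} (h : (1 + a) * (1 + b) = 1) (hq : q * q = q)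
    (ha : a * q = q * a) (hb : b * q = q * b) :
    (q * g - (1 - q) * g') - (a * q + (1 + a * q) * (v * (b * (1 - q)) * v')) =
      (1 - q) * (b * (q - v * (1 - q) * v') - g') - q * (a * (q - v * (1 - q) * v') - g) -
        (1 + a * q) * (v * b - b * v) * (1 - q) * v' := by
  have e1 : q * (b * q) = b * q := by rw [← mul_assoc, ← hb, mul_assoc, hq]
  have e2 : q * (a * q) = a * q := by rw [← mul_assoc, ← ha, mul_assoc, hq]
  have e3 : a * q * b = -(q * a) - q * b := by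
    have : q * a * b = q * ((1 + a) * (1 + b) - 1) - q * a - q * b := by noncomm_ring
    rw [ha, this, h, sub_self, mul_zero, zero_sub]
  rw [← sub_eq_zero]
  have e4 : (q * g - (1 - q) * g') - (a * q + (1 + a * q) * (v * (b * (1 - q)) * v')) -
      ((1 - q) * (b * (q - v * (1 - q) * v') - g') - q * (a * (q - v * (1 - q) * v') - g) -
        (1 + a * q) * (v * b - b * v) * (1 - q) * v') =
      (q * (b * q) - b * q) + (q * (a * q) - a * q) +
        (-(q * a) - q * b - a * q * b) * (v * (1 - q) * v') := by noncomm_ring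
  rw [e4, e1, e2, e3]
  simp

end Ring

variable {B : Type} [CStarAlgebra B] {A I J : NonUnitalSubalgebra ℂ B} {ι : Type} [Fintype ι]
  [DecidableEq ι]

theorem unit_of (hK : ∀ a ∈ I, ∀ b ∈ A, a * b ∈ I) {t y : Matrix ι ι B} (ht : Ent I t)
    (hy : Ent A y) (e1 : (1 + t) * y = 1) (e2 : y * (1 + t) = 1) : IsUnit (mk I 1 t ht) := by
  have e : 1 + -(t * y) = y := by
    rw [← e1, add_mul, one_mul, add_neg_cancel_right]
  refine mk_isUnit ht (Ent.mul_of hK ht hy).neg ?_ ?_ <;> rw [e]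
  exacts [e1, e2]

theorem normal (hk : SK1 I) (x : K1 I) : ∃ (n : ℕ) (T T' : Matrix (Fin n) (Fin n) B)
    (hT : Ent I T) (hT' : Ent I T'), mk I 1 T hT * mk I 1 T' hT' = 1 ∧
      mk I 1 T' hT' * mk I 1 T hT = 1 ∧ x = k1 (mk I 1 T hT) := by
  obtain ⟨n, u₀, hu₀, rfl⟩ := hk.gen x
  have hs : IsUnit (u₀.map (scal I)) := hu₀.map (scal I).mapMatrix
  obtain ⟨s, hs⟩ := hs
  have hsi : IsUnit ((s⁻¹ : (Matrix (Fin n) (Fin n) ℂ)ˣ) : Matrix (Fin n) (Fin n) ℂ) :=
    Units.isUnit _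
  rw [← hk.scal _ u₀ hsi hu₀]
  obtain ⟨u, hu⟩ : IsUnit (((s⁻¹ : (Matrix (Fin n) (Fin n) ℂ)ˣ) : Matrix (Fin n) (Fin n) ℂ).map
      (algebraMap ℂ (Unitization ℂ I)) * u₀) :=
    (hsi.map (algebraMap ℂ (Unitization ℂ I)).mapMatrix).mul hu₀
  have h1 : (u : Matrix (Fin n) (Fin n) (Unitization ℂ I)).map (scal I) = 1 := by
    rw [hu, Matrix.map_mul, ← hs, ← mk_zero, mk_scal, Units.inv_mul]
  have h2 : ((u⁻¹ : (Matrix (Fin n) (Fin n) (Unitization ℂ I))ˣ) :
      Matrix (Fin n) (Fin n) (Unitization ℂ I)).map (scal I) = 1 := by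
    have h3 := congrArg (fun a => Matrix.map a (scal I)) u.mul_inv
    simp only [Matrix.map_mul] at h3
    rwa [h1, one_mul, Matrix.map_one _ (map_zero _) (map_one _)] at h3
  obtain ⟨s₁, T, hT, e1⟩ := exists_mk (u : Matrix (Fin n) (Fin n) (Unitization ℂ I))
  obtain ⟨s₂, T', hT', e2⟩ := exists_mk ((u⁻¹ : (Matrix (Fin n) (Fin n) (Unitization ℂ I))ˣ) :
      Matrix (Fin n) (Fin n) (Unitization ℂ I))
  rw [e1, mk_scal] at h1
  rw [e2, mk_scal] at h2
  subst h1 h2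
  refine ⟨n, T, T', hT, hT', ?_, ?_, ?_⟩
  · rw [← e1, ← e2, u.mul_inv]
  · rw [← e1, ← e2, u.inv_mul]
  · rw [← e1, hu]

theorem start_eq {κ : Type} [Fintype κ] [DecidableEq κ] (ev : κ → Bool) (T T' : Matrix ι ι B) :
    amp κ T * qq ι ev + amp κ T' * (1 - qq ι ev) =
      blockDiagonal fun γ => if ev γ then T else T' := by
  rw [mul_sub, mul_one, amp, amp, bd_mul_qq, bd_mul_qq, ← blockDiagonal_sub, ← blockDiagonal_add]
  congr 1
  funext γ
  cases hv : ev γ <;> simp [hv]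

end Step1X

open Step1X in
theorem rStep1 : RK1 → RStep1 := by
  intro hK B _ _ _ A I J h hC x
  have hk := hK I
  obtain ⟨n, T, T', hT, hT', m1, m2, rfl⟩ := normal hk x
  have e1 : (1 + T) * (1 + T') = 1 := by
    have := ((mk_mul_iff hT hT' Ent.zero).1 (m1.trans mk_one.symm)).2
    rwa [sc_one, add_zero] at this
  have e2 : (1 + T') * (1 + T) = 1 := by
    have := ((mk_mul_iff hT' hT Ent.zero).1 (m2.trans mk_one.symm)).2
    rwa [sc_one, add_zero] at this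
  have n1 := nm_nonneg T
  have n2 := nm_nonneg T'
  obtain ⟨η, hη, hη1⟩ : ∃ η : ℝ, 0 < η ∧
      (1 + nm T) * (1 + nm T') * ((3 + nm T) * η) < 1 := by
    have hp : 0 < (1 + nm T) * (1 + nm T') * (3 + nm T) := by positivity
    refine ⟨1 / (2 * ((1 + nm T) * (1 + nm T') * (3 + nm T))), by positivity, ?_⟩
    rw [← mul_assoc, mul_one_div, div_lt_one (by positivity)]
    linarith
  obtain ⟨κ, _, _, ev, V, V', hSd, hVc, hVc', hV, hV0, hV1, hV1', hS⟩ :=
    hC (Fin n) T T' hT hT' η hη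
  obtain ⟨-, g₁, hg₁, hn₁⟩ := hS T (Or.inl rfl)
  obtain ⟨hc₂, g₂, hg₂, hn₂⟩ := hS T' (Or.inr rfl)
  have hV0' : V' 0 = 1 := by
    have := (hV 0).1
    rwa [hV0, one_mul] at this
  have f1 : (1 + amp κ T) * (1 + amp κ T') = 1 := by
    rw [← amp_one, ← amp_add, ← amp_add, ← amp_mul, e1]
  have f2 : (1 + amp κ T') * (1 + amp κ T) = 1 := by
    rw [← amp_one, ← amp_add, ← amp_add, ← amp_mul, e2]
  have hs0 := start_eq ev T T'
  have na : nm (amp κ T) ≤ nm T := nm_amp T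
  have nb : nm (amp κ T') ≤ nm T' := nm_amp T'
  have ha : Ent I (amp κ T) := hT.amp
  have hb : Ent I (amp κ T') := hT'.amp
  have ca := amp_qq ev T
  have cb := amp_qq ev T'
  have hq : (qq (Fin n) ev : Matrix _ _ B) * qq (Fin n) ev = qq (Fin n) ev := qq_idem ev
  have nq : nm (qq (Fin n) ev : Matrix _ _ B) ≤ 1 := nm_qq ev
  have nq' : nm (1 - qq (Fin n) ev : Matrix _ _ B) ≤ 1 := nm_one_sub_qq ev
  have hqA : Ent A (qq (Fin n) ev : Matrix _ _ B) := Ent.qq h.one ev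
  generalize amp κ T = a at *
  generalize amp κ T' = b at *
  generalize (qq (Fin n) ev : Matrix _ _ B) = q at *
  have h1A : Ent A (1 : Matrix (Fin n × κ) (Fin n × κ) B) := Ent.one h.one
  have hqA' : Ent A (1 - q) := h1A.sub hqA
  have haq : Ent I (a * q) := h.mulIr ha hqA
  have hbq : Ent I (b * q) := h.mulIr hb hqA
  obtain ⟨t, ht⟩ : ∃ t : ℝ → Matrix (Fin n × κ) (Fin n × κ) B,
      ∀ τ, t τ = a * q + (1 + a * q) * (V τ * (b * (1 - q)) * V' τ) := ⟨_, fun _ => rfl⟩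
  obtain ⟨y, hy⟩ : ∃ y : ℝ → Matrix (Fin n × κ) (Fin n × κ) B,
      ∀ τ, y τ = (1 + V τ * (a * (1 - q)) * V' τ) * (1 + b * q) := ⟨_, fun _ => rfl⟩
  have ht1 : ∀ τ, 1 + t τ = (1 + a * q) * (1 + V τ * (b * (1 - q)) * V' τ) := fun τ => by
    rw [ht, mul_add (1 + a * q), mul_one, add_assoc]
  have htI : ∀ τ, Ent I (t τ) := fun τ => by
    rw [ht]
    exact haq.add (h.mulIl (h1A.add (haq.mono h.IA))
      (h.mulIr (h.mulIl (hV τ).2.2.1 (h.mulIr hb hqA')) (hV τ).2.2.2.1))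
  have hyA : ∀ τ, Ent A (y τ) := fun τ => by
    rw [hy]
    exact (h1A.add (((hV τ).2.2.1.mul ((ha.mono h.IA).mul hqA')).mul (hV τ).2.2.2.1)).mul
      (h1A.add (hbq.mono h.IA))
  have hty : ∀ τ, (1 + t τ) * y τ = 1 := fun τ => by
    rw [ht1, hy]
    exact prod_inv (cut f1 hq cb) (conj (cut f2 (compl_idem hq) (compl_comm ca)) (hV τ).2.1)
  have hyt : ∀ τ, y τ * (1 + t τ) = 1 := fun τ => by
    rw [ht1, hy]
    exact prod_inv (conj (cut f1 (compl_idem hq) (compl_comm cb)) (hV τ).2.1) (cut f2 hq ca)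
  have htc : Continuous t := by
    rw [show t = fun τ => a * q + (1 + a * q) * (V τ * (b * (1 - q)) * V' τ) from funext ht]
    exact continuous_const.add (continuous_const.matrix_mul
      ((hVc.matrix_mul continuous_const).matrix_mul hVc'))
  have hIr : ∀ a ∈ I, ∀ b ∈ A, a * b ∈ I := fun a h1 b h2 => h.Ir b h2 a h1
  have hJr : ∀ a ∈ J, ∀ b ∈ A, a * b ∈ J := fun a h1 b h2 => h.Jr b h2 a h1
  have k01 : k1 (mk I 1 (t 0) (htI 0)) = k1 (mk I 1 (t 1) (htI 1)) :=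
    hk.htpy _ _ (htpy_mk 1 t htI htc fun τ _ => unit_of hIr (htI τ) (hyA τ) (hty τ) (hyt τ))
  have k00 : k1 (mk I 1 (t 0) (htI 0)) = k1 (mk I 1 T hT) := by
    have hE : ∀ γ, Ent I (if ev γ then T else T') := fun γ => by
      split_ifs
      exacts [hT, hT']
    rw [← hk.diag ev _ _ hSd m1 m2, mk_congr (htI 0) (Ent.blockDiagonal hE) blockDiagonal_one.symm
      (by rw [ht, hV0, hV0', start hq cb, hs0])]
    refine congrArg k1 ((mk_blockDiagonal (fun _ => 1) _ hE).trans ?_)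
    congr 1
    funext γ
    by_cases hv : ev γ = true
    · exact (mk_congr _ hT rfl (if_pos hv)).trans (if_pos hv).symm
    · exact (mk_congr _ hT' rfl (if_neg hv)).trans (if_neg hv).symm
  obtain ⟨g, hg⟩ : ∃ g, g = q * g₁ - (1 - q) * g₂ := ⟨_, rfl⟩
  have hgJ : Ent J g := by
    rw [hg]
    exact (h.mulJl hqA hg₁).sub (h.mulJl hqA' hg₂)
  have hdI : Ent I (g - t 1) := (hgJ.mono h.JI).sub (htI 1)
  have one_add : ∀ {z : Matrix (Fin n × κ) (Fin n × κ) B} {c : ℝ}, nm z ≤ c →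
      nm (1 + z) ≤ 1 + c := fun hz => (nm_add_le _ _).trans (add_le_add nm_one_le hz)
  have nd : nm (g - t 1) ≤ (3 + nm T) * η := by
    rw [hg, ht, key f1 hq ca cb]
    have a1 := nm_mul_le' nq' hn₂
    have a2 := nm_mul_le' nq hn₁
    have a3 := nm_mul_le' (nm_mul_le' (nm_mul_le' (one_add (nm_mul_le' na nq)) hc₂) nq') hV1'
    refine (nm_sub_le _ _).trans ((add_le_add (nm_sub_le _ _) le_rfl).trans ?_)
    nlinarith
  have ny : nm (y 1) ≤ (1 + nm T) * (1 + nm T') := by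
    rw [hy]
    have a1 := nm_mul_le' (one_add (nm_mul_le' (nm_mul_le' hV1 (nm_mul_le' na nq')) hV1'))
      (one_add (nm_mul_le' nb nq))
    simpa using a1
  have hpI : ∀ s : ℝ, Ent I (t 1 + (s : ℂ) • (g - t 1)) := fun s => (htI 1).add (hdI.smul _)
  have hinv : ∀ s ∈ Set.Icc (0 : ℝ) 1, ∃ z, Ent A z ∧ (1 + (t 1 + (s : ℂ) • (g - t 1))) * z = 1 ∧
      z * (1 + (t 1 + (s : ℂ) • (g - t 1))) = 1 := by
    intro s hs
    have hn : nm ((s : ℂ) • (y 1 * (g - t 1))) < 1 := by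
      rw [nm_smul, Complex.norm_real, Real.norm_eq_abs, abs_of_nonneg hs.1]
      exact (mul_le_of_le_one_left (nm_nonneg _) hs.2).trans_lt
        ((nm_mul_le' ny nd).trans_lt hη1)
    obtain ⟨z, hz, z1, z2⟩ := neumann h.one h.closed
      (((hyA 1).mul (hdI.mono h.IA)).smul (s : ℂ)) hn
    have e : 1 + (t 1 + (s : ℂ) • (g - t 1)) =
        (1 + t 1) * (1 + (s : ℂ) • (y 1 * (g - t 1))) := by
      rw [mul_add (1 + t 1), mul_one, mul_smul_comm, ← mul_assoc, hty, one_mul, add_assoc]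
    rw [e]
    exact ⟨z * y 1, hz.mul (hyA 1), prod_inv (hty 1) z1, prod_inv z2 (hyt 1)⟩
  have k12 : k1 (mk I 1 (t 1 + ((0 : ℝ) : ℂ) • (g - t 1)) (hpI 0)) =
      k1 (mk I 1 (t 1 + ((1 : ℝ) : ℂ) • (g - t 1)) (hpI 1)) := by
    refine hk.htpy _ _ (htpy_mk 1 (fun s : ℝ => t 1 + (s : ℂ) • (g - t 1)) hpI
      (continuous_const.add (Complex.continuous_ofReal.smul continuous_const)) fun s hs => ?_)
    obtain ⟨z, hz, z1, z2⟩ := hinv s hs
    exact unit_of hIr (hpI s) hz z1 z2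
  have p0 : t 1 + ((0 : ℝ) : ℂ) • (g - t 1) = t 1 := by simp
  have p1 : t 1 + ((1 : ℝ) : ℂ) • (g - t 1) = g := by simp
  rw [mk_congr (hpI 0) (htI 1) rfl p0, mk_congr (hpI 1) (hgJ.mono h.JI) rfl p1] at k12
  obtain ⟨z, hz, z1, z2⟩ := hinv 1 ⟨zero_le_one, le_rfl⟩
  rw [p1] at z1 z2
  refine ⟨k1 (mk J 1 g hgJ), ?_⟩
  rw [hk.map _ _ _ (unit_of hJr hgJ hz z1 z2), mk_incl, ← k12, ← k01, k00]

end Pool.Agent.MP_9c5a49_an.H98
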