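import Pool.Agent.MP_9c5a49_an.H98.RCore
import Pool.Agent.MP_9c5a49_an.H98.RBlock
import Pool.Agent.MP_9c5a49_an.H98.RBott
import Pool.Agent.MP_9c5a49_an.H98.RFold
import Pool.Agent.MP_9c5a49_an.H98.RK0
import Pool.Agent.MP_9c5a49_an.H98.RK1
import Pool.Agent.MP_9c5a49_an.H98.ROne
import Pool.Agent.MP_9c5a49_an.H98.RPol
import Pool.Agent.MP_9c5a49_an.H98.RStep0
import Pool.Agent.MP_9c5a49_an.H98.RStep1

set_option autoImplicit false

namespace Pool.Agent.MP_9c5a49_an.H98

theorem main (X : Type) [MetricSpace X] (hX : BddGeom X) (hl : LocEmb X)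
    (I : NonUnitalSubalgebra ℂ (BX X)) (hI : IsIdeal I) :
    Function.Surjective (K0.map (incl hI)) ∧
      Function.Surjective (K1.map (incl hI) (incl_cont hI)) :=
  main_of (rStep0 rK0) (rStep1 rK1) rGeom (rCore (rBott rPol (rBlock rOne)) rColor rFold) X hX hl
    I hI

end Pool.Agent.MP_9c5a49_an.H98
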