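import Pool.Agent.MP_9c5a49_an.H98.RLoc

/-!
The analytic input for spaces that embed locally in finite-dimensional spaces.
-/

set_option autoImplicit false

namespace Pool.Agent.MP_9c5a49_an.H98

open Matrix
open scoped ComplexOrder

theorem CoreX.approx {X ι : Type} [MetricSpace X] [Fintype ι] {S : Matrix ι ι (BX X)}
    (hS : Ent (Roe X) S) {δ : ℝ} (hδ : 0 < δ) : ∃ (R : ℝ) (S1 : Matrix ι ι (BX X)),
      (∀ i j, ‖S i j - S1 i j‖ ≤ δ) ∧ ∀ i j x y, ent (S1 i j) x y ≠ 0 → dist x y ≤ R := by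
  choose s hs hd using fun i j => Metric.mem_closure_iff.1 (hS i j) δ hδ
  choose R hR using hs
  refine ⟨∑ p : ι × ι, |R p.1 p.2|, of s, fun i j => ?_, fun i j x y h => ?_⟩
  · exact (dist_eq_norm _ _).symm.trans_le (hd i j).le
  · exact ((hR i j x y h).trans (le_abs_self _)).trans
      (Finset.single_le_sum (f := fun p : ι × ι => |R p.1 p.2|) (fun _ _ => abs_nonneg _)
        (Finset.mem_univ (i, j)))

theorem rCore (hB : RBott) (hc : RColor) (hF : RFold) : RCore := by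
  intro X _ hX hl I hI ι _ _ T T' hT hT' η hη
  classical
  obtain ⟨δ, hδ, hsm⟩ := nm_small (B := BX X) (ι := ι) (η := η / 8) (by positivity)
  obtain ⟨R, hR⟩ : ∃ R : ℝ, ∀ S, S = T ∨ S = T' → ∃ S1 : Matrix ι ι (BX X),
      (∀ i j, ‖S i j - S1 i j‖ ≤ δ / 2) ∧ ∀ i j x y, ent (S1 i j) x y ≠ 0 → dist x y ≤ R := by
    obtain ⟨R, S1, h1, h2⟩ := CoreX.approx (hT.mono hI.le) (half_pos hδ)
    obtain ⟨R', S1', h1', h2'⟩ := CoreX.approx (hT'.mono hI.le) (half_pos hδ)
    refine ⟨max R R', ?_⟩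
    rintro S (rfl | rfl)
    exacts [⟨S1, h1, fun i j x y h => (h2 i j x y h).trans (le_max_left _ _)⟩,
      ⟨S1', h1', fun i j x y h => (h2' i j x y h).trans (le_max_right _ _)⟩]
  obtain ⟨N, c, hcol⟩ := hc X hX (2 * R)
  obtain ⟨c0, hc0, hc1⟩ : ∃ c0 : ℝ, 0 < c0 ∧ ∀ S, S = T ∨ S = T' → nm S + η / 8 ≤ c0 := by
    refine ⟨nm T + nm T' + η, by linarith [nm_nonneg T, nm_nonneg T'], ?_⟩
    rintro S (rfl | rfl)
    · linarith [nm_nonneg T']
    · linarith [nm_nonneg T]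
  have hε : 0 < η / (2 * (N + 1) * c0) := by positivity
  have hr : 0 < 2 * c0 / η := by positivity
  obtain ⟨S0, D, M, Φ, hRS, hS0, hΦ, hnear, hfar⟩ := hF X hl R _ (2 * c0 / η) hε
  obtain ⟨κ, _, _, ev, v, U, K, hev, hU⟩ := hB D M
  have hU1 := fun x => (hU (Φ x) (hΦ x)).1
  have hn : ∀ τ x, nm (U τ (Φ x)) ≤ 1 := fun τ x => nm_unitary (hU1 x τ).2
  have hb : ∀ τ, BdM fun x => U τ (Φ x) := fun τ => ⟨1, zero_le_one, hn τ⟩
  have hK : ∀ τ σ x, nm (U τ (Φ x) - U σ (Φ x)) ≤ |K| * |τ - σ| := fun τ σ x =>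
    ((hU (Φ x) (hΦ x)).2.2.1 τ σ).trans (by gcongr; exact le_abs_self K)
  have hV : nm (dg ι fun x => U 1 (Φ x)) ≤ 1 := nm_dg zero_le_one (hn 1)
  have hV' : nm (dg ι fun x => (U 1 (Φ x))ᴴ) ≤ 1 :=
    nm_dg zero_le_one fun x => (nm_star _).trans_le (hn 1 x)
  have hA : ∀ M : X → Matrix κ κ ℂ, Ent (Roe X) (dg ι M) := fun M => (dg_ent M).mono finProp_le_Roe
  refine ⟨κ, inferInstance, inferInstance, ev, fun τ => dg ι fun x => U τ (Φ x),
    fun τ => dg ι fun x => (U τ (Φ x))ᴴ, hev, continuous_of_nm (K := |K|) fun τ σ => ?_,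
    continuous_of_nm (K := |K|) fun τ σ => ?_, fun τ => ⟨?_, ?_, hA _, hA _, dg_comm_sc (hb τ)⟩,
    ?_, hV, hV', fun S hS => ?_⟩
  · rw [← dg_sub (hb τ) (hb σ)]
    exact nm_dg (by positivity) (hK τ σ)
  · rw [← dg_sub (hb τ).star (hb σ).star]
    refine nm_dg (by positivity) fun x => ?_
    rw [← conjTranspose_sub, nm_star]
    exact hK τ σ x
  · rw [← dg_mul (hb τ) (hb τ).star, ← dg_one]
    exact congrArg _ (funext fun x => (hU1 x τ).1)
  · rw [← dg_mul (hb τ).star (hb τ), ← dg_one]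
    exact congrArg _ (funext fun x => (hU1 x τ).2)
  · show dg ι _ = 1
    rw [← dg_one]
    exact congrArg _ (funext fun x => (hU (Φ x) (hΦ x)).2.1)
  obtain ⟨S1, h1, h2⟩ := hR S hS
  have hSI : Ent I S := by rcases hS with rfl | rfl <;> assumption
  have hc2 := hc1 S hS
  have h3 : nm (S - S1) ≤ η / 8 := hsm _ fun i j => (h1 i j).trans (half_le_self hδ.le)
  constructor
  · have h4 : nm S1 ≤ c0 := by
      have := nm_sub_le S (S - S1)
      rw [sub_sub_cancel] at this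
      linarith
    have h5 := rComm X ι κ S1 (fun x => U 1 (Φ x)) R _ 1 N c h2 (hn 1) hε.le
      (fun x y h => (hU (Φ x) (hΦ x)).2.2.2.1 (Φ y) _ hε.le (hnear x y h)) hcol
    have h6 : N * (η / (2 * (N + 1) * c0)) * nm S1 ≤ η / 2 := by
      calc _ ≤ (N + 1) * (η / (2 * (N + 1) * c0)) * c0 := by
            gcongr
            · exact nm_nonneg _
            · linarith
        _ = η / 2 := by field_simp
    beta_reduce
    generalize (dg ι fun x => U 1 (Φ x)) = V at h5 hV ⊢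
    have e : V * amp κ S - amp κ S * V =
        (V * amp κ S1 - amp κ S1 * V) + (V * amp κ (S - S1) - amp κ (S - S1) * V) := by
      rw [amp_sub]
      noncomm_ring
    have h7 := nm_mul_le' hV ((nm_amp (κ := κ) _).trans h3)
    have h8 := nm_mul_le' ((nm_amp (κ := κ) _).trans h3) hV
    rw [e]
    refine (nm_add_le _ _).trans ?_
    linarith [nm_sub_le (V * amp κ (S - S1)) (amp κ (S - S1) * V)]
  · let Y : κ → Set X := fun γ => {x | ∑ c, (v γ c - Φ x c) ^ 2 ≤ (2 * c0 / η) ^ 2}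
    have hY : ∀ γ, ∀ y ∈ Y γ, ∀ y' ∈ Y γ, dist y y' ≤ 3 * S0 → dist y y' < S0 := by
      intro γ y hy y' hy' h
      by_contra h'
      refine absurd (hfar y y' (not_lt.1 h') h) (not_lt.2 ?_)
      have hy1 : ∑ c, (v γ c - Φ y c) ^ 2 ≤ (2 * c0 / η) ^ 2 := hy
      have hy2 : ∑ c, (v γ c - Φ y' c) ^ 2 ≤ (2 * c0 / η) ^ 2 := hy'
      calc ∑ c, (Φ y c - Φ y' c) ^ 2
          ≤ ∑ c, (2 * (v γ c - Φ y c) ^ 2 + 2 * (v γ c - Φ y' c) ^ 2) :=
            Finset.sum_le_sum fun c _ => by nlinarith [sq_nonneg (2 * v γ c - Φ y c - Φ y' c)]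
        _ ≤ _ := by
            rw [Finset.sum_add_distrib, ← Finset.mul_sum, ← Finset.mul_sum]
            linarith
    choose g hg hg' using fun γ i j =>
      rLoc hc X hX I hI (S i j) (hSI i j) (S1 i j) R S0 (Y γ) (h2 i j) hRS hS0 (hY γ)
    have hq := BdM.const (X := X) (qe ev)
    have hone := BdM.const (X := X) (1 : Matrix κ κ ℂ)
    have hbe := hq.sub (((hb 1).mul (hone.sub hq)).mul (hb 1).star)
    have hbc : BdM fun x => chi v (2 * c0 / η) (Φ x) := ⟨1, zero_le_one, fun x => nm_le_one (by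
      simp only [chi]
      rw [diagonal_conjTranspose, diagonal_mul_diagonal]
      congr 1
      funext β
      rw [Pi.star_apply]
      split_ifs <;> simp)⟩
    have eE : (qq ι ev - (dg ι fun x => U 1 (Φ x)) * (1 - qq ι ev) * dg ι fun x => (U 1 (Φ x))ᴴ) =
        dg ι fun x => qe ev - U 1 (Φ x) * (1 - qe ev) * (U 1 (Φ x))ᴴ := by
      rw [dg_sub hq (((hb 1).mul (hone.sub hq)).mul (hb 1).star),
        dg_mul ((hb 1).mul (hone.sub hq)) (hb 1).star, dg_mul (hb 1) (hone.sub hq),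
        dg_sub hone hq, dg_one, dg_qe]
    have hE : nm (dg ι fun x => qe ev - U 1 (Φ x) * (1 - qe ev) * (U 1 (Φ x))ᴴ) ≤ 2 := by
      rw [← eE]
      refine (nm_sub_le _ _).trans ?_
      linarith [nm_qq (B := BX X) (ι := ι) ev,
        nm_mul_le' (nm_mul_le' hV (nm_one_sub_qq (B := BX X) (ι := ι) ev)) hV']
    have hfar' := nm_dg (ι := ι) (inv_nonneg.2 hr.le) fun x => (hU (Φ x) (hΦ x)).2.2.2.2 _ hr
    rw [dg_mul (hone.sub hbc) hbe, dg_sub hone hbc, dg_one] at hfar'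
    have hloc : nm (amp κ S * dg ι (fun x => chi v (2 * c0 / η) (Φ x)) -
        blockDiagonal fun γ => of (g γ)) ≤ η / 8 := by
      have e : amp κ S * dg ι (fun x => chi v (2 * c0 / η) (Φ x)) -
          (blockDiagonal fun γ => of (g γ)) =
          blockDiagonal fun γ => of fun i j => S i j * mulf ((Y γ).indicator 1) - g γ i j := by
        ext1 ⟨i, β⟩ ⟨j, γ⟩
        simp only [chi]
        rw [dg_diagonal, Matrix.sub_apply, mul_diagonal]
        simp only [amp, blockDiagonal_apply, of_apply]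
        split_ifs with h
        · subst h
          congr 3
        · rw [zero_mul, sub_zero]
      rw [e]
      exact nm_blockDiagonal (by positivity) fun γ => hsm _ fun i j =>
        (hg' γ i j).trans (by linarith [h1 i j])
    show ∃ g, Ent (geom I) g ∧ nm (amp κ S * (qq ι ev - (dg ι fun x => U 1 (Φ x)) * (1 - qq ι ev) *
      dg ι fun x => (U 1 (Φ x))ᴴ) - g) ≤ η
    rw [eE]
    have hEA := hA fun x => qe ev - U 1 (Φ x) * (1 - qe ev) * (U 1 (Φ x))ᴴ
    generalize (dg ι fun x => qe ev - U 1 (Φ x) * (1 - qe ev) * (U 1 (Φ x))ᴴ) = E at *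
    generalize (dg ι fun x => chi v (2 * c0 / η) (Φ x)) = χ at *
    refine ⟨(blockDiagonal fun γ => of (g γ)) * E, (rGeom X I hI).mulJr
      (Ent.blockDiagonal fun γ i j => NonUnitalSubalgebra.le_topologicalClosure _ (hg γ i j)) hEA,
      ?_⟩
    have e : amp κ S * E - (blockDiagonal fun γ => of (g γ)) * E =
        (amp κ S * χ - blockDiagonal fun γ => of (g γ)) * E + amp κ S * ((1 - χ) * E) := by
      noncomm_ring
    have h4 := nm_mul_le' hloc hE
    have h5 := nm_mul_le' ((nm_amp (κ := κ) S).trans (show nm S ≤ c0 by linarith)) hfar'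
    have h6 : c0 * (2 * c0 / η)⁻¹ = η / 2 := by field_simp
    rw [e]
    refine (nm_add_le _ _).trans ?_
    linarith

end Pool.Agent.MP_9c5a49_an.H98
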