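import Pool.Agent.MP_9c5a49_an.H98.Kit2

/-!
Localisation inside an ideal, commutator estimate, the geometric ideal.
-/

set_option autoImplicit false

namespace Pool.Agent.MP_9c5a49_an.H98

open Matrix Filter Topology
open scoped ComplexOrder

theorem rGeom : RGeom := fun X _ I hI => by
  have hc : Continuous (Function.uncurry fun a t : BX X => a * t) := continuous_mul
  have hc' : Continuous (Function.uncurry fun a t : BX X => t * a) :=
    continuous_snd.mul continuous_fst
  refine ⟨?_, NonUnitalSubalgebra.isClosed_topologicalClosure _, geom_le hI, hI.le, hI.left,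
    hI.right, fun a ha t ht => ?_, fun a ha t ht => ?_⟩
  · rw [← mulf_one]
    exact mulf_mem_Roe _
  · exact map_mem_closure₂ hc ha ht fun a ha t ht =>
      ⟨hI.left a (finProp_le_Roe ha) t ht.1, mul_mem ha ht.2⟩
  · exact map_mem_closure₂ (f := fun a t : BX X => t * a) hc' ha ht fun a ha t ht =>
      ⟨hI.right a (finProp_le_Roe ha) t ht.1, mul_mem ht.2 ha⟩

namespace LocX

variable {X : Type}

/-- The compression to the diagonal blocks of a finite colouring. -/
noncomputable def th {N : ℕ} (c : X → Fin (N + 1)) (T : BX X) : BX X :=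
  ((N + 1 : ℕ) : ℂ)⁻¹ • ∑ ψ : AddChar (Fin (N + 1)) ℂ,
    mulf (fun x => ψ (c x)) * T * mulf fun x => ψ (-c x)

theorem bd_char {N : ℕ} (c : X → Fin (N + 1)) (ψ : AddChar (Fin (N + 1)) ℂ) :
    Bd fun x => ψ (c x) := ⟨1, zero_le_one, fun _ => (AddChar.norm_apply _ _).le⟩

theorem ent_th {N : ℕ} (c : X → Fin (N + 1)) (T : BX X) (x y : X) :
    ent (th c T) x y = if c x = c y then ent T x y else 0 := by
  have e : ∀ ψ : AddChar (Fin (N + 1)) ℂ,
      ent (mulf (fun x => ψ (c x)) * T * mulf fun x => ψ (-c x)) x y =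
        ψ (c x - c y) * ent T x y := fun ψ => by
    rw [ent_mul_mulf (bd_char (fun x => -c x) ψ), ent_mulf_mul (bd_char c ψ), sub_eq_add_neg,
      AddChar.map_add_eq_mul]
    ring
  rw [th, ent_smul, ent_sum]
  simp only [e]
  rw [← Finset.sum_mul, AddChar.sum_apply_eq_ite, Fintype.card_fin]
  have : ((N + 1 : ℕ) : ℂ) ≠ 0 := Nat.cast_ne_zero.2 (Nat.succ_ne_zero N)
  simp only [sub_eq_zero]
  split_ifs
  · rw [← mul_assoc, inv_mul_cancel₀ this, one_mul]
  · rw [zero_mul, mul_zero]

theorem norm_th {N : ℕ} (c : X → Fin (N + 1)) (T : BX X) : ‖th c T‖ ≤ ‖T‖ := by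
  have e : ∀ ψ : AddChar (Fin (N + 1)) ℂ,
      ‖mulf (fun x => ψ (c x)) * T * mulf fun x => ψ (-c x)‖ ≤ ‖T‖ := fun ψ => by
    have h1 := norm_mulf_le (f := fun x => ψ (c x)) zero_le_one fun _ => (AddChar.norm_apply _ _).le
    have h2 := norm_mulf_le (f := fun x => ψ (-c x)) zero_le_one
      fun _ => (AddChar.norm_apply _ _).le
    simpa using norm_mul_le_of_le (norm_mul_le_of_le h1 (le_refl ‖T‖)) h2
  rw [th, norm_smul, norm_inv, Complex.norm_natCast]
  have h := norm_sum_le_of_le Finset.univ fun ψ _ => e ψ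
  rw [Finset.sum_const, Finset.card_univ, AddChar.card_eq, Fintype.card_fin, nsmul_eq_mul] at h
  have : (0 : ℝ) < (N + 1 : ℕ) := by positivity
  rwa [inv_mul_le_iff₀ this]

theorem th_sub {N : ℕ} (c : X → Fin (N + 1)) (S T : BX X) : th c (S - T) = th c S - th c T :=
  ent_ext fun x y => by
    rw [ent_sub, ent_th, ent_th, ent_th, ent_sub]
    split_ifs <;> simp

variable [MetricSpace X]

theorem th_mem {N : ℕ} (c : X → Fin (N + 1)) {I : NonUnitalSubalgebra ℂ (BX X)} (hI : IsIdeal I)
    {T : BX X} (hT : T ∈ I) : th c T ∈ I :=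
  I.smul_mem _ (sum_mem fun _ _ =>
    hI.right _ (mulf_mem_Roe _) _ (hI.left _ (mulf_mem_Roe _) _ hT))

/-- Ideals are invariant under compression to uniformly bounded blocks. -/
theorem block (hc : RColor) (hX : BddGeom X) {I : NonUnitalSubalgebra ℂ (BX X)} (hI : IsIdeal I)
    (π : X → X) (L : ℝ) (hπ : ∀ x, dist x (π x) ≤ L) {t : BX X} (ht : t ∈ I) :
    ∃ g ∈ I, (∀ x y, ent g x y ≠ 0 → π x = π y) ∧
      ∀ t' : BX X, (∀ x y, ent t' x y ≠ 0 → π x = π y) → ‖g - t'‖ ≤ ‖t - t'‖ := by
  choose N c hcol using fun k : ℕ => hc X hX (k + 2 * L)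
  let d : ∀ k : ℕ, X → Fin (N k + 1) := fun k x => (c k (π x)).castSucc
  have hd : ∀ (k : ℕ) x y, dist x y ≤ k → (d k x = d k y ↔ π x = π y) := fun k x y h => by
    refine ⟨fun e => hcol k _ _ (Fin.castSucc_injective _ e) ?_, fun e => by simp only [d, e]⟩
    have := dist_triangle4 (π x) x y (π y)
    rw [dist_comm (π x) x] at this
    linarith [hπ x, hπ y]
  have hcau : CauchySeq fun k => th (d k) t := by
    refine Metric.cauchySeq_iff.2 fun ε hε => ?_
    obtain ⟨s, ⟨R, hR⟩, hs⟩ := Metric.mem_closure_iff.1 (hI.le ht) (ε / 2) (by positivity)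
    refine ⟨⌈R⌉₊, fun k hk l hl => ?_⟩
    have e : th (d k) s = th (d l) s := ent_ext fun x y => by
      rw [ent_th, ent_th]
      by_cases h0 : ent s x y = 0
      · simp [h0]
      · have h1 : dist x y ≤ ⌈R⌉₊ := (hR x y h0).trans (Nat.le_ceil R)
        exact if_congr ((hd k x y (h1.trans (Nat.cast_le.2 hk))).trans
          (hd l x y (h1.trans (Nat.cast_le.2 hl))).symm) rfl rfl
    have e' : th (d k) t - th (d l) t = th (d k) (t - s) - th (d l) (t - s) := by
      rw [th_sub, th_sub, e]
      abel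
    rw [dist_eq_norm] at hs ⊢
    rw [e']
    linarith [norm_sub_le (th (d k) (t - s)) (th (d l) (t - s)), norm_th (d k) (t - s),
      norm_th (d l) (t - s)]
  obtain ⟨g, hg⟩ := cauchySeq_tendsto_of_complete hcau
  refine ⟨g, hI.closed.mem_of_tendsto hg (.of_forall fun k => th_mem _ hI ht), fun x y h => ?_,
    fun t' ht' => ?_⟩
  · by_contra hne
    refine h (tendsto_nhds_unique (((continuous_ent x y).tendsto g).comp hg) ?_)
    refine tendsto_const_nhds.congr' ?_
    filter_upwards [eventually_ge_atTop ⌈dist x y⌉₊] with k hk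
    have := hd k x y ((Nat.le_ceil _).trans (Nat.cast_le.2 hk))
    simp only [Function.comp, ent_th, this, hne, if_false]
  · refine le_of_tendsto' (hg.sub_const t').norm fun k => ?_
    have e : th (d k) t' = t' := ent_ext fun x y => by
      rw [ent_th]
      split_ifs with h
      · rfl
      · by_contra h0
        exact h (by simp only [d, ht' x y (Ne.symm h0)])
    calc ‖th (d k) t - t'‖ = ‖th (d k) (t - t')‖ := by rw [th_sub, e]
      _ ≤ _ := norm_th _ _

end LocX

theorem rLoc (hc : RColor) : RLoc := fun X _ hX I hI t ht t' R S Y ht' hRS hS hY => by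
  classical
  let W : X → Set X := fun x => {y | y ∈ Y ∧ dist x y ≤ 2 * S}
  let π : X → X := fun x => if h : (W x).Nonempty then h.choose else x
  have hπ : ∀ x, dist x (π x) ≤ 2 * S := fun x => by
    simp only [π]
    split_ifs with h
    · exact h.choose_spec.2
    · rw [dist_self]
      positivity
  have hW : ∀ x, ∀ y ∈ Y, dist x y ≤ S → π x = π y := fun x y hy h => by
    have e : W x = W y := Set.ext fun z => and_congr_right fun hz => by
      have h1 := dist_triangle x y z
      have h2 := dist_triangle_left y z x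
      have h3 := hY y hy z hz
      constructor <;> intro h4 <;> linarith [h3 (by linarith)]
    have hy' : (W y).Nonempty := ⟨y, hy, by rw [dist_self]; positivity⟩
    simp only [π, e, dif_pos hy']
  obtain ⟨g, hg, h1, h2⟩ := LocX.block hc hX hI π _ hπ
    (hI.right _ (mulf_mem_Roe (Y.indicator 1)) t ht)
  refine ⟨g, ⟨hg, 4 * S, fun x y h => ?_⟩, ?_⟩
  · have := dist_triangle_right x y (π x)
    have h3 := hπ y
    rw [← h1 x y h] at h3
    linarith [hπ x]
  · have h3 := h2 (t' * mulf (Y.indicator 1)) fun x y h => by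
      rw [ent_mul_mulf (Bd.indicator Y)] at h
      exact hW x y (Set.mem_of_indicator_ne_zero (right_ne_zero_of_mul h))
        ((ht' x y (left_ne_zero_of_mul h)).trans hRS)
    have h4 : ‖t * mulf (Y.indicator 1) - t' * mulf (Y.indicator 1)‖ ≤ ‖t - t'‖ := by
      rw [← sub_mul]
      simpa using norm_mul_le_of_le (le_refl ‖t - t'‖)
        (norm_mulf_le zero_le_one (norm_indicator_le Y))
    have h5 := norm_sub_le_norm_sub_add_norm_sub (t * mulf (Y.indicator 1))
      (t' * mulf (Y.indicator 1)) g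
    rw [norm_sub_rev (t' * _) g] at h5
    linarith

theorem rComm : RComm := fun X ι κ _ _ _ _ _ T M R ε C N c hT hC hε hM hc => by
  classical
  have hb : BdM M := ⟨|C|, abs_nonneg _, fun x => (hC x).trans (le_abs_self _)⟩
  let F : Fin N → X → Matrix κ κ ℂ := fun a x =>
    if h : ∃ y, c y = a ∧ dist x y ≤ R then M x - M h.choose else 0
  have hF : ∀ a x, nm (F a x) ≤ ε := fun a x => by
    simp only [F]
    split_ifs with h
    · exact hM _ _ h.choose_spec.2
    · exact nm_zero.trans_le hε
  have hF' : ∀ x y, dist x y ≤ R → F (c y) x = M x - M y := fun x y h => by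
    have h' : ∃ z, c z = c y ∧ dist x z ≤ R := ⟨y, rfl, h⟩
    have e : h'.choose = y := hc _ _ h'.choose_spec.1 (by
      linarith [dist_triangle_left h'.choose y x, h'.choose_spec.2])
    simp only [F, dif_pos h', e]
  let P : Fin N → Matrix ι ι (BX X) := fun a =>
    T * diagonal fun _ => mulf ({y | c y = a}.indicator 1)
  have hP : ∀ a, nm (P a) ≤ nm T := fun a => by
    have : nm (diagonal fun _ : ι => mulf ({y | c y = a}.indicator 1)) ≤ 1 := nm_le_one (by
      rw [diagonal_conjTranspose, diagonal_mul_diagonal]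
      congr 1
      funext i
      rw [Pi.star_apply, ← mulf_star (Bd.indicator _),
        ← mulf_mul (Bd.indicator _).star (Bd.indicator _)]
      congr 1
      funext x
      by_cases h : c x = a <;> simp [h])
    simpa using nm_mul_le' (le_refl (nm T)) this
  have e : dg ι M * amp κ T - amp κ T * dg ι M = ∑ a, dg ι (F a) * amp κ (P a) := by
    ext1 p q
    refine ent_ext fun x y => ?_
    rw [Matrix.sub_apply, ent_sub, ent_dg_mul_amp hb, ent_amp_mul_dg hb, Matrix.sum_apply, ent_sum]
    have e1 : ∀ a, ent ((dg ι (F a) * amp κ (P a)) p q) x y =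
        if c y = a then F a x p.2 q.2 * ent (T p.1 q.1) x y else 0 := fun a => by
      rw [ent_dg_mul_amp ⟨ε, hε, hF a⟩]
      simp only [P, mul_diagonal]
      rw [ent_mul_mulf (Bd.indicator _)]
      by_cases h : c y = a <;> simp [h]
    simp only [e1, Finset.sum_ite_eq, Finset.mem_univ, if_true]
    by_cases h0 : ent (T p.1 q.1) x y = 0
    · simp [h0]
    · rw [hF' x y (hT _ _ _ _ h0), Matrix.sub_apply]
      ring
  rw [e]
  refine (nm_sum_le _ _).trans ((Finset.sum_le_sum fun a _ =>
    nm_mul_le' (nm_dg hε (hF a)) ((nm_amp _).trans (hP a))).trans_eq ?_)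
  rw [Finset.sum_const, Finset.card_univ, Fintype.card_fin, nsmul_eq_mul, mul_assoc]

end Pool.Agent.MP_9c5a49_an.H98
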