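import Pool.Agent.MP_9c5a49_an.H98.Defs

/-!
Internal definitions and the statements of the pieces.
-/

set_option autoImplicit false

namespace Pool.Agent.MP_9c5a49_an.H98

open Matrix
open scoped ComplexOrder

/-! ### Classes of matrices indexed by any finite type -/

open Classical in
/-- The class in `K₀` of an idempotent matrix. -/
noncomputable def k0 {R ι : Type} [Ring R] [Fintype ι] [DecidableEq ι] (e : Matrix ι ι R) :
    K0u R :=
  if h : e * e = e then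
    QuotientAddGroup.mk (.of ⟨Fintype.card ι,
      reindex (Fintype.equivFin ι) (Fintype.equivFin ι) e, by simp [h]⟩)
  else 0

structure SK0 : Prop where
  eqv : ∀ {R ι κ : Type} [Ring R] [Fintype ι] [DecidableEq ι] [Fintype κ] [DecidableEq κ]
    (x : Matrix ι κ R) (y : Matrix κ ι R) (e : Matrix ι ι R) (f : Matrix κ κ R),
    e * e = e → f * f = f → x * y = e → y * x = f → k0 e = k0 f
  blocks : ∀ {R ι κ : Type} [Ring R] [Fintype ι] [DecidableEq ι] [Fintype κ] [DecidableEq κ]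
    (e : Matrix ι ι R) (f : Matrix κ κ R), e * e = e → f * f = f →
    k0 (fromBlocks e 0 0 f) = k0 e + k0 f
  map : ∀ {R S ι : Type} [Ring R] [Ring S] [Fintype ι] [DecidableEq ι] (φ : R →+* S)
    (e : Matrix ι ι R), e * e = e → K0u.map φ (k0 e) = k0 (e.map φ)
  diag : ∀ {R ι κ : Type} [Ring R] [Fintype ι] [DecidableEq ι] [Fintype κ] [DecidableEq κ]
    (e : κ → Matrix ι ι R), (∀ γ, e γ * e γ = e γ) → k0 (blockDiagonal e) = ∑ γ, k0 (e γ)
  gen : ∀ {R : Type} [Ring R] (H : AddSubgroup (K0u R)),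
    (∀ (n : ℕ) (e : Matrix (Fin n) (Fin n) R), e * e = e → k0 e ∈ H) → H = ⊤

open Classical in
/-- The class in `K₁` of an invertible matrix. -/
noncomputable def k1 {A ι : Type} [NonUnitalRing A] [Module ℂ A] [IsScalarTower ℂ A A]
    [SMulCommClass ℂ A A] [TopologicalSpace A] [Fintype ι] [DecidableEq ι]
    (u : Matrix ι ι (Unitization ℂ A)) : K1 A :=
  if h : IsUnit u then
    Quot.mk _ ⟨Fintype.card ι, reindex (Fintype.equivFin ι) (Fintype.equivFin ι) u,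
      h.map (reindexAlgEquiv ℂ _ (Fintype.equivFin ι))⟩
  else Quot.mk _ ⟨0, 1, isUnit_one⟩

/-- The graded dimension is one. -/
def Sd {κ : Type} [Fintype κ] (ev : κ → Bool) : Prop := ∑ β, (if ev β then (1 : ℤ) else -1) = 1

structure SK1 (A : Type) [NonUnitalRing A] [Module ℂ A] [IsScalarTower ℂ A A]
    [SMulCommClass ℂ A A] [TopologicalSpace A] : Prop where
  htpy : ∀ {ι : Type} [Fintype ι] [DecidableEq ι] (u v : Matrix ι ι (Unitization ℂ A)),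
    Htpy u v → k1 u = k1 v
  map : ∀ {A' ι : Type} [NonUnitalRing A'] [Module ℂ A'] [IsScalarTower ℂ A' A']
    [SMulCommClass ℂ A' A'] [TopologicalSpace A'] [Fintype ι] [DecidableEq ι] (φ : A' →ₙₐ[ℂ] A)
    (hφ : Continuous φ) (u : Matrix ι ι (Unitization ℂ A')), IsUnit u →
    K1.map φ hφ (k1 u) = k1 (u.map (uMap φ))
  gen : ∀ x : K1 A, ∃ (n : ℕ) (u : Matrix (Fin n) (Fin n) (Unitization ℂ A)),
    IsUnit u ∧ x = k1 u
  scal : ∀ {ι : Type} [Fintype ι] [DecidableEq ι] (s : Matrix ι ι ℂ)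
    (u : Matrix ι ι (Unitization ℂ A)), IsUnit s → IsUnit u →
    k1 (s.map (algebraMap ℂ (Unitization ℂ A)) * u) = k1 u
  diag : ∀ {ι κ : Type} [Fintype ι] [DecidableEq ι] [Fintype κ] [DecidableEq κ] (ev : κ → Bool)
    (u u' : Matrix ι ι (Unitization ℂ A)), Sd ev → u * u' = 1 → u' * u = 1 →
    k1 (blockDiagonal fun γ => if ev γ then u else u') = k1 u

def RK1 : Prop :=
  ∀ (A : Type) [NonUnitalRing A] [Module ℂ A] [IsScalarTower ℂ A A] [SMulCommClass ℂ A A]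
    [TopologicalSpace A] [IsTopologicalRing A] [ContinuousSMul ℂ A], SK1 A

/-! ### Matrices over a C⋆-algebra -/

section CStar

variable {B : Type} [CStarAlgebra B]

/-- The C⋆-norm of a matrix. -/
noncomputable def nm [PartialOrder B] [StarOrderedRing B] {ι : Type} [Fintype ι]
    (a : Matrix ι ι B) : ℝ := ‖CStarMatrix.ofMatrix a‖

/-- All entries lie in `S`. -/
def Ent {ι κ : Type} (S : NonUnitalSubalgebra ℂ B) (a : Matrix ι κ B) : Prop := ∀ i j, a i j ∈ S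

/-- `T ⊗ 1`. -/
def amp {ι : Type} (κ : Type) [DecidableEq κ] (T : Matrix ι ι B) : Matrix (ι × κ) (ι × κ) B :=
  blockDiagonal fun _ => T

/-- The projection on the even part. -/
def qq (ι : Type) {κ : Type} [DecidableEq ι] [DecidableEq κ] (ev : κ → Bool) :
    Matrix (ι × κ) (ι × κ) B :=
  diagonal fun p => if ev p.2 then 1 else 0

/-- A scalar matrix seen over `B`. -/
noncomputable def sc {ι κ : Type} (s : Matrix ι κ ℂ) : Matrix ι κ B := s.map (algebraMap ℂ B)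

/-- Two ideals `J ≤ I` of a closed unital subalgebra `A`. -/
structure Tri (A I J : NonUnitalSubalgebra ℂ B) : Prop where
  one : 1 ∈ A
  closed : IsClosed (A : Set B)
  JI : J ≤ I
  IA : I ≤ A
  Il : ∀ a ∈ A, ∀ t ∈ I, a * t ∈ I
  Ir : ∀ a ∈ A, ∀ t ∈ I, t * a ∈ I
  Jl : ∀ a ∈ A, ∀ t ∈ J, a * t ∈ J
  Jr : ∀ a ∈ A, ∀ t ∈ J, t * a ∈ J

/-- The analytic input of the K-theory argument. -/
def Core [PartialOrder B] [StarOrderedRing B] (A I J : NonUnitalSubalgebra ℂ B) : Prop :=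
  ∀ (ι : Type) [Fintype ι] [DecidableEq ι] (T T' : Matrix ι ι B), Ent I T → Ent I T' →
    ∀ η : ℝ, 0 < η → ∃ (κ : Type) (_ : Fintype κ) (_ : DecidableEq κ) (ev : κ → Bool)
      (V V' : ℝ → Matrix (ι × κ) (ι × κ) B), Sd ev ∧ Continuous V ∧ Continuous V' ∧
      (∀ τ, V τ * V' τ = 1 ∧ V' τ * V τ = 1 ∧ Ent A (V τ) ∧ Ent A (V' τ) ∧
        ∀ s : Matrix ι ι ℂ, V τ * amp κ (sc s) = amp κ (sc s) * V τ) ∧
      V 0 = 1 ∧ nm (V 1) ≤ 1 ∧ nm (V' 1) ≤ 1 ∧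
      ∀ S, S = T ∨ S = T' → nm (V 1 * amp κ S - amp κ S * V 1) ≤ η ∧
        ∃ g, Ent J g ∧ nm (amp κ S * (qq ι ev - V 1 * (1 - qq ι ev) * V' 1) - g) ≤ η

end CStar

def RStep0 : Prop :=
  ∀ (B : Type) [CStarAlgebra B] [PartialOrder B] [StarOrderedRing B]
    (A I J : NonUnitalSubalgebra ℂ B) (h : Tri A I J), Core A I J →
    Function.Surjective (K0.map (NonUnitalSubalgebra.inclusion h.JI))

def RStep1 : Prop :=
  ∀ (B : Type) [CStarAlgebra B] [PartialOrder B] [StarOrderedRing B]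
    (A I J : NonUnitalSubalgebra ℂ B) (h : Tri A I J), Core A I J →
    Function.Surjective (K1.map (NonUnitalSubalgebra.inclusion h.JI) (continuous_inclusion h.JI))

/-! ### The Bott data -/

/-- The unitary part of `1 + b (2 q - 1)`. -/
def RPol : Prop :=
  ∀ (E : Type) [CStarAlgebra E] [PartialOrder E] [StarOrderedRing E] (q : E), IsStarProjection q →
    ∃ U : E → E, U 0 = 1 ∧
      (∀ b, IsSelfAdjoint b → q * b = b * (1 - q) → U b ∈ unitary E ∧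
        ∀ (χ : E) (r : ℝ), IsStarProjection χ → 0 < r → r ^ 2 • (1 - χ) ≤ 1 + b * b →
          ‖(1 - χ) * (q - U b * (1 - q) * star (U b))‖ ≤ r⁻¹) ∧
      ∀ b b', IsSelfAdjoint b → q * b = b * (1 - q) → IsSelfAdjoint b' → q * b' = b' * (1 - q) →
        ‖U b - U b'‖ ≤ ‖b - b'‖

def ROne : Prop :=
  ∀ M η : ℝ, 0 < η → ∃ (κ : Type) (_ : Fintype κ) (_ : DecidableEq κ) (ev : κ → Bool) (v : κ → ℝ)
    (b : ℝ → Matrix κ κ ℂ), Sd ev ∧
    (∀ p, (b p).IsHermitian ∧ ∀ β β', ev β = ev β' → b p β β' = 0) ∧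
    (∀ p q, ((((p - q) ^ 2 : ℝ) : ℂ) • (1 : Matrix κ κ ℂ) - (b p - b q) * (b p - b q)).PosSemidef) ∧
    ∀ p, |p| ≤ M →
      (b p * b p + (η : ℂ) • (1 : Matrix κ κ ℂ) -
        diagonal fun β => (((v β - p) ^ 2 : ℝ) : ℂ)).PosSemidef

def RBlock : Prop :=
  ∀ (D : ℕ) (M η : ℝ), 0 < η → ∃ (κ : Type) (_ : Fintype κ) (_ : DecidableEq κ) (ev : κ → Bool)
    (v : κ → Fin D → ℝ) (b : (Fin D → ℝ) → Matrix κ κ ℂ), Sd ev ∧
    (∀ p, (b p).IsHermitian ∧ ∀ β β', ev β = ev β' → b p β β' = 0) ∧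
    (∀ p q, (((∑ c, (p c - q c) ^ 2 : ℝ) : ℂ) • (1 : Matrix κ κ ℂ) -
      (b p - b q) * (b p - b q)).PosSemidef) ∧
    ∀ p, (∀ c, |p c| ≤ M) →
      (b p * b p + ((D * η : ℝ) : ℂ) • (1 : Matrix κ κ ℂ) -
        diagonal fun β => ((∑ c, (v β c - p c) ^ 2 : ℝ) : ℂ)).PosSemidef

/-- The projection on the even basis vectors. -/
def qe {κ : Type} [DecidableEq κ] (ev : κ → Bool) : Matrix κ κ ℂ :=
  diagonal fun β => if ev β then 1 else 0

/-- The projection on the basis vectors placed near `p`. -/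
noncomputable def chi {κ : Type} [DecidableEq κ] {D : ℕ} (v : κ → Fin D → ℝ) (r : ℝ)
    (p : Fin D → ℝ) : Matrix κ κ ℂ :=
  diagonal fun β => if ∑ c, (v β c - p c) ^ 2 ≤ r ^ 2 then 1 else 0

def RBott : Prop :=
  ∀ (D : ℕ) (M : ℝ), ∃ (κ : Type) (_ : Fintype κ) (_ : DecidableEq κ) (ev : κ → Bool)
    (v : κ → Fin D → ℝ) (U : ℝ → (Fin D → ℝ) → Matrix κ κ ℂ) (K : ℝ), Sd ev ∧
    ∀ p, (∀ c, |p c| ≤ M) → (∀ τ, U τ p * (U τ p)ᴴ = 1 ∧ (U τ p)ᴴ * U τ p = 1) ∧ U 0 p = 1 ∧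
      (∀ τ σ, nm (U τ p - U σ p) ≤ K * |τ - σ|) ∧
      (∀ (q : Fin D → ℝ) (ε : ℝ), 0 ≤ ε → ∑ c, (p c - q c) ^ 2 ≤ ε ^ 2 →
        nm (U 1 p - U 1 q) ≤ ε) ∧
      ∀ r : ℝ, 0 < r → nm ((1 - chi v r p) * (qe ev - U 1 p * (1 - qe ev) * (U 1 p)ᴴ)) ≤ r⁻¹

/-! ### Geometry -/

def RColor : Prop :=
  ∀ (X : Type) [MetricSpace X], BddGeom X → ∀ R : ℝ, ∃ (N : ℕ) (c : X → Fin N),
    ∀ x y, c x = c y → dist x y ≤ R → x = y

def RFold : Prop :=
  ∀ (X : Type) [MetricSpace X], LocEmb X → ∀ R ε r : ℝ, 0 < ε → ∃ (S : ℝ) (D : ℕ) (M : ℝ)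
    (Φ : X → Fin D → ℝ), R ≤ S ∧ 0 < S ∧ (∀ x c, |Φ x c| ≤ M) ∧
    (∀ x y, dist x y ≤ R → ∑ c, (Φ x c - Φ y c) ^ 2 ≤ ε ^ 2) ∧
    ∀ x y, S ≤ dist x y → dist x y ≤ 3 * S → 4 * r ^ 2 < ∑ c, (Φ x c - Φ y c) ^ 2

open Classical in
/-- Multiplication by a bounded function. -/
noncomputable def mulf {X : Type} (f : X → ℂ) : BX X :=
  if h : ∃ T : BX X, ∀ (ξ : L2 X) (x : X), T ξ x = f x * ξ x then h.choose else 0

/-- The operator given by a matrix-valued function. -/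
noncomputable def dg {X : Type} (ι : Type) [DecidableEq ι] {κ : Type} (M : X → Matrix κ κ ℂ) :
    Matrix (ι × κ) (ι × κ) (BX X) :=
  of fun p q => if p.1 = q.1 then mulf fun x => M x p.2 q.2 else 0

def RLoc : Prop :=
  ∀ (X : Type) [MetricSpace X], BddGeom X → ∀ (I : NonUnitalSubalgebra ℂ (BX X)), IsIdeal I →
    ∀ t ∈ I, ∀ (t' : BX X) (R S : ℝ) (Y : Set X), (∀ x y, ent t' x y ≠ 0 → dist x y ≤ R) →
    R ≤ S → 0 < S → (∀ y ∈ Y, ∀ y' ∈ Y, dist y y' ≤ 3 * S → dist y y' < S) →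
    ∃ g ∈ I ⊓ finProp X, ‖t * mulf (Y.indicator 1) - g‖ ≤ 2 * ‖t - t'‖

def RComm : Prop :=
  ∀ (X ι κ : Type) [MetricSpace X] [Fintype ι] [DecidableEq ι] [Fintype κ] [DecidableEq κ]
    (T : Matrix ι ι (BX X)) (M : X → Matrix κ κ ℂ) (R ε C : ℝ) (N : ℕ) (c : X → Fin N),
    (∀ i j x y, ent (T i j) x y ≠ 0 → dist x y ≤ R) → (∀ x, nm (M x) ≤ C) → 0 ≤ ε →
    (∀ x y, dist x y ≤ R → nm (M x - M y) ≤ ε) → (∀ x y, c x = c y → dist x y ≤ 2 * R → x = y) →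
    nm (dg ι M * amp κ T - amp κ T * dg ι M) ≤ N * ε * nm T

def RGeom : Prop :=
  ∀ (X : Type) [MetricSpace X] (I : NonUnitalSubalgebra ℂ (BX X)), IsIdeal I →
    Tri (Roe X) I (geom I)

def RCore : Prop :=
  ∀ (X : Type) [MetricSpace X], BddGeom X → LocEmb X → ∀ (I : NonUnitalSubalgebra ℂ (BX X)),
    IsIdeal I → Core (Roe X) I (geom I)

theorem main_of (h0 : RStep0) (h1 : RStep1) (hg : RGeom) (hc : RCore) (X : Type) [MetricSpace X]
    (hX : BddGeom X) (hl : LocEmb X) (I : NonUnitalSubalgebra ℂ (BX X)) (hI : IsIdeal I) :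
    Function.Surjective (K0.map (incl hI)) ∧
      Function.Surjective (K1.map (incl hI) (incl_cont hI)) :=
  ⟨h0 _ _ _ _ (hg X I hI) (hc X hX hl I hI), h1 _ _ _ _ (hg X I hI) (hc X hX hl I hI)⟩

end Pool.Agent.MP_9c5a49_an.H98
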