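import Pool.Agent.MP_9c5a49_an.H98.Main

/-!
Transport to an arbitrary Hilbert space with an orthonormal basis indexed by the space.
-/

set_option autoImplicit false

namespace Pool.Agent.MP_9c5a49_an.H98

open Matrix

section

variable {B B' : Type} [CStarAlgebra B] [CStarAlgebra B'] {A I J : NonUnitalSubalgebra ℂ B}
  {A' I' J' : NonUnitalSubalgebra ℂ B'}

theorem Tri.trans (φ : B' ≃⋆ₐ[ℂ] B) (hA : ∀ t, φ t ∈ A ↔ t ∈ A') (hI : ∀ t, φ t ∈ I ↔ t ∈ I')
    (hJ : ∀ t, φ t ∈ J ↔ t ∈ J') (h : Tri A' I' J') : Tri A I J := by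
  have hs := φ.surjective
  refine ⟨?_, ?_, fun t ht => ?_, fun t ht => ?_, fun a ha t ht => ?_, fun a ha t ht => ?_,
    fun a ha t ht => ?_, fun a ha t ht => ?_⟩
  · rw [← map_one φ, hA]
    exact h.one
  · have : (A : Set B) = φ.symm ⁻¹' A' := Set.ext fun t => by
      rw [Set.mem_preimage, SetLike.mem_coe, SetLike.mem_coe, ← hA, φ.apply_symm_apply]
    rw [this]
    exact h.closed.preimage (StarAlgEquiv.isometry φ.symm).continuous
  · obtain ⟨t, rfl⟩ := hs t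
    exact (hI t).2 (h.JI ((hJ t).1 ht))
  · obtain ⟨t, rfl⟩ := hs t
    exact (hA t).2 (h.IA ((hI t).1 ht))
  all_goals
    obtain ⟨t, rfl⟩ := hs t
    obtain ⟨a, rfl⟩ := hs a
    rw [← map_mul]
  exacts [(hI _).2 (h.Il _ ((hA a).1 ha) _ ((hI t).1 ht)),
    (hI _).2 (h.Ir _ ((hA a).1 ha) _ ((hI t).1 ht)),
    (hJ _).2 (h.Jl _ ((hA a).1 ha) _ ((hJ t).1 ht)),
    (hJ _).2 (h.Jr _ ((hA a).1 ha) _ ((hJ t).1 ht))]

variable [PartialOrder B] [StarOrderedRing B] [PartialOrder B'] [StarOrderedRing B']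

theorem nm_map {ι : Type} [Fintype ι] (φ : B' ≃⋆ₐ[ℂ] B) (a : Matrix ι ι B') :
    nm (a.map φ) ≤ nm a := by
  classical
  exact NonUnitalStarAlgHom.norm_apply_le (CStarMatrix.mapₙₐ (n := ι) (φ : B' →⋆ₙₐ[ℂ] B))
    (CStarMatrix.ofMatrix a)

theorem Core.trans (φ : B' ≃⋆ₐ[ℂ] B) (hA : ∀ t, φ t ∈ A ↔ t ∈ A') (hI : ∀ t, φ t ∈ I ↔ t ∈ I')
    (hJ : ∀ t, φ t ∈ J ↔ t ∈ J') (h : Core A' I' J') : Core A I J := by
  intro ι _ _ T T' hT hT' η hη
  have hE : ∀ S : Matrix ι ι B, Ent I S → Ent I' (S.map φ.symm) := fun S hS i j => by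
    rw [← hI, map_apply, φ.apply_symm_apply]
    exact hS i j
  obtain ⟨κ, _, _, ev, V, V', hev, hc, hc', h1, h0, hn, hn', h2⟩ :=
    h ι _ _ (hE T hT) (hE T' hT') η hη
  let Φ : Matrix (ι × κ) (ι × κ) B' →+* Matrix (ι × κ) (ι × κ) B := (φ : B' →+* B).mapMatrix
  have hΦ : ∀ a, nm (Φ a) ≤ nm a := nm_map φ
  have hcont : Continuous Φ :=
    continuous_id.matrix_map (StarAlgEquiv.isometry φ).continuous
  have hamp : ∀ S : Matrix ι ι B', Φ (amp κ S) = amp κ (S.map φ) := fun S =>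
    blockDiagonal_map _ _ (map_zero φ)
  have hsc : ∀ s : Matrix ι ι ℂ, (sc s : Matrix ι ι B').map φ = sc s := fun s => by
    ext i j
    exact AlgHomClass.commutes φ _
  have hq : Φ (qq ι ev) = qq ι ev := by
    refine (diagonal_map (map_zero φ)).trans ?_
    rw [qq]
    congr 1
    funext p
    split_ifs <;> simp
  refine ⟨κ, inferInstance, inferInstance, ev, fun τ => Φ (V τ), fun τ => Φ (V' τ), hev,
    hcont.comp hc, hcont.comp hc', fun τ => ⟨?_, ?_, fun p q => (hA _).2 ((h1 τ).2.2.1 p q),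
      fun p q => (hA _).2 ((h1 τ).2.2.2.1 p q), fun s => ?_⟩, ?_, (hΦ _).trans hn,
    (hΦ _).trans hn', fun S hS => ?_⟩
  · rw [← map_mul, (h1 τ).1, map_one]
  · rw [← map_mul, (h1 τ).2.1, map_one]
  · rw [← hsc, ← hamp, ← map_mul, (h1 τ).2.2.2.2, map_mul]
  · show Φ (V 0) = 1
    rw [h0, map_one]
  obtain ⟨h3, g, hg, h4⟩ := h2 (S.map φ.symm) (hS.imp (by rintro rfl; rfl) (by rintro rfl; rfl))
  have e : Φ (amp κ (S.map φ.symm)) = amp κ S := by
    rw [hamp]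
    congr 1
    ext i j
    exact φ.apply_symm_apply _
  refine ⟨?_, Φ g, fun p q => (hJ _).2 (hg p q), ?_⟩
  · simpa only [map_sub, map_mul, e] using (hΦ _).trans h3
  · simpa only [map_sub, map_mul, map_one, e, hq] using (hΦ _).trans h4

end

theorem KZero.surj {A A' : Type} [NonUnitalRing A] [Module ℂ A] [IsScalarTower ℂ A A]
    [SMulCommClass ℂ A A] [NonUnitalRing A'] [Module ℂ A'] [IsScalarTower ℂ A' A']
    [SMulCommClass ℂ A' A'] (φ : A →ₙₐ[ℂ] A') (h : Function.Surjective (K0.map φ)) :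
    Function.Surjective (KZero.map φ) := fun y => by
  obtain ⟨x, hx⟩ := h ⟨y.1, y.2⟩
  exact ⟨⟨x.1, x.2⟩, Subtype.ext (congrArg Subtype.val hx)⟩

theorem main_basis (X : Type) [MetricSpace X] (H : Type) [NormedAddCommGroup H]
    [InnerProductSpace ℂ H] [CompleteSpace H] (b : HilbertBasis X ℂ H) (hX : BddGeom X)
    (hl : LocEmb X) (I J : NonUnitalSubalgebra ℂ (H →L[ℂ] H))
    (hI : IsIdealOf (closure (FinProp b)) I)
    (hJ : (J : Set (H →L[ℂ] H)) = closure ((I : Set (H →L[ℂ] H)) ∩ FinProp b)) (h : J ≤ I) :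
    Function.Surjective (KZero.map (NonUnitalSubalgebra.inclusion h)) ∧
      Function.Surjective (K1.map (NonUnitalSubalgebra.inclusion h) (continuous_inclusion h)) := by
  classical
  let φ : BX X ≃⋆ₐ[ℂ] (H →L[ℂ] H) := b.repr.symm.conjStarAlgEquiv
  let e : BX X ≃ₜ (H →L[ℂ] H) := ⟨φ.toEquiv, (StarAlgEquiv.isometry φ).continuous,
    (StarAlgEquiv.isometry φ.symm).continuous⟩
  have hent : ∀ t x y, inner ℂ (b x) (φ t (b y)) = ent t x y := fun t x y => by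
    rw [← b.repr_apply_apply]
    show b.repr (b.repr.symm (t (b.repr (b y)))) x = _
    rw [LinearIsometryEquiv.apply_symm_apply, b.repr_self]
    rfl
  have hF : e ⁻¹' FinProp b = finProp X := Set.ext fun t => by
    show (∃ R : ℝ, ∀ x y, inner ℂ (b x) (φ t (b y)) ≠ 0 → dist x y ≤ R) ↔ _
    simp only [hent]
    rfl
  have hR : ∀ t, φ t ∈ closure (FinProp b) ↔ t ∈ Roe X := fun t => by
    show t ∈ e ⁻¹' closure (FinProp b) ↔ _
    rw [e.preimage_closure, hF]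
    rfl
  let I' : NonUnitalSubalgebra ℂ (BX X) := I.comap φ
  have hI' : IsIdeal I' := by
    refine ⟨hI.closed.preimage e.continuous, fun t ht => (hR t).1 (hI.le ht),
      fun a ha t ht => ?_, fun a ha t ht => ?_⟩
    · show φ (a * t) ∈ I
      rw [map_mul]
      exact hI.left _ ((hR a).2 ha) _ ht
    · show φ (t * a) ∈ I
      rw [map_mul]
      exact hI.right _ ((hR a).2 ha) _ ht
  have hA : ∀ t, φ t ∈ (Roe X).comap φ.symm ↔ t ∈ Roe X := fun t => by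
    rw [NonUnitalSubalgebra.mem_comap, φ.symm_apply_apply]
  have hJ' : ∀ t, φ t ∈ J ↔ t ∈ geom I' := fun t => by
    show t ∈ e ⁻¹' (J : Set (H →L[ℂ] H)) ↔ _
    rw [hJ, e.preimage_closure, Set.preimage_inter, hF]
    rfl
  have ht := (rGeom X I' hI').trans φ hA (fun _ => Iff.rfl) hJ'
  have hc := (rCore (rBott rPol (rBlock rOne)) rColor rFold X hX hl I' hI').trans φ hA
    (fun _ => Iff.rfl) hJ'
  exact ⟨KZero.surj _ (rStep0 rK0 _ _ _ _ ht hc), rStep1 rK1 _ _ _ _ ht hc⟩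

end Pool.Agent.MP_9c5a49_an.H98
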